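import Mathlib

/-!
An elementary exchange argument (in the spirit of Wiebe's theorem) for two regular sequences
`φ_1, ..., φ_n` and `z_1^N, ..., z_n^N` in a polynomial ring.
-/

set_option autoImplicit false

namespace Pool.Agent.H466Z.Assoc

open MvPolynomial

/-- `x` is a non-zero-divisor modulo `I`. -/
def Reg {R : Type*} [CommRing R] (I : Ideal R) (x : R) : Prop := ∀ g : R, x * g ∈ I → g ∈ I

theorem Reg.mul {R : Type*} [CommRing R] {I : Ideal R} {x y : R} (hx : Reg I x) (hy : Reg I y) :
    Reg I (x * y) := fun g hg => hy g (hx _ (by rwa [← mul_assoc]))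

theorem Reg.pow {R : Type*} [CommRing R] {I : Ideal R} {x : R} (hx : Reg I x) (m : ℕ) :
    Reg I (x ^ m) := by
  induction m with
  | zero => intro g hg; simpa using hg
  | succ m ih => rw [pow_succ]; exact ih.mul hx

theorem Reg.of_isUnit {R : Type*} [CommRing R] {I : Ideal R} {x : R} (hx : IsUnit x) :
    Reg I x := fun _ hg => (Ideal.unit_mul_mem_iff_mem I hx).1 hg

theorem Reg.swap {R : Type*} [CommRing R] {I : Ideal R} {v f : R} (hv : Reg I v)
    (hf : Reg (I ⊔ Ideal.span {v}) f) : Reg (I ⊔ Ideal.span {f}) v := by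
  intro g hg
  obtain ⟨c, hc, w, hw, hcw⟩ := Submodule.mem_sup.1 hg
  obtain ⟨h, rfl⟩ := Ideal.mem_span_singleton'.1 hw
  have h1 : f * h ∈ I ⊔ Ideal.span {v} := by
    have : f * h = -c + g * v := by linear_combination hcw
    rw [this]
    exact Submodule.add_mem_sup (I.neg_mem hc) (Ideal.mem_span_singleton'.2 ⟨g, rfl⟩)
  obtain ⟨c', hc', w', hw', hcw'⟩ := Submodule.mem_sup.1 (hf h h1)
  obtain ⟨h', rfl⟩ := Ideal.mem_span_singleton'.1 hw'
  have h2 : v * (g - h' * f) ∈ I := by
    have : v * (g - h' * f) = c + c' * f := by linear_combination -hcw - f * hcw'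
    rw [this]
    exact I.add_mem hc (I.mul_mem_right _ hc')
  have h3 := hv _ h2
  have : g = (g - h' * f) + h' * f := by ring
  rw [this]
  exact Submodule.add_mem_sup h3 (Ideal.mem_span_singleton'.2 ⟨h', rfl⟩)

variable {n : ℕ} {A : Type*} [CommRing A]

/-- The mixed ideal generated by the `φ j`, `j ∈ T`, and the `z_j ^ m j`, `j ∈ U`. -/
noncomputable def mix (φ : Fin n → MvPolynomial (Fin n) A) (T U : Set (Fin n)) (m : Fin n → ℕ) :
    Ideal (MvPolynomial (Fin n) A) :=
  Ideal.span (φ '' T ∪ (fun j => (X j : MvPolynomial (Fin n) A) ^ m j) '' U)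

theorem mix_insert_left (φ : Fin n → MvPolynomial (Fin n) A) (T U : Set (Fin n)) (m : Fin n → ℕ)
    (r : Fin n) : mix φ (insert r T) U m = mix φ T U m ⊔ Ideal.span {φ r} := by
  unfold mix
  rw [← Ideal.span_union, Set.image_insert_eq]
  congr 1
  ext x
  simp only [Set.mem_union, Set.mem_insert_iff, Set.mem_singleton_iff]
  tauto

theorem mix_insert_right (φ : Fin n → MvPolynomial (Fin n) A) (T U : Set (Fin n)) (m : Fin n → ℕ)
    (r : Fin n) : mix φ T (insert r U) m = mix φ T U m ⊔ Ideal.span {X r ^ m r} := by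
  unfold mix
  rw [← Ideal.span_union, Set.image_insert_eq]
  congr 1
  ext x
  simp only [Set.mem_union, Set.mem_insert_iff, Set.mem_singleton_iff]
  tauto

theorem mix_congr (φ : Fin n → MvPolynomial (Fin n) A) (T U : Set (Fin n)) (m m' : Fin n → ℕ)
    (h : ∀ j ∈ U, m j = m' j) : mix φ T U m = mix φ T U m' := by
  unfold mix
  congr 2
  exact Set.image_congr fun j hj => by rw [h j hj]

theorem phi_mem_mix (φ : Fin n → MvPolynomial (Fin n) A) {T : Set (Fin n)} (U : Set (Fin n))
    (m : Fin n → ℕ) {j : Fin n} (hj : j ∈ T) : φ j ∈ mix φ T U m :=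
  Ideal.subset_span (Or.inl ⟨j, hj, rfl⟩)

theorem pow_mem_mix (φ : Fin n → MvPolynomial (Fin n) A) (T : Set (Fin n)) {U : Set (Fin n)}
    (m : Fin n → ℕ) {j : Fin n} (hj : j ∈ U) : X j ^ m j ∈ mix φ T U m :=
  Ideal.subset_span (Or.inr ⟨j, hj, rfl⟩)

attribute [local instance] MvPolynomial.gradedAlgebra

theorem mix_homog (φ : Fin n → MvPolynomial (Fin n) A) {e : ℕ} (hφ : ∀ j, (φ j).IsHomogeneous e)
    (T U : Set (Fin n)) (m : Fin n → ℕ) {g : MvPolynomial (Fin n) A} (hg : g ∈ mix φ T U m)
    (k : ℕ) : homogeneousComponent k g ∈ mix φ T U m := by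
  refine homogeneousComponent_mem_of_mem ?_ hg k
  apply Ideal.homogeneous_span
  rintro x (⟨j, -, rfl⟩ | ⟨j, -, rfl⟩)
  · exact ⟨e, hφ j⟩
  · exact ⟨m j, isHomogeneous_X_pow j (m j)⟩

theorem homogeneousComponent_mul_left {σ : Type*} {f : MvPolynomial σ A} {e : ℕ}
    (hf : f.IsHomogeneous e) (h : MvPolynomial σ A) (m : ℕ) :
    homogeneousComponent (e + m) (f * h) = f * homogeneousComponent m h := by
  have := DirectSum.coe_decompose_mul_add_of_left_mem (homogeneousSubmodule σ A)
    (i := e) (j := m) (a := f) (b := h) hf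
  rw [← decomposition.decompose'_apply, ← decomposition.decompose'_apply]
  exact this

/-- membership in a pure power ideal -/
theorem mem_mix_empty (φ : Fin n → MvPolynomial (Fin n) A) (U : Set (Fin n)) (m : Fin n → ℕ)
    (g : MvPolynomial (Fin n) A) :
    g ∈ mix φ ∅ U m ↔ ∀ α ∈ g.support, ∃ j ∈ U, m j ≤ α j := by
  have : mix φ ∅ U m = Ideal.span ((fun s => monomial s (1 : A)) ''
      ((fun j => Finsupp.single j (m j)) '' U)) := by
    unfold mix
    rw [Set.image_empty, Set.empty_union, Set.image_image]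
    congr 2
    funext j
    rw [X_pow_eq_monomial]
  rw [this, mem_ideal_span_monomial_image]
  refine forall₂_congr fun α _ => ?_
  constructor
  · rintro ⟨_, ⟨j, hj, rfl⟩, h⟩
    exact ⟨j, hj, Finsupp.single_le_iff.1 h⟩
  · rintro ⟨j, hj, h⟩
    exact ⟨_, ⟨j, hj, rfl⟩, Finsupp.single_le_iff.2 h⟩

theorem reg_X_empty (φ : Fin n → MvPolynomial (Fin n) A) (U : Set (Fin n)) (m : Fin n → ℕ)
    {k : Fin n} (hk : k ∉ U) : Reg (mix φ ∅ U m) (X k) := by
  intro g hg
  rw [mem_mix_empty] at hg ⊢
  intro α hα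
  have h1 : Finsupp.single k 1 + α ∈ (X k * g).support := by
    rw [mem_support_iff, coeff_X_mul]
    exact mem_support_iff.1 hα
  obtain ⟨j, hj, h⟩ := hg _ h1
  refine ⟨j, hj, ?_⟩
  have hjk : j ≠ k := fun e => hk (e ▸ hj)
  simpa [Finsupp.single_apply, hjk, hjk.symm] using h

section chain

variable (M : Matrix (Fin n) (Fin n) (MvPolynomial (Fin n) A))

/-- The forms `φ_j = ∑_k M_{jk} z_k`. -/
noncomputable def phiOf (j : Fin n) : MvPolynomial (Fin n) A := ∑ k, M j k * X k

/-- rows `j < r` from `M`, the others from the identity matrix -/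
noncomputable def trunc (r : ℕ) : Matrix (Fin n) (Fin n) (MvPolynomial (Fin n) A) :=
  Matrix.of fun j k => if j.val < r then M j k else if j = k then 1 else 0

/-- the socle generators along the chain -/
noncomputable def gen (N r : ℕ) : MvPolynomial (Fin n) A :=
  (trunc M r).det * ∏ j ∈ Finset.univ.filter (fun j : Fin n => r ≤ j.val), X j ^ N

/-- the ideals along the chain -/
noncomputable def lev (N r : ℕ) : Ideal (MvPolynomial (Fin n) A) :=
  mix (phiOf M) {j | j.val < r} {j | r ≤ j.val} (fun _ => N + 1)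

/-- the common part of two consecutive ideals -/
noncomputable def com (N r : ℕ) : Ideal (MvPolynomial (Fin n) A) :=
  mix (phiOf M) {j | j.val < r} {j | r + 1 ≤ j.val} (fun _ => N + 1)

theorem lev_eq (N : ℕ) (r : Fin n) :
    lev M N r = com M N r ⊔ Ideal.span {X r ^ (N + 1)} := by
  unfold lev com
  rw [← mix_insert_right (phiOf M) _ _ (fun _ => N + 1) r]
  congr 1
  ext j
  simp only [Set.mem_ofPred_eq, Set.mem_insert_iff, Fin.ext_iff]
  omega

theorem lev_succ_eq (N : ℕ) (r : Fin n) :
    lev M N (r + 1) = com M N r ⊔ Ideal.span {phiOf M r} := by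
  unfold lev com
  rw [← mix_insert_left (phiOf M) _ _ (fun _ => N + 1) r]
  congr 1
  ext j
  simp only [Set.mem_ofPred_eq, Set.mem_insert_iff, Fin.ext_iff]
  omega

theorem trunc_mulVec (r : ℕ) (j : Fin n) :
    (trunc M r).mulVec X j = if j.val < r then phiOf M j else X j := by
  unfold trunc phiOf
  simp only [Matrix.mulVec, dotProduct, Matrix.of_apply]
  split_ifs with h
  · rfl
  · simp

theorem cramer_step (r : Fin n) :
    X r * (trunc M (r + 1)).det = (trunc M r).det * phiOf M r +
      ∑ j ∈ Finset.univ.erase r, (trunc M (r + 1)).adjugate r j *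
        (if j.val < r.val + 1 then phiOf M j else X j) := by
  have h1 : ((trunc M (r + 1)).adjugate.mulVec ((trunc M (r + 1)).mulVec X)) r =
      X r * (trunc M (r + 1)).det := by
    rw [Matrix.mulVec_mulVec, Matrix.adjugate_mul]
    simp [Matrix.smul_mulVec, mul_comm]
  rw [← h1]
  simp only [Matrix.mulVec.eq_1 (trunc M (r + 1)).adjugate, dotProduct, trunc_mulVec]
  rw [← Finset.add_sum_erase _ _ (Finset.mem_univ r)]
  congr 1
  rw [if_pos (Nat.lt_succ_self _), Matrix.adjugate_apply]
  congr 2
  ext j k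
  by_cases hj : j = r
  · subst hj
    simp [trunc, Pi.single_apply, eq_comm]
  · rw [Matrix.updateRow_ne hj]
    have : (j.val < r.val + 1) ↔ (j.val < r.val) := by
      have : j.val ≠ r.val := fun e => hj (Fin.ext e)
      omega
    simp only [trunc, Matrix.of_apply, this]

theorem gen_step (N : ℕ) (r : Fin n) :
    X r ^ (N + 1) * gen M N (r + 1) - phiOf M r * gen M N r ∈ com M N r := by
  have hsplit : (∏ j ∈ Finset.univ.filter (fun j : Fin n => r.val ≤ j.val),
      (X j : MvPolynomial (Fin n) A) ^ N) =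
      X r ^ N * ∏ j ∈ Finset.univ.filter (fun j : Fin n => r.val + 1 ≤ j.val), X j ^ N := by
    have : Finset.univ.filter (fun j : Fin n => r.val ≤ j.val) =
        insert r (Finset.univ.filter (fun j : Fin n => r.val + 1 ≤ j.val)) := by
      ext j
      simp only [Finset.mem_filter, Finset.mem_univ, true_and, Finset.mem_insert, Fin.ext_iff]
      omega
    rw [this, Finset.prod_insert (by simp)]
  unfold gen
  rw [hsplit]
  set P := ∏ j ∈ Finset.univ.filter (fun j : Fin n => r.val + 1 ≤ j.val),
    (X j : MvPolynomial (Fin n) A) ^ N with hP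
  have h1 := cramer_step M r
  set s := ∑ j ∈ Finset.univ.erase r, (trunc M (r + 1)).adjugate r j *
        (if j.val < r.val + 1 then phiOf M j else X j) with hs
  have h2 : X r ^ (N + 1) * ((trunc M (r + 1)).det * P) -
      phiOf M r * ((trunc M r).det * (X r ^ N * P)) = X r ^ N * (s * P) := by
    linear_combination (X r ^ N * P) * h1
  rw [h2]
  refine Ideal.mul_mem_left _ _ ?_
  rw [hs, Finset.sum_mul]
  refine Ideal.sum_mem _ fun j hj => ?_
  have hjr : j.val ≠ r.val := fun e => (Finset.mem_erase.1 hj).1 (Fin.ext e)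
  rw [mul_assoc]
  refine Ideal.mul_mem_left _ _ ?_
  split_ifs with h
  · exact Ideal.mul_mem_right _ _ (phi_mem_mix _ _ _ (by simp only [Set.mem_ofPred_eq]; omega))
  · have hj' : j ∈ Finset.univ.filter (fun j : Fin n => r.val + 1 ≤ j.val) := by
      simp only [Finset.mem_filter, Finset.mem_univ, true_and]; omega
    rw [hP, ← Finset.mul_prod_erase _ _ hj', ← mul_assoc, ← pow_succ']
    exact Ideal.mul_mem_right _ _ (pow_mem_mix (phiOf M) _ (fun _ => N + 1)
      (by simp only [Set.mem_ofPred_eq]; omega))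

theorem gen_zero (N : ℕ) : gen M N 0 = monomial (Finsupp.equivFunOnFinite.symm fun _ => N) 1 := by
  unfold gen
  have : trunc M 0 = 1 := by
    ext j k
    simp [trunc, Matrix.one_apply]
  rw [this, Matrix.det_one, one_mul]
  simp only [zero_le, Finset.filter_true]
  rw [monomial_eq, C_1, one_mul, Finsupp.prod_fintype _ _ (by simp)]
  simp

theorem gen_top (N : ℕ) : gen M N n = M.det := by
  unfold gen
  have : trunc M n = M := by
    ext j k
    simp [trunc]
  rw [this]
  have h2 : Finset.univ.filter (fun j : Fin n => n ≤ j.val) = ∅ := by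
    ext j
    simp
  rw [h2, Finset.prod_empty, mul_one]

theorem lev_top (N : ℕ) : lev M N n = Ideal.span (Set.range (phiOf M)) := by
  unfold lev mix
  congr 1
  ext x
  simp

theorem lev_zero (N : ℕ) : lev M N 0 = mix (phiOf M) ∅ Set.univ (fun _ => N + 1) := by
  unfold lev
  congr 1
  · ext j; simp
  · ext j; simp

/-- the regularity hypothesis -/
def AllReg : Prop :=
  ∀ (T U : Set (Fin n)) (m : Fin n → ℕ) (k : Fin n), Disjoint T U → k ∉ T → k ∉ U →
    Reg (mix (phiOf M) T U m) (X k) ∧ Reg (mix (phiOf M) T U m) (phiOf M k)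

variable {M}

theorem AllReg.com (h : AllReg M) (N : ℕ) (r : Fin n) :
    Reg (com M N r) (X r ^ (N + 1)) ∧ Reg (com M N r) (phiOf M r) := by
  have := h {j | j.val < r} {j | r.val + 1 ≤ j.val} (fun _ => N + 1) r
    (by
      rw [Set.disjoint_left]
      intro j h1 h2
      simp only [Set.mem_ofPred_eq] at h1 h2
      omega) (by simp) (by simp)
  exact ⟨this.1.pow _, this.2⟩

/-- uniqueness: `a · det M ∈ (φ)` forces `a = 0` -/
theorem AllReg.unique (h : AllReg M) (a : A)
    (ha : C a * M.det ∈ Ideal.span (Set.range (phiOf M))) : a = 0 := by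
  have key : ∀ r : ℕ, r ≤ n → C a * gen M 0 r ∈ lev M 0 r → a = 0 := by
    intro r
    induction r with
    | zero =>
      intro _ h0
      rw [lev_zero, mem_mix_empty, gen_zero, C_mul_monomial, mul_one] at h0
      by_contra hne
      obtain ⟨j, -, hj⟩ := h0 (Finsupp.equivFunOnFinite.symm fun _ => 0)
        (by rw [mem_support_iff, coeff_monomial, if_pos rfl]; exact hne)
      simp at hj
    | succ r ih =>
      intro hr h1
      apply ih (by omega)
      let r' : Fin n := ⟨r, by omega⟩
      have hl : lev M 0 (r + 1) = Assoc.com M 0 r' ⊔ Ideal.span {phiOf M r'} := lev_succ_eq M 0 r'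
      have hl' : lev M 0 r = Assoc.com M 0 r' ⊔ Ideal.span {X r' ^ (0 + 1)} := lev_eq M 0 r'
      rw [hl] at h1
      rw [hl']
      obtain ⟨c, hc, w, hw, hcw⟩ := Submodule.mem_sup.1 h1
      obtain ⟨u, rfl⟩ := Ideal.mem_span_singleton'.1 hw
      have hs : X r' ^ (0 + 1) * gen M 0 (r + 1) - phiOf M r' * gen M 0 r ∈ Assoc.com M 0 r' :=
        gen_step M 0 r'
      have h2 : phiOf M r' * (C a * gen M 0 r - u * X r' ^ (0 + 1)) ∈ Assoc.com M 0 r' := by
        have : phiOf M r' * (C a * gen M 0 r - u * X r' ^ (0 + 1)) =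
            X r' ^ (0 + 1) * c -
              C a * (X r' ^ (0 + 1) * gen M 0 (r + 1) - phiOf M r' * gen M 0 r) := by
          linear_combination (-X r' ^ (0 + 1)) * hcw
        rw [this]
        exact Ideal.sub_mem _ (Ideal.mul_mem_left _ _ hc) (Ideal.mul_mem_left _ _ hs)
      have h3 := (h.com 0 r').2 _ h2
      have : C a * gen M 0 r = (C a * gen M 0 r - u * X r' ^ (0 + 1)) + u * X r' ^ (0 + 1) := by
        ring
      rw [this]
      exact Submodule.add_mem_sup h3 (Ideal.mem_span_singleton'.2 ⟨u, rfl⟩)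
  apply key n le_rfl
  rwa [gen_top, lev_top]

/-- existence: an inertia form of the critical degree is a multiple of `det M` modulo `(φ)` -/
theorem AllReg.exists_coeff (h : AllReg M) {e : ℕ} (hφ : ∀ j, (phiOf M j).IsHomogeneous (e + 1))
    (N : ℕ) (hN : e ≤ N) (g : MvPolynomial (Fin n) A) (hg : g.IsHomogeneous (n * e))
    (hin : ∀ j, X j ^ (N + 1) * g ∈ Ideal.span (Set.range (phiOf M))) :
    ∃ a : A, g - C a * M.det ∈ Ideal.span (Set.range (phiOf M)) := by
  have key : ∀ r : ℕ, r ≤ n → ∀ (m : ℕ) (g : MvPolynomial (Fin n) A), g.IsHomogeneous m →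
      m + r * N = n * N + r * e → (∀ j, X j ^ (N + 1) * g ∈ lev M N r) →
      ∃ a : A, g - C a * gen M N r ∈ lev M N r := by
    intro r
    induction r with
    | zero =>
      intro _ m g hg hm _
      refine ⟨coeff (Finsupp.equivFunOnFinite.symm fun _ => N) g, ?_⟩
      rw [lev_zero, mem_mix_empty, gen_zero, C_mul_monomial, mul_one]
      intro α hα
      rw [mem_support_iff, coeff_sub, coeff_monomial] at hα
      by_contra hcon
      push Not at hcon
      have hle : ∀ j, α j ≤ N := fun j => Nat.lt_succ_iff.1 (hcon j (Set.mem_univ j))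
      split_ifs at hα with h1
      · subst h1; exact hα (sub_self _)
      · rw [sub_zero] at hα
        have hdeg : α.degree = m := by
          by_contra hne
          exact hα (hg.coeff_eq_zero hne)
        apply h1
        rw [Finsupp.degree_eq_sum] at hdeg
        have hsum : ∑ j, α j = ∑ _j : Fin n, N := by
          simp only [Finset.sum_const, Finset.card_univ, Fintype.card_fin, smul_eq_mul]
          omega
        have := (Finset.sum_eq_sum_iff_of_le (fun j _ => hle j)).1 hsum
        ext j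
        simp [this j (Finset.mem_univ j)]
    | succ r ih =>
      intro hr m g hg hm hin
      let r' : Fin n := ⟨r, by omega⟩
      have hl : lev M N (r + 1) = Assoc.com M N r' ⊔ Ideal.span {phiOf M r'} := lev_succ_eq M N r'
      have hl' : lev M N r = Assoc.com M N r' ⊔ Ideal.span {X r' ^ (N + 1)} := lev_eq M N r'
      have hreg := h.com N r'
      have hs : X r' ^ (N + 1) * gen M N (r + 1) - phiOf M r' * gen M N r ∈ Assoc.com M N r' :=
        gen_step M N r'
      have h1 := hin r'
      rw [hl] at h1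
      obtain ⟨c, hc, w, hw, hcw⟩ := Submodule.mem_sup.1 h1
      obtain ⟨u, rfl⟩ := Ideal.mem_span_singleton'.1 hw
      obtain ⟨m', hm'⟩ : ∃ m', N + 1 + m = e + 1 + m' := ⟨N - e + m, by omega⟩
      set g' := homogeneousComponent m' u with hg'
      have hrel : X r' ^ (N + 1) * g - phiOf M r' * g' ∈ Assoc.com M N r' := by
        have h2 : homogeneousComponent (e + 1 + m') (X r' ^ (N + 1) * g) = X r' ^ (N + 1) * g := by
          apply homogeneousComponent_eq_self
          rw [← hm']
          exact (isHomogeneous_X_pow r' (N + 1)).mul hg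
        rw [← h2, ← hcw, map_add, mul_comm u, homogeneousComponent_mul_left (hφ r'),
          add_sub_cancel_right]
        exact mix_homog _ hφ _ _ _ hc _
      have hin' : ∀ j, X j ^ (N + 1) * g' ∈ lev M N r := by
        intro j
        have h3 := hin j
        rw [hl] at h3
        obtain ⟨c₁, hc₁, w₁, hw₁, hcw₁⟩ := Submodule.mem_sup.1 h3
        obtain ⟨u₁, rfl⟩ := Ideal.mem_span_singleton'.1 hw₁
        have h4 : phiOf M r' * (X j ^ (N + 1) * g' - u₁ * X r' ^ (N + 1)) ∈ Assoc.com M N r' := by
          have : phiOf M r' * (X j ^ (N + 1) * g' - u₁ * X r' ^ (N + 1)) =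
              X r' ^ (N + 1) * c₁ - X j ^ (N + 1) * (X r' ^ (N + 1) * g - phiOf M r' * g') := by
            linear_combination (-X r' ^ (N + 1)) * hcw₁
          rw [this]
          exact Ideal.sub_mem _ (Ideal.mul_mem_left _ _ hc₁) (Ideal.mul_mem_left _ _ hrel)
        have h5 := hreg.2 _ h4
        rw [hl']
        have : X j ^ (N + 1) * g' =
            (X j ^ (N + 1) * g' - u₁ * X r' ^ (N + 1)) + u₁ * X r' ^ (N + 1) := by ring
        rw [this]
        exact Submodule.add_mem_sup h5 (Ideal.mem_span_singleton'.2 ⟨u₁, rfl⟩)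
      obtain ⟨a, ha⟩ := ih (by omega) m' g' (homogeneousComponent_isHomogeneous _ _)
        (by rw [Nat.succ_mul, Nat.succ_mul] at hm; omega) hin'
      refine ⟨a, ?_⟩
      rw [hl'] at ha
      obtain ⟨c₂, hc₂, w₂, hw₂, hcw₂⟩ := Submodule.mem_sup.1 ha
      obtain ⟨u₂, rfl⟩ := Ideal.mem_span_singleton'.1 hw₂
      have h6 : X r' ^ (N + 1) * (g - C a * gen M N (r + 1) - u₂ * phiOf M r') ∈
          Assoc.com M N r' := by
        have : X r' ^ (N + 1) * (g - C a * gen M N (r + 1) - u₂ * phiOf M r') =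
            (X r' ^ (N + 1) * g - phiOf M r' * g') -
              C a * (X r' ^ (N + 1) * gen M N (r + 1) - phiOf M r' * gen M N r) +
              phiOf M r' * c₂ := by
          linear_combination (-phiOf M r') * hcw₂
        rw [this]
        exact Ideal.add_mem _ (Ideal.sub_mem _ hrel (Ideal.mul_mem_left _ _ hs))
          (Ideal.mul_mem_left _ _ hc₂)
      have h7 := hreg.1 _ h6
      rw [hl]
      have : g - C a * gen M N (r + 1) =
          (g - C a * gen M N (r + 1) - u₂ * phiOf M r') + u₂ * phiOf M r' := by ring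
      rw [this]
      exact Submodule.add_mem_sup h7 (Ideal.mem_span_singleton'.2 ⟨u₂, rfl⟩)
  have := key n le_rfl (n * e) g hg (by ring) (by rw [lev_top]; exact hin)
  rwa [gen_top, lev_top] at this

end chain

end Pool.Agent.H466Z.Assoc
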