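import Mathlib
import Pool.Agent.H466Z.AssocChain

/-!
The generic form of degree `d` in `n` variables: its partial derivatives, mixed with powers of the
variables, form regular sequences.
-/

set_option autoImplicit false

namespace Pool.Agent.H466Z.Assoc

open MvPolynomial

/-- exponent vectors of degree `d` -/
abbrev Mon (n d : ℕ) : Type := {α : Fin n →₀ ℕ // α.degree = d}

noncomputable instance fintypeMon (n d : ℕ) : Fintype (Mon n d) :=
  (Finsupp.finite_of_degree_eq (σ := Fin n) d).fintype

/-- the coordinate ring of the space of forms -/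
abbrev Co (n d : ℕ) : Type := MvPolynomial (Mon n d) ℂ

/-- the generic form -/
noncomputable def gF (n d : ℕ) : MvPolynomial (Fin n) (Co n d) :=
  ∑ α : Mon n d, monomial α.1 (X α)

/-- the (transposed) Hessian matrix -/
noncomputable def hessM {n : ℕ} {B : Type*} [CommRing B] (f : MvPolynomial (Fin n) B) :
    Matrix (Fin n) (Fin n) (MvPolynomial (Fin n) B) :=
  Matrix.of fun j k => pderiv k (pderiv j f)

variable {n d : ℕ}

theorem homog_eq_sum {B : Type*} [CommRing B] {f : MvPolynomial (Fin n) B}
    (hf : f.IsHomogeneous d) : f = ∑ α : Mon n d, monomial α.1 (coeff α.1 f) := by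
  classical
  ext β
  rw [coeff_sum]
  simp only [coeff_monomial]
  by_cases hβ : β.degree = d
  · rw [Finset.sum_eq_single (⟨β, hβ⟩ : Mon n d)]
    · simp
    · intro α _ hα
      rw [if_neg]
      intro h
      exact hα (Subtype.ext h)
    · simp
  · rw [hf.coeff_eq_zero hβ, Finset.sum_eq_zero]
    intro α _
    rw [if_neg]
    intro h
    exact hβ (h ▸ α.2)

theorem gF_homog : (gF n d).IsHomogeneous d :=
  IsHomogeneous.sum _ _ _ fun α _ => isHomogeneous_monomial _ α.2

theorem map_gF {B : Type*} [CommRing B] (ρ : Co n d →+* B) {f : MvPolynomial (Fin n) B}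
    (hf : f.IsHomogeneous d) (h : ∀ α : Mon n d, ρ (X α) = coeff α.1 f) : map ρ (gF n d) = f := by
  rw [homog_eq_sum hf, gF, map_sum]
  refine Finset.sum_congr rfl fun α _ => ?_
  rw [map_monomial, h]

theorem coeff_gF (α : Mon n d) : coeff α.1 (gF n d) = X α := by
  classical
  rw [gF, coeff_sum]
  simp only [coeff_monomial]
  rw [Finset.sum_eq_single α]
  · simp
  · intro β _ hβ
    rw [if_neg]
    intro h
    exact hβ (Subtype.ext h)
  · simp

theorem phiOf_hessM {B : Type*} [CommRing B] {f : MvPolynomial (Fin n) B}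
    (hf : f.IsHomogeneous d) (j : Fin n) :
    phiOf (hessM f) j = ((d - 1 : ℕ) : MvPolynomial (Fin n) B) * pderiv j f := by
  have := (hf.pderiv (i := j)).sum_X_mul_pderiv
  rw [← nsmul_eq_mul, ← this, phiOf]
  refine Finset.sum_congr rfl fun k _ => ?_
  rw [mul_comm]; rfl

/-- the exponent vector of `z_r ^ d` -/
noncomputable def pureMon (d : ℕ) (r : Fin n) : Mon n d :=
  ⟨Finsupp.single r d, Finsupp.degree_single r d⟩

open Classical in
/-- replace the coefficient of `z_r ^ d` by a new variable -/
noncomputable def rho (d : ℕ) (r : Fin n) :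
    Co n d →+* Polynomial (MvPolynomial (Fin n) (Co n d)) :=
  eval₂Hom (Polynomial.C.comp (C.comp C))
    (fun α => if α = pureMon d r then Polynomial.X else Polynomial.C (C (X α)))

/-- the induced map on polynomials in `z` -/
noncomputable def theta (d : ℕ) (r : Fin n) :
    MvPolynomial (Fin n) (Co n d) →+* Polynomial (MvPolynomial (Fin n) (Co n d)) :=
  eval₂Hom (rho d r) (fun j => Polynomial.C (X j))

theorem theta_X (r j : Fin n) : theta d r (X j) = Polynomial.C (X j) := by
  simp [theta]

theorem theta_monomial (r : Fin n) (β : Fin n →₀ ℕ) (c : Co n d) :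
    theta d r (monomial β c) = rho d r c * Polynomial.C (monomial β 1) := by
  rw [theta, eval₂Hom_monomial, monomial_eq, C_1, one_mul]
  congr 1
  rw [Finsupp.prod, Finsupp.prod, map_prod]
  simp only [map_pow]

theorem eval_theta (r : Fin n) (g : MvPolynomial (Fin n) (Co n d)) :
    Polynomial.eval (C (X (pureMon d r))) (theta d r g) = g := by
  have : (Polynomial.evalRingHom (C (X (pureMon d r)))).comp (theta d r) = RingHom.id _ := by
    apply MvPolynomial.ringHom_ext'
    · apply MvPolynomial.ringHom_ext
      · intro c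
        simp [theta, rho]
      · intro α
        by_cases h : α = pureMon d r
        · subst h; simp [theta, rho]
        · simp [theta, rho, h]
    · intro j
      simp [theta]
  exact congrArg (fun φ => φ g) this

theorem theta_pderiv (r j : Fin n) :
    theta d r (pderiv j (gF n d)) = Polynomial.C (pderiv j (gF n d)) +
      (Polynomial.X - Polynomial.C (C (X (pureMon d r)))) *
        Polynomial.C (monomial (Finsupp.single r d - Finsupp.single j 1)
          (((Finsupp.single r d : Fin n →₀ ℕ) j : ℕ) : Co n d)) := by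
  classical
  have h1 : ∀ α : Mon n d, theta d r (pderiv j (monomial α.1 (X α))) =
      Polynomial.C (pderiv j (monomial α.1 (X α))) +
        if α = pureMon d r then (Polynomial.X - Polynomial.C (C (X (pureMon d r)))) *
          Polynomial.C (monomial (Finsupp.single r d - Finsupp.single j 1)
            (((Finsupp.single r d : Fin n →₀ ℕ) j : ℕ) : Co n d)) else 0 := by
    intro α
    have h2 : ∀ (β : Fin n →₀ ℕ) (c : Co n d) (k : ℕ), (monomial β (c * k) :
        MvPolynomial (Fin n) (Co n d)) = C c * (k : MvPolynomial (Fin n) (Co n d)) * monomial β 1 := by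
      intro β c k
      rw [← map_natCast (C : Co n d →+* MvPolynomial (Fin n) (Co n d)), ← map_mul, C_mul_monomial,
        mul_one]
    rw [pderiv_monomial, theta_monomial, h2, map_mul, map_natCast]
    split_ifs with h
    · subst h
      have h3 := h2 (Finsupp.single r d - Finsupp.single j 1) 1
        ((Finsupp.single r d : Fin n →₀ ℕ) j)
      rw [one_mul] at h3
      rw [h3]
      simp only [rho, coe_eval₂Hom, eval₂_X, if_true, pureMon, map_mul, map_natCast, map_one]
      ring
    · simp only [rho, coe_eval₂Hom, eval₂_X, if_neg h, map_mul, map_natCast, add_zero]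
  rw [gF, map_sum, map_sum, map_sum]
  simp only [h1, Finset.sum_add_distrib, Finset.sum_ite_eq', Finset.mem_univ, if_true]

theorem isUnit_natCast_S {k : ℕ} (hk : k ≠ 0) :
    IsUnit (k : MvPolynomial (Fin n) (Co n d)) := by
  have : IsUnit (k : ℂ) := by
    rw [isUnit_iff_ne_zero]; exact_mod_cast hk
  have h2 := this.map ((C : Co n d →+* MvPolynomial (Fin n) (Co n d)).comp (C : ℂ →+* Co n d))
  rwa [map_natCast] at h2

theorem reg_of_theta {R : Type*} [CommRing R] (s : Set R) (θ : R →+* Polynomial R) (a : R)
    (hev : ∀ g, Polynomial.eval a (θ g) = g) (hs : ∀ x ∈ s, θ x = Polynomial.C x) (f u b : R)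
    (hf : θ f = Polynomial.C u * Polynomial.X + Polynomial.C b) (hu : Reg (Ideal.span s) u) :
    Reg (Ideal.span s) f := by
  intro g hg
  let Θ := (Polynomial.mapRingHom (Ideal.Quotient.mk (Ideal.span s))).comp θ
  have hΘ : ∀ x, Θ x = Polynomial.map (Ideal.Quotient.mk (Ideal.span s)) (θ x) := fun x => rfl
  have hker : Ideal.span s ≤ RingHom.ker Θ := by
    apply Ideal.span_le.2
    intro x hx
    rw [SetLike.mem_coe, RingHom.mem_ker, hΘ, hs x hx, Polynomial.map_C,
      Ideal.Quotient.eq_zero_iff_mem.2 (Ideal.subset_span hx), map_zero]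
  have h1 : Θ f * Θ g = 0 := by
    rw [← map_mul]; exact hker hg
  have hu' : Ideal.Quotient.mk (Ideal.span s) u ∈ nonZeroDivisors (R ⧸ Ideal.span s) := by
    rw [mem_nonZeroDivisors_iff_left]
    intro x hx
    obtain ⟨y, rfl⟩ := Ideal.Quotient.mk_surjective x
    rw [← map_mul, Ideal.Quotient.eq_zero_iff_mem] at hx
    exact Ideal.Quotient.eq_zero_iff_mem.2 (hu y hx)
  have h2 : Θ f = Polynomial.C (Ideal.Quotient.mk (Ideal.span s) u) * Polynomial.X +
      Polynomial.C (Ideal.Quotient.mk (Ideal.span s) b) := by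
    rw [hΘ, hf]
    simp
  have h3 : Θ g = 0 := by
    rcases subsingleton_or_nontrivial (R ⧸ Ideal.span s) with hs | hs
    · exact Subsingleton.elim _ _
    · have h4 : Θ f ∈ nonZeroDivisors (Polynomial (R ⧸ Ideal.span s)) := by
        apply Polynomial.mem_nonZeroDivisors_of_leadingCoeff
        rw [h2, Polynomial.leadingCoeff_linear (nonZeroDivisors.ne_zero hu')]
        exact hu'
      exact (mem_nonZeroDivisors_iff_left.1 h4) _ h1
  rw [← Ideal.Quotient.eq_zero_iff_mem, ← hev g, ← Polynomial.eval₂_at_apply,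
    ← Polynomial.eval_map, ← hΘ, h3, Polynomial.eval_zero]

theorem reg_phi_of_reg_X (hd : 2 ≤ d) (T U : Set (Fin n)) (m : Fin n → ℕ) (r : Fin n) (hr : r ∉ T)
    (h : Reg (mix (phiOf (hessM (gF n d))) T U m) (X r)) :
    Reg (mix (phiOf (hessM (gF n d))) T U m) (phiOf (hessM (gF n d)) r) := by
  have h0 := phiOf_hessM (gF_homog (n := n) (d := d)) r
  have hu : Reg (mix (phiOf (hessM (gF n d))) T U m)
      ((d : MvPolynomial (Fin n) (Co n d)) * X r ^ (d - 1)) :=
    (Reg.of_isUnit (isUnit_natCast_S (by omega))).mul (h.pow _)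
  have h1 : Reg (mix (phiOf (hessM (gF n d))) T U m) (pderiv r (gF n d)) := by
    refine reg_of_theta _ (theta d r) (C (X (pureMon d r))) (eval_theta r) ?_ _ _
      (pderiv r (gF n d) - C (X (pureMon d r)) *
        ((d : MvPolynomial (Fin n) (Co n d)) * X r ^ (d - 1))) ?_ hu
    · rintro x (⟨j, hj, rfl⟩ | ⟨j, hj, rfl⟩)
      · have hjr : r ≠ j := fun e => hr (e ▸ hj)
        rw [phiOf_hessM gF_homog, map_mul, map_mul, map_natCast, map_natCast, theta_pderiv]
        simp [hjr]
      · rw [map_pow, theta_X, map_pow]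
    · rw [theta_pderiv]
      have : (monomial (Finsupp.single r d - Finsupp.single r 1)
          (((Finsupp.single r d : Fin n →₀ ℕ) r : ℕ) : Co n d) :
          MvPolynomial (Fin n) (Co n d)) = (d : MvPolynomial (Fin n) (Co n d)) * X r ^ (d - 1) := by
        rw [Finsupp.single_eq_same, X_pow_eq_monomial,
          ← map_natCast (C : Co n d →+* MvPolynomial (Fin n) (Co n d)), C_mul_monomial, mul_one,
          Finsupp.single_tsub]
      rw [this]
      simp only [map_sub, map_mul]
      ring
  rw [h0]
  exact (Reg.of_isUnit (isUnit_natCast_S (by omega))).mul h1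

theorem allReg_gF (hd : 2 ≤ d) : AllReg (hessM (gF n d)) := by
  have key : ∀ T : Set (Fin n), T.Finite → ∀ (U : Set (Fin n)) (m : Fin n → ℕ) (k : Fin n),
      Disjoint T U → k ∉ T → k ∉ U → Reg (mix (phiOf (hessM (gF n d))) T U m) (X k) := by
    intro T hT
    induction T, hT using Set.Finite.induction_on with
    | empty => intro U m k _ _ hk; exact reg_X_empty _ U m hk
    | @insert r T hr _ ih =>
      intro U m k hdis hkT hkU
      classical
      rw [mix_insert_left]
      have hkr : k ≠ r := fun e => hkT (e ▸ Set.mem_insert r T)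
      have hkT' : k ∉ T := fun e => hkT (Set.mem_insert_of_mem r e)
      have hrU : r ∉ U := fun e => Set.disjoint_left.1 hdis (Set.mem_insert r T) e
      have hdis' : Disjoint T U := hdis.mono_left (Set.subset_insert r T)
      apply Reg.swap (ih U m k hdis' hkT' hkU)
      have h1 : mix (phiOf (hessM (gF n d))) T U m ⊔ Ideal.span {X k} =
          mix (phiOf (hessM (gF n d))) T (insert k U) (Function.update m k 1) := by
        rw [mix_insert_right, Function.update_self, pow_one]
        congr 1
        apply mix_congr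
        intro j hj
        have hjk : j ≠ k := fun e => hkU (e ▸ hj)
        rw [Function.update_of_ne hjk]
      rw [h1]
      apply reg_phi_of_reg_X hd _ _ _ _ hr
      apply ih
      · rw [Set.disjoint_insert_right]; exact ⟨hkT', hdis'⟩
      · exact hr
      · rintro (e | e)
        · exact hkr e.symm
        · exact hrU e
  intro T U m k hdis hkT hkU
  have h := key T (Set.toFinite T) U m k hdis hkT hkU
  exact ⟨h, reg_phi_of_reg_X hd T U m k hkT h⟩

/-- the Jacobian ideal -/
noncomputable def jacI {B : Type*} [CommRing B] (f : MvPolynomial (Fin n) B) :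
    Ideal (MvPolynomial (Fin n) B) := Ideal.span (Set.range fun j => pderiv j f)

theorem span_phi (hd : 2 ≤ d) :
    Ideal.span (Set.range (phiOf (hessM (gF n d)))) = jacI (gF n d) := by
  apply le_antisymm
  · rw [Ideal.span_le]
    rintro _ ⟨j, rfl⟩
    rw [phiOf_hessM gF_homog]
    exact Ideal.mul_mem_left _ _ (Ideal.subset_span ⟨j, rfl⟩)
  · rw [jacI, Ideal.span_le]
    rintro _ ⟨j, rfl⟩
    have h : phiOf (hessM (gF n d)) j ∈ Ideal.span (Set.range (phiOf (hessM (gF n d)))) :=
      Ideal.subset_span ⟨j, rfl⟩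
    have h2 := phiOf_hessM (gF_homog (n := n) (d := d)) j
    have h3 : ((d - 1 : ℕ) : MvPolynomial (Fin n) (Co n d)) * pderiv j (gF n d) ∈
        Ideal.span (Set.range (phiOf (hessM (gF n d)))) := h2 ▸ h
    exact (Ideal.unit_mul_mem_iff_mem _ (isUnit_natCast_S (by omega))).1 h3

theorem generic_unique (hd : 2 ≤ d) (a : Co n d)
    (ha : C a * (hessM (gF n d)).det ∈ jacI (gF n d)) : a = 0 :=
  (allReg_gF hd).unique a (by rwa [span_phi hd])

theorem generic_exists (hd : 2 ≤ d) (g : MvPolynomial (Fin n) (Co n d))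
    (hg : g.IsHomogeneous (n * (d - 2))) (hin : ∀ j, ∃ N : ℕ, X j ^ N * g ∈ jacI (gF n d)) :
    ∃ a : Co n d, g - C a * (hessM (gF n d)).det ∈ jacI (gF n d) := by
  choose N hN using hin
  have h := (allReg_gF (n := n) hd).exists_coeff (e := d - 2) (by
      intro j
      rw [phiOf_hessM gF_homog, ← map_natCast (C : Co n d →+* MvPolynomial (Fin n) (Co n d))]
      have : d - 2 + 1 = d - 1 := by omega
      rw [this]
      exact (gF_homog.pderiv).C_mul _)
    (d + ∑ j, N j) (by omega) g hg (by
      intro j
      rw [span_phi hd]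
      have h1 : N j ≤ ∑ j, N j := Finset.single_le_sum (f := N) (fun _ _ => Nat.zero_le _)
        (Finset.mem_univ j)
      obtain ⟨t, ht⟩ : ∃ t, d + ∑ j, N j + 1 = t + N j := ⟨d + ∑ j, N j + 1 - N j, by omega⟩
      rw [ht, pow_add, mul_assoc]
      exact Ideal.mul_mem_left _ _ (hN j))
  rwa [span_phi hd] at h

end Pool.Agent.H466Z.Assoc
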