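import Mathlib
import Pool.Agent.H466Z.AssocGeneric

/-!
Polynomials on the space of forms which vanish on all singular forms: they form a prime ideal, and
they are inertia forms for the partial derivatives of the generic form.
-/

set_option autoImplicit false

namespace Pool.Agent.H466Z.Assoc

open MvPolynomial

variable {n d : ℕ}

/-- evaluation of a polynomial function on the space of forms at a form -/
noncomputable def ev (d : ℕ) (f : MvPolynomial (Fin n) ℂ) : Co n d →+* ℂ :=
  eval (fun α : Mon n d => coeff α.1 f)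

/-- `D` vanishes at all singular forms -/
def Van (D : Co n d) : Prop :=
  ∀ f : MvPolynomial (Fin n) ℂ, f.IsHomogeneous d →
    ∀ p : Fin n → ℂ, p ≠ 0 → (∀ j, eval p (pderiv j f) = 0) → ev d f D = 0

/-- `D` vanishes at all forms singular at a point of the torus -/
def VanT (D : Co n d) : Prop :=
  ∀ f : MvPolynomial (Fin n) ℂ, f.IsHomogeneous d →
    ∀ p : Fin n → ℂ, (∀ k, p k ≠ 0) → (∀ j, eval p (pderiv j f) = 0) → ev d f D = 0

theorem map_ev_gF {f : MvPolynomial (Fin n) ℂ} (hf : f.IsHomogeneous d) :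
    map (ev d f) (gF n d) = f :=
  map_gF _ hf fun α => by simp [ev]

section abstract

variable {L : Type*} [CommRing L] (ι : MvPolynomial (Fin n) (Co n d) →+* L) (u : L) (j : Fin n)

/-- the correction term -/
noncomputable def corr : MvPolynomial (Fin n) L :=
  (C u * X j) ^ (d - 1) * ∑ k, C (ι (pderiv k (gF n d))) * X k -
    C (ι (C (C (((d : ℂ) - 1) / d))) * ∑ k, ι (pderiv k (gF n d)) * ι (X k)) * (C u * X j) ^ d

/-- the modified generic form, singular at the generic point -/
noncomputable def modF : MvPolynomial (Fin n) L := map (ι.comp C) (gF n d) - corr ι u j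

/-- the corresponding substitution -/
noncomputable def psi : Co n d →+* L :=
  eval₂Hom (ι.comp (C.comp C)) (fun α => coeff α.1 (modF ι u j))

theorem modF_homog (hd : 1 ≤ d) : (modF ι u j).IsHomogeneous d := by
  refine (gF_homog.map _).sub (IsHomogeneous.sub ?_ ?_)
  · have h1 : ((C u * X j : MvPolynomial (Fin n) L) ^ (d - 1)).IsHomogeneous (1 * (d - 1)) :=
      (isHomogeneous_C_mul_X u j).pow _
    have h2 : (∑ k, C (ι (pderiv k (gF n d))) * X k : MvPolynomial (Fin n) L).IsHomogeneous 1 :=
      IsHomogeneous.sum _ _ _ fun k _ => isHomogeneous_C_mul_X _ k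
    have h3 := h1.mul h2
    rwa [show 1 * (d - 1) + 1 = d by omega] at h3
  · have h1 : ((C u * X j : MvPolynomial (Fin n) L) ^ d).IsHomogeneous (1 * d) :=
      (isHomogeneous_C_mul_X u j).pow _
    rw [one_mul] at h1
    exact h1.C_mul _

theorem eval_map_generic (G : MvPolynomial (Fin n) (Co n d)) :
    eval (fun k => ι (X k)) (map (ι.comp C) G) = ι G := by
  have : (eval (fun k => ι (X k))).comp (map (ι.comp C)) = ι := by
    apply MvPolynomial.ringHom_ext
    · intro c; simp
    · intro k; simp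
  exact congrArg (fun φ => φ G) this

theorem modF_sing (hd : 2 ≤ d) (hu : u * ι (X j) = 1) (k : Fin n) :
    eval (fun k => ι (X k)) (pderiv k (modF ι u j)) = 0 := by
  classical
  obtain ⟨e, rfl⟩ : ∃ e, d = e + 2 := ⟨d - 2, by omega⟩
  have hc : ι (C (C ((((e + 2 : ℕ) : ℂ) - 1) / (e + 2 : ℕ)))) * ((e : L) + 2) = (e : L) + 1 := by
    have h1 : ((((e + 2 : ℕ) : ℂ) - 1) / (e + 2 : ℕ)) * ((e : ℂ) + 2) = (e : ℂ) + 1 := by
      have : ((e + 2 : ℕ) : ℂ) ≠ 0 := by exact_mod_cast (by omega : e + 2 ≠ 0)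
      field_simp
      push_cast
      ring
    have h2 := congrArg (ι.comp (C.comp C)) h1
    simpa only [map_mul, map_add, map_natCast, map_ofNat, map_one, RingHom.comp_apply] using h2
  rw [modF, map_sub, pderiv_map, map_sub, eval_map_generic, corr]
  set c := ι (C (C ((((e + 2 : ℕ) : ℂ) - 1) / (e + 2 : ℕ)))) with hc_def
  set φ : Fin n → L := fun k => ι (pderiv k (gF n (e + 2))) with hφ
  have h3 : pderiv k (∑ l, C (φ l) * X l : MvPolynomial (Fin n) L) = C (φ k) := by
    rw [map_sum, Finset.sum_eq_single k]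
    · simp
    · intro l _ hl
      simp [pderiv_X_of_ne hl]
    · simp
  have h4 : eval (fun k => ι (X k)) (∑ l, C (φ l) * X l : MvPolynomial (Fin n) L) =
      ∑ l, φ l * ι (X l) := by simp
  have h5 : eval (fun k => ι (X k)) (C u * X j : MvPolynomial (Fin n) L) = 1 := by
    simpa using hu
  change φ k - eval (fun k => ι (X k)) (pderiv k ((C u * X j) ^ (e + 2 - 1) *
    (∑ l, C (φ l) * X l : MvPolynomial (Fin n) L) -
    C (c * ∑ l, φ l * ι (X l)) * (C u * X j) ^ (e + 2))) = 0
  rw [show e + 2 - 1 = e + 1 from rfl]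
  rw [map_sub, pderiv_mul, pderiv_C_mul, h3, pderiv_pow, pderiv_pow]
  simp only [map_sub, map_add, map_mul, map_pow, h4, eval_C, map_natCast]
  have h6 : u * eval (fun k => ι (X k)) (X j : MvPolynomial (Fin n) L) = 1 := by
    simpa using hu
  rw [h6]
  push_cast
  simp only [one_pow, mul_one, one_mul]
  linear_combination
    (eval (fun k => ι (X k)) (pderiv k (C u * X j : MvPolynomial (Fin n) L)) *
      ∑ l, φ l * ι (X l)) * hc

theorem corr_coeff_mem (I : Ideal L) (hI : ∀ k, ι (pderiv k (gF n d)) ∈ I) (β : Fin n →₀ ℕ) :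
    coeff β (corr ι u j) ∈ I := by
  have : corr ι u j ∈ I.map (C : L →+* MvPolynomial (Fin n) L) := by
    refine Ideal.sub_mem _ (Ideal.mul_mem_left _ _ (Ideal.sum_mem _ fun k _ =>
      Ideal.mul_mem_right _ _ (Ideal.mem_map_of_mem _ (hI k))))
      (Ideal.mul_mem_right _ _ (Ideal.mem_map_of_mem _ (Ideal.mul_mem_left _ _
        (Ideal.sum_mem _ fun k _ => Ideal.mul_mem_right _ _ (hI k)))))
  exact (mem_map_C_iff.1 this) β

theorem psi_sub_mem (I : Ideal L) (hI : ∀ k, ι (pderiv k (gF n d)) ∈ I) (D : Co n d) :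
    psi ι u j D - ι (C D) ∈ I := by
  have : (Ideal.Quotient.mk I).comp (psi ι u j) = (Ideal.Quotient.mk I).comp (ι.comp C) := by
    apply MvPolynomial.ringHom_ext
    · intro c; simp [psi]
    · intro α
      simp only [psi, RingHom.comp_apply, coe_eval₂Hom, eval₂_X]
      rw [Ideal.Quotient.eq, modF, coeff_sub, coeff_map, coeff_gF, RingHom.comp_apply,
        sub_sub_cancel_left]
      exact I.neg_mem (corr_coeff_mem ι u j I hI _)
  exact Ideal.Quotient.eq.1 (congrArg (fun φ => φ D) this)

theorem eps_psi (ε : L →+* ℂ) (hε : ∀ c : ℂ, ε (ι (C (C c))) = c) (D : Co n d) :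
    ε (psi ι u j D) = ev d (map ε (modF ι u j)) D := by
  have : ε.comp (psi ι u j) = ev d (map ε (modF ι u j)) := by
    apply MvPolynomial.ringHom_ext
    · intro c; simp [psi, ev, hε]
    · intro α; simp [psi, ev, coeff_map]
  exact congrArg (fun φ => φ D) this

theorem eps_sing (hd : 2 ≤ d) (hu : u * ι (X j) = 1) (ε : L →+* ℂ) (k : Fin n) :
    eval (fun k => ε (ι (X k))) (pderiv k (map ε (modF ι u j))) = 0 := by
  have h := congrArg ε (modF_sing ι u j hd hu k)
  rw [map_zero] at h
  rw [pderiv_map, ← h]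
  generalize pderiv k (modF ι u j) = G
  have : (eval (fun k => ε (ι (X k)))).comp (map ε) = ε.comp (eval fun k => ι (X k)) := by
    apply MvPolynomial.ringHom_ext
    · intro c; simp
    · intro k; simp
  exact congrArg (fun φ => φ G) this

end abstract

theorem funext_two (s : MvPolynomial (Fin n) (Co n d))
    (h : ∀ (a : Mon n d → ℂ) (p : Fin n → ℂ), eval₂Hom (eval a) p s = 0) : s = 0 := by
  have h1 : ∀ a : Mon n d → ℂ, map (eval a) s = 0 := by
    intro a
    apply MvPolynomial.funext
    intro p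
    rw [eval_map, map_zero]
    exact h a p
  ext β : 1
  apply MvPolynomial.funext
  intro a
  have := congrArg (coeff β) (h1 a)
  rw [coeff_map] at this
  simpa using this

/-- the localisation at the variable `z_j` -/
abbrev Loc (n d : ℕ) (j : Fin n) : Type :=
  Localization.Away (X j : MvPolynomial (Fin n) (Co n d))

/-- the substitution with values in the localisation -/
noncomputable def psiL (d : ℕ) (j : Fin n) : Co n d →+* Loc n d j :=
  psi (algebraMap _ (Loc n d j)) (IsLocalization.Away.invSelf (X j : MvPolynomial (Fin n) (Co n d))) j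

theorem invSelf_mul (j : Fin n) :
    (IsLocalization.Away.invSelf (X j : MvPolynomial (Fin n) (Co n d)) : Loc n d j) *
      algebraMap _ (Loc n d j) (X j : MvPolynomial (Fin n) (Co n d)) = 1 := by
  rw [mul_comm]; exact IsLocalization.Away.mul_invSelf _

/-- evaluation at a point with nonzero `j`-th coordinate -/
noncomputable def epsL (j : Fin n) (a : Mon n d → ℂ) (p : Fin n → ℂ) (hp : p j ≠ 0) :
    Loc n d j →+* ℂ :=
  IsLocalization.Away.lift (X j : MvPolynomial (Fin n) (Co n d)) (g := eval₂Hom (eval a) p)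
    (by simpa using hp)

theorem epsL_alg (j : Fin n) (a : Mon n d → ℂ) (p : Fin n → ℂ) (hp : p j ≠ 0)
    (s : MvPolynomial (Fin n) (Co n d)) :
    epsL j a p hp (algebraMap _ (Loc n d j) s) = eval₂Hom (eval a) p s :=
  IsLocalization.Away.lift_eq _ _ _

theorem alg_inj (j : Fin n) :
    Function.Injective (algebraMap (MvPolynomial (Fin n) (Co n d)) (Loc n d j)) :=
  IsLocalization.injective _ (powers_le_nonZeroDivisors_of_noZeroDivisors (X_ne_zero j))

instance (j : Fin n) : IsDomain (Loc n d j) :=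
  IsLocalization.isDomain_localization (powers_le_nonZeroDivisors_of_noZeroDivisors (X_ne_zero j))

theorem eq_zero_of_eps (j : Fin n) (x : Loc n d j)
    (h : ∀ (a : Mon n d → ℂ) (p : Fin n → ℂ) (hp : ∀ k, p k ≠ 0), epsL j a p (hp j) x = 0) :
    x = 0 := by
  obtain ⟨⟨s, t⟩, hst⟩ := IsLocalization.surj
    (Submonoid.powers (X j : MvPolynomial (Fin n) (Co n d))) x
  have h1 : s * ∏ k, X k = 0 := by
    apply funext_two
    intro a p
    rw [map_mul]
    by_cases hp : ∀ k, p k ≠ 0
    · have := congrArg (epsL j a p (hp j)) hst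
      rw [map_mul, h a p hp, zero_mul, epsL_alg] at this
      rw [← this, zero_mul]
    · push Not at hp
      obtain ⟨k, hk⟩ := hp
      rw [map_prod, Finset.prod_eq_zero (Finset.mem_univ k) (by simpa using hk), mul_zero]
  have h2 : s = 0 := by
    rcases mul_eq_zero.1 h1 with h | h
    · exact h
    · exact absurd h (Finset.prod_ne_zero_iff.2 fun k _ => X_ne_zero k)
  simp only [h2, map_zero] at hst
  exact (IsLocalization.map_units (Loc n d j) t).mul_left_eq_zero.1 hst

theorem psiL_eq_zero (hd : 2 ≤ d) {D : Co n d} (hD : VanT D) (j : Fin n) : psiL d j D = 0 := by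
  apply eq_zero_of_eps
  intro a p hp
  rw [psiL, eps_psi _ _ _ _ (by intro c; rw [epsL_alg]; simp)]
  refine hD _ ((modF_homog _ _ _ (by omega)).map _) p hp fun k => ?_
  have h := eps_sing (algebraMap _ (Loc n d j)) _ j hd (invSelf_mul j) (epsL j a p (hp j)) k
  have h2 : (fun k => epsL j a p (hp j)
      (algebraMap (MvPolynomial (Fin n) (Co n d)) (Loc n d j) (X k))) = p := by
    funext k
    rw [epsL_alg]; simp
  rwa [h2] at h

theorem van_of_psiL {D : Co n d} (j : Fin n) (hD : psiL d j D = 0)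
    (f : MvPolynomial (Fin n) ℂ) (hf : f.IsHomogeneous d) (p : Fin n → ℂ) (hp : p j ≠ 0)
    (hs : ∀ k, eval p (pderiv k f) = 0) : ev d f D = 0 := by
  let ε := epsL j (fun α : Mon n d => coeff α.1 f) p hp
  have h1 := psi_sub_mem (algebraMap _ (Loc n d j))
    (IsLocalization.Away.invSelf (X j : MvPolynomial (Fin n) (Co n d))) j (RingHom.ker ε) (by
      intro k
      have h3 := hs k
      rw [← map_ev_gF hf, pderiv_map, eval_map] at h3
      rw [RingHom.mem_ker, epsL_alg]
      exact h3) D
  rw [RingHom.mem_ker, map_sub] at h1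
  have h2 : ε (psiL d j D) = 0 := by rw [hD, map_zero]
  rw [psiL] at h2
  rw [h2, zero_sub, neg_eq_zero, epsL_alg] at h1
  simpa [ev] using h1

theorem van_of_vanT (hd : 2 ≤ d) {D : Co n d} (hD : VanT D) : Van D := by
  intro f hf p hp hs
  obtain ⟨j, hj⟩ := Function.ne_iff.1 hp
  exact van_of_psiL j (psiL_eq_zero hd hD j) f hf p hj hs

theorem Van.vanT (hn : 1 ≤ n) {D : Co n d} (hD : Van D) : VanT D := by
  intro f hf p hp hs
  refine hD f hf p ?_ hs
  intro h
  exact hp ⟨0, by omega⟩ (by rw [h]; rfl)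

theorem van_iff_ker (hd : 2 ≤ d) (j : Fin n) (D : Co n d) :
    Van D ↔ D ∈ RingHom.ker (psiL d j) := by
  have hn : 1 ≤ n := by have := j.2; omega
  constructor
  · intro h
    exact psiL_eq_zero hd (h.vanT hn) j
  · intro h
    apply van_of_vanT hd
    intro f hf p hp hs
    exact van_of_psiL j h f hf p (hp j) hs

/-- polynomials vanishing at all singular forms are inertia forms -/
theorem Van.inertia (hd : 2 ≤ d) {D : Co n d} (hD : Van D) (j : Fin n) :
    ∃ N : ℕ, X j ^ N * C D ∈ jacI (gF n d) := by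
  have h0 : psiL d j D = 0 := (van_iff_ker hd j D).1 hD
  have h1 := psi_sub_mem (algebraMap _ (Loc n d j))
    (IsLocalization.Away.invSelf (X j : MvPolynomial (Fin n) (Co n d))) j
    ((jacI (gF n d)).map (algebraMap _ (Loc n d j)))
    (fun k => Ideal.mem_map_of_mem _ (Ideal.subset_span ⟨k, rfl⟩)) D
  rw [psiL] at h0
  rw [h0, zero_sub, Ideal.neg_mem_iff, IsLocalization.mem_map_algebraMap_iff
    (Submonoid.powers (X j : MvPolynomial (Fin n) (Co n d)))] at h1
  obtain ⟨⟨i, t⟩, hit⟩ := h1
  obtain ⟨t, N, rfl⟩ := t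
  refine ⟨N, ?_⟩
  rw [← map_mul] at hit
  have := alg_inj j hit
  simp only at this
  rw [mul_comm, this]
  exact i.2

end Pool.Agent.H466Z.Assoc
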