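import Mathlib
import Pool.Agent.H466Z.AssocInertia

/-!
The set of singular forms is Zariski closed; an explicit nonsingular form whose Jacobian ideal
contains no monomial of the critical degree.
-/

set_option autoImplicit false

namespace Pool.Agent.H466Z.Assoc

open MvPolynomial

variable {n d : ℕ}

/-- `f` has no singular point other than the origin -/
def NonSing (f : MvPolynomial (Fin n) ℂ) : Prop :=
  ∀ p : Fin n → ℂ, (∀ j, eval p (pderiv j f) = 0) → p = 0

theorem NonSing.pow_mem {f : MvPolynomial (Fin n) ℂ} (hf : NonSing f) (j : Fin n) :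
    ∃ N : ℕ, X j ^ N ∈ jacI f := by
  have h : (X j : MvPolynomial (Fin n) ℂ) ∈ vanishingIdeal ℂ (zeroLocus ℂ (jacI f)) := by
    rw [mem_vanishingIdeal_iff]
    intro p hp
    have : p = 0 := by
      apply hf
      intro k
      have := hp _ (Ideal.subset_span ⟨k, rfl⟩)
      simpa using this
    simp [this]
  rw [vanishingIdeal_zeroLocus_eq_radical] at h
  exact h

theorem eval_eq_sum_mon {K : ℕ} {g : MvPolynomial (Fin n) ℂ} (hg : g.IsHomogeneous K)
    (p : Fin n → ℂ) : eval p g = ∑ γ : Mon n K, coeff γ.1 g * eval p (monomial γ.1 1) := by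
  conv_lhs => rw [homog_eq_sum hg]
  rw [map_sum]
  refine Finset.sum_congr rfl fun γ _ => ?_
  rw [eval_monomial, eval_monomial, one_mul]

theorem exists_van_ne_zero (hd : 2 ≤ d) {f₀ : MvPolynomial (Fin n) ℂ} (hf₀ : f₀.IsHomogeneous d)
    (hns : NonSing f₀) : ∃ D : Co n d, Van D ∧ ev d f₀ D ≠ 0 := by
  classical
  choose N hN using hns.pow_mem
  set m := ∑ j, N j with hm
  have hmon : ∀ β : Mon n (d - 1 + m), ∃ g : Fin n → MvPolynomial (Fin n) ℂ,
      (∀ j, (g j).IsHomogeneous m) ∧ ∑ j, pderiv j f₀ * g j = monomial β.1 1 := by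
    intro β
    have h1 : ∃ j, N j ≤ β.1 j := by
      by_contra hcon
      push Not at hcon
      have h2 : ∑ j, β.1 j ≤ ∑ j, N j := Finset.sum_le_sum fun j _ => (hcon j).le
      have h3 := β.2
      rw [Finsupp.degree_eq_sum] at h3
      omega
    obtain ⟨j, hj⟩ := h1
    have h4 : (monomial β.1 1 : MvPolynomial (Fin n) ℂ) ∈ jacI f₀ := by
      have : (monomial β.1 1 : MvPolynomial (Fin n) ℂ) =
          monomial (β.1 - Finsupp.single j (N j)) 1 * X j ^ N j := by
        rw [X_pow_eq_monomial, monomial_mul, one_mul,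
          tsub_add_cancel_of_le (Finsupp.single_le_iff.2 hj)]
      rw [this]
      exact Ideal.mul_mem_left _ _ (hN j)
    obtain ⟨c, hc⟩ := Ideal.mem_span_range_iff_exists_fun.1 h4
    refine ⟨fun j => homogeneousComponent m (c j), fun j => homogeneousComponent_isHomogeneous _ _,
      ?_⟩
    have h5 := congrArg (homogeneousComponent (d - 1 + m)) hc
    rw [homogeneousComponent_eq_self (isHomogeneous_monomial _ β.2), map_sum] at h5
    rw [← h5]
    refine Finset.sum_congr rfl fun j _ => ?_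
    rw [mul_comm (c j), homogeneousComponent_mul_left hf₀.pderiv]
  choose g hg hgs using hmon
  let Q : Matrix (Mon n (d - 1 + m)) (Mon n (d - 1 + m)) (Co n d) :=
    Matrix.of fun β γ => coeff γ.1 (∑ j, pderiv j (gF n d) * map C (g β j))
  have hQ : ∀ f : MvPolynomial (Fin n) ℂ, f.IsHomogeneous d → ev d f Q.det =
      (Matrix.of fun β γ : Mon n (d - 1 + m) => coeff γ.1 (∑ j, pderiv j f * g β j)).det := by
    intro f hf
    rw [RingHom.map_det]
    congr 1
    ext β γ
    simp only [Q, RingHom.mapMatrix_apply, Matrix.map_apply, Matrix.of_apply]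
    rw [← coeff_map, map_sum]
    congr 1
    refine Finset.sum_congr rfl fun j _ => ?_
    rw [map_mul, ← pderiv_map, map_ev_gF hf, map_map]
    have : (ev d f).comp C = RingHom.id ℂ := by
      ext c; simp [ev]
    rw [this, map_id]
  refine ⟨Q.det, ?_, ?_⟩
  · intro f hf p hp hs
    rw [hQ f hf, ← Matrix.exists_mulVec_eq_zero_iff]
    refine ⟨fun γ => eval p (monomial γ.1 1), ?_, ?_⟩
    · obtain ⟨j, hj⟩ := Function.ne_iff.1 hp
      intro h
      have := congrFun h (pureMon (d - 1 + m) j)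
      simp only [pureMon, ← X_pow_eq_monomial, map_pow, eval_X, Pi.zero_apply] at this
      exact hj (eq_zero_of_pow_eq_zero this)
    · funext β
      have h1 : (∑ j, pderiv j f * g β j).IsHomogeneous (d - 1 + m) :=
        IsHomogeneous.sum _ _ _ fun j _ => hf.pderiv.mul (hg β j)
      have h2 := eval_eq_sum_mon h1 p
      simp only [Matrix.mulVec, dotProduct, Matrix.of_apply, Pi.zero_apply]
      rw [← h2, map_sum]
      refine Finset.sum_eq_zero fun j _ => ?_
      rw [map_mul, hs j, zero_mul]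
  · rw [hQ f₀ hf₀]
    have : (Matrix.of fun β γ : Mon n (d - 1 + m) => coeff γ.1 (∑ j, pderiv j f₀ * g β j)) = 1 := by
      ext β γ
      rw [Matrix.of_apply, hgs, coeff_monomial, Matrix.one_apply]
      simp only [Subtype.ext_iff]
    rw [this, Matrix.det_one]
    exact one_ne_zero

/-- the linear forms of the example -/
noncomputable def ell (j : Fin n) : MvPolynomial (Fin n) ℂ :=
  C ((n : ℂ) + 1) * X j - ∑ k, X k

/-- the example -/
noncomputable def exF (n d : ℕ) : MvPolynomial (Fin n) ℂ := ∑ j, ell j ^ d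

theorem exF_homog : (exF n d).IsHomogeneous d := by
  refine IsHomogeneous.sum _ _ _ fun j _ => ?_
  have : (ell j : MvPolynomial (Fin n) ℂ).IsHomogeneous 1 :=
    (isHomogeneous_C_mul_X _ j).sub (IsHomogeneous.sum _ _ _ fun k _ => isHomogeneous_X ℂ k)
  simpa using this.pow d

theorem pderiv_exF (k : Fin n) : pderiv k (exF n d) =
    (d : MvPolynomial (Fin n) ℂ) * (C ((n : ℂ) + 1) * ell k ^ (d - 1) - ∑ j, ell j ^ (d - 1)) := by
  classical
  have h1 : ∀ j : Fin n, pderiv k (ell j : MvPolynomial (Fin n) ℂ) =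
      (if j = k then C ((n : ℂ) + 1) else 0) - 1 := by
    intro j
    rw [ell, map_sub, pderiv_C_mul, map_sum]
    simp only [pderiv_X, Pi.single_apply]
    simp
  rw [exF, map_sum]
  simp only [pderiv_pow, h1, mul_sub, Finset.sum_sub_distrib, mul_one, mul_ite, mul_zero,
    Finset.sum_ite_eq', Finset.mem_univ, if_true, Finset.mul_sum]
  ring

theorem exF_nonSing (hd : 2 ≤ d) : NonSing (exF n d) := by
  intro p hp
  have hd0 : (d : ℂ) ≠ 0 := by exact_mod_cast (by omega : d ≠ 0)
  have hn1 : (n : ℂ) + 1 ≠ 0 := by exact_mod_cast (by omega : n + 1 ≠ 0)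
  set y : Fin n → ℂ := fun j => ((n : ℂ) + 1) * p j - ∑ k, p k with hy
  have h1 : ∀ k, ((n : ℂ) + 1) * y k ^ (d - 1) - ∑ j, y j ^ (d - 1) = 0 := by
    intro k
    have := hp k
    rw [pderiv_exF] at this
    simp only [map_mul, map_natCast, map_sub, eval_C, map_pow, map_sum, ell, eval_X] at this
    exact (mul_eq_zero.1 this).resolve_left hd0
  have key : ∀ w : Fin n → ℂ, (∀ k, ((n : ℂ) + 1) * w k - ∑ j, w j = 0) → ∀ k, w k = 0 := by
    intro w hw
    have h2 : ∑ k, (((n : ℂ) + 1) * w k - ∑ j, w j) = 0 := Finset.sum_eq_zero fun k _ => hw k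
    rw [Finset.sum_sub_distrib, ← Finset.mul_sum, Finset.sum_const, Finset.card_univ,
      Fintype.card_fin, nsmul_eq_mul] at h2
    have h3 : ∑ j, w j = 0 := by linear_combination h2
    intro k
    have := hw k
    rw [h3, sub_zero] at this
    exact (mul_eq_zero.1 this).resolve_left hn1
  have h4 := key (fun j => y j ^ (d - 1)) h1
  funext k
  exact key p (fun k => eq_zero_of_pow_eq_zero (h4 k)) k

theorem prod_pow_add {R ι : Type*} [CommSemiring R] (s : Finset ι) (x : ι → R) (t : R)
    (i : ι → ℕ) : ∃ r : R, ∏ k ∈ s, (x k + t) ^ i k = t ^ (∑ k ∈ s, i k) + r := by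
  classical
  induction s using Finset.induction_on with
  | empty => exact ⟨0, by simp⟩
  | insert a s ha ih =>
    obtain ⟨r, hr⟩ := ih
    have : ∃ r' : R, (x a + t) ^ i a = t ^ i a + r' := by
      induction i a with
      | zero => exact ⟨0, by simp⟩
      | succ k ihk =>
        obtain ⟨r', hr'⟩ := ihk
        exact ⟨x a * t ^ k + r' * (x a + t), by rw [pow_succ, hr']; ring⟩
    obtain ⟨r', hr'⟩ := this
    refine ⟨t ^ i a * r + r' * (t ^ (∑ k ∈ s, i k) + r), ?_⟩
    rw [Finset.prod_insert ha, Finset.sum_insert ha, hr, hr', pow_add]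
    ring

theorem monomial_not_mem_exF (hd : 2 ≤ d) (i : Fin n →₀ ℕ) (hi : i.degree = n * (d - 2)) :
    (monomial i 1 : MvPolynomial (Fin n) ℂ) ∉ jacI (exF n d) := by
  classical
  intro h
  let σ : MvPolynomial (Fin n) ℂ →+* MvPolynomial (Fin n) ℂ :=
    eval₂Hom C (fun k => X k + ∑ j, X j)
  have hσ : ∀ j, σ (ell j) = C ((n : ℂ) + 1) * X j := by
    intro j
    simp only [σ, ell, map_sub, map_mul, map_sum, coe_eval₂Hom, eval₂_X,
      Finset.sum_add_distrib, Finset.sum_const, Finset.card_univ, Fintype.card_fin, nsmul_eq_mul,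
      map_add, map_natCast, map_one]
    ring
  have h1 : jacI (exF n d) ≤ (mix (fun _ => 0) ∅ Set.univ (fun _ => d - 1)).comap σ := by
    rw [jacI, Ideal.span_le]
    rintro _ ⟨k, rfl⟩
    have h2 : ∀ j, σ (ell j ^ (d - 1)) ∈ mix (fun _ => (0 : MvPolynomial (Fin n) ℂ)) ∅ Set.univ
        (fun _ => d - 1) := by
      intro j
      rw [map_pow, hσ, mul_pow]
      exact Ideal.mul_mem_left _ _ (pow_mem_mix _ _ (fun _ => d - 1) (Set.mem_univ j))
    simp only [SetLike.mem_coe, Ideal.mem_comap]
    rw [pderiv_exF, map_mul, map_sub, map_mul, map_sum]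
    exact Ideal.mul_mem_left _ _ (Ideal.sub_mem _ (Ideal.mul_mem_left _ _ (h2 k))
      (Ideal.sum_mem _ fun j _ => h2 j))
  have h3 := h1 h
  rw [Ideal.mem_comap, mem_mix_empty] at h3
  set β : Fin n →₀ ℕ := Finsupp.equivFunOnFinite.symm fun _ => d - 2 with hβ
  have h4 : β ∈ (σ (monomial i 1)).support := by
    obtain ⟨r, hr⟩ := prod_pow_add (R := MvPolynomial (Fin n) ℕ) Finset.univ X (∑ j, X j) i
    have h5 : σ (monomial i 1) = map (Nat.castRingHom ℂ)
        (∏ k, ((X k : MvPolynomial (Fin n) ℕ) + ∑ j, X j) ^ i k) := by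
      simp only [σ, eval₂Hom_monomial, map_one, one_mul, map_prod, map_pow, map_add, map_X,
        map_sum]
      rw [Finsupp.prod_fintype _ _ (by simp)]
    rw [mem_support_iff, h5, coeff_map, hr, coeff_add, coeff_sum_X_pow_of_fintype, if_pos]
    · have : 0 < β.multinomial := by
        rw [Finsupp.multinomial_eq]; exact Nat.multinomial_pos _ _
      simp only [Nat.cast_id, eq_natCast]
      exact_mod_cast (by omega : β.multinomial + coeff β r ≠ 0)
    · rw [Finsupp.sum_fintype _ _ (by simp), ← Finsupp.degree_eq_sum i, hi]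
      simp [hβ]
  obtain ⟨j, -, hj⟩ := h3 β h4
  simp only [hβ, Finsupp.coe_equivFunOnFinite_symm] at hj
  omega

end Pool.Agent.H466Z.Assoc
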