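import Mathlib
import Pool.Agent.H466Z.AssocClosed

/-!
The socle functional of the generic form has the discriminant as exact denominator.
-/

set_option autoImplicit false

namespace Pool.Agent.H466Z.Assoc

open MvPolynomial

variable {n d : ℕ}

theorem hess_homog {B : Type*} [CommRing B] {f : MvPolynomial (Fin n) B} (hf : f.IsHomogeneous d) :
    (hessM f).det.IsHomogeneous (n * (d - 2)) := by
  rw [Matrix.det_apply']
  refine IsHomogeneous.sum _ _ _ fun σ _ => ?_
  have h1 : (∏ i, hessM f (σ i) i).IsHomogeneous (∑ _i : Fin n, (d - 2)) :=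
    IsHomogeneous.prod _ _ _ fun i _ => by
      have := (hf.pderiv (i := σ i)).pderiv (i := i)
      rwa [show d - 1 - 1 = d - 2 by omega] at this
  rw [Finset.sum_const, Finset.card_univ, Fintype.card_fin, smul_eq_mul] at h1
  rw [← map_intCast (C : B →+* MvPolynomial (Fin n) B)]
  exact h1.C_mul _

theorem map_hess {B B' : Type*} [CommRing B] [CommRing B'] (ρ : B →+* B')
    (f : MvPolynomial (Fin n) B) : map ρ (hessM f).det = (hessM (map ρ f)).det := by
  rw [RingHom.map_det]
  congr 1
  ext j k : 2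
  simp only [hessM, RingHom.mapMatrix_apply, Matrix.map_apply, Matrix.of_apply, pderiv_map]

theorem map_jacI {B B' : Type*} [CommRing B] [CommRing B'] (ρ : B →+* B')
    (f : MvPolynomial (Fin n) B) : (jacI f).map (map ρ) = jacI (map ρ f) := by
  rw [jacI, jacI, Ideal.map_span, ← Set.range_comp]
  congr 2
  funext j
  simp only [Function.comp, pderiv_map]

attribute [local instance] MvPolynomial.gradedAlgebra in
theorem jacI_homog {B : Type*} [CommRing B] {f : MvPolynomial (Fin n) B} (hf : f.IsHomogeneous d)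
    {g : MvPolynomial (Fin n) B} (hg : g ∈ jacI f) (k : ℕ) : homogeneousComponent k g ∈ jacI f := by
  refine homogeneousComponent_mem_of_mem ?_ hg k
  apply Ideal.homogeneous_span
  rintro x ⟨j, rfl⟩
  exact ⟨d - 1, hf.pderiv⟩

/-- `c` are the numerators of the socle functional for the denominator `D` -/
def Num (D : Co n d) (c : Mon n (n * (d - 2)) → Co n d) : Prop :=
  ∀ i, C D * monomial i.1 1 - C (c i) * (hessM (gF n d)).det ∈ jacI (gF n d)

theorem Van.exists_num (hd : 2 ≤ d) {D : Co n d} (hD : Van D) : ∃ c, Num D c := by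
  have : ∀ i : Mon n (n * (d - 2)), ∃ a : Co n d,
      C D * monomial i.1 1 - C a * (hessM (gF n d)).det ∈ jacI (gF n d) := by
    intro i
    refine generic_exists hd _ ((isHomogeneous_monomial _ i.2).C_mul D) fun j => ?_
    obtain ⟨N, hN⟩ := hD.inertia hd j
    exact ⟨N, by rw [← mul_assoc]; exact Ideal.mul_mem_right _ _ hN⟩
  choose c hc using this
  exact ⟨c, hc⟩

theorem Num.lam {D : Co n d} {c : Mon n (n * (d - 2)) → Co n d} (hc : Num D c)
    {g : MvPolynomial (Fin n) (Co n d)} (hg : g.IsHomogeneous (n * (d - 2))) :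
    C D * g - C (∑ i, coeff i.1 g * c i) * (hessM (gF n d)).det ∈ jacI (gF n d) := by
  have h1 : C D * g - C (∑ i, coeff i.1 g * c i) * (hessM (gF n d)).det =
      ∑ i : Mon n (n * (d - 2)), C (coeff i.1 g) *
        (C D * monomial i.1 1 - C (c i) * (hessM (gF n d)).det) := by
    conv_lhs => rw [homog_eq_sum hg, ← homog_eq_sum hg]
    have h2 : C D * g = ∑ i : Mon n (n * (d - 2)), C (coeff i.1 g) * (C D * monomial i.1 1) := by
      conv_lhs => rw [homog_eq_sum hg]
      rw [Finset.mul_sum]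
      refine Finset.sum_congr rfl fun i _ => ?_
      rw [mul_left_comm, C_mul_monomial (a := coeff i.1 g), mul_one]
    rw [h2, map_sum, Finset.sum_mul, ← Finset.sum_sub_distrib]
    refine Finset.sum_congr rfl fun i _ => ?_
    rw [map_mul]
    ring
  rw [h1]
  exact Ideal.sum_mem _ fun i _ => Ideal.mul_mem_left _ _ (hc i)

theorem Num.lam_jac (hd : 2 ≤ d) {D : Co n d} {c : Mon n (n * (d - 2)) → Co n d} (hc : Num D c)
    {g : MvPolynomial (Fin n) (Co n d)} (hg : g ∈ jacI (gF n d)) :
    ∑ i, coeff i.1 g * c i = 0 := by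
  have h1 := hc.lam (homogeneousComponent_isHomogeneous (n * (d - 2)) g)
  have h2 := jacI_homog gF_homog hg (n * (d - 2))
  have h3 : ∑ i : Mon n (n * (d - 2)), coeff i.1 (homogeneousComponent (n * (d - 2)) g) * c i =
      ∑ i, coeff i.1 g * c i := by
    refine Finset.sum_congr rfl fun i _ => ?_
    rw [coeff_homogeneousComponent, if_pos i.2]
  rw [h3] at h1
  apply generic_unique hd
  have h4 := Ideal.sub_mem _ (Ideal.mul_mem_left _ (C D) h2) h1
  rwa [sub_sub_cancel] at h4

theorem Num.lam_hess (hd : 2 ≤ d) {D : Co n d} {c : Mon n (n * (d - 2)) → Co n d} (hc : Num D c) :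
    ∑ i, coeff i.1 (hessM (gF n d)).det * c i = D := by
  have h1 := hc.lam (hess_homog (gF_homog (n := n) (d := d)))
  rw [← sub_mul, ← map_sub] at h1
  exact (sub_eq_zero.1 (generic_unique hd _ h1)).symm

theorem Num.spec {D : Co n d} {c : Mon n (n * (d - 2)) → Co n d} (hc : Num D c)
    {f : MvPolynomial (Fin n) ℂ} (hf : f.IsHomogeneous d) (i : Mon n (n * (d - 2))) :
    C (ev d f D) * monomial i.1 1 - C (ev d f (c i)) * (hessM f).det ∈ jacI f := by
  have h1 := Ideal.mem_map_of_mem (map (ev d f)) (hc i)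
  rwa [map_jacI, map_ev_gF hf, map_sub, map_mul, map_mul, map_C, map_C, map_monomial, map_one,
    map_hess, map_ev_gF hf] at h1

theorem Num.hess_not_mem (hd : 2 ≤ d) {D : Co n d} {c : Mon n (n * (d - 2)) → Co n d}
    (hc : Num D c) {f : MvPolynomial (Fin n) ℂ} (hf : f.IsHomogeneous d) (hD : ev d f D ≠ 0) :
    (hessM f).det ∉ jacI f := by
  intro h
  have hsurj : Function.Surjective (ev d f) := fun z => ⟨C z, by simp [ev]⟩
  have h1 : (hessM f).det ∈ (jacI (gF n d)).map (map (ev d f)) := by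
    rwa [map_jacI, map_ev_gF hf]
  obtain ⟨g, hg, hgf⟩ := (Ideal.mem_map_iff_of_surjective _ (map_surjective _ hsurj)).1 h1
  apply hD
  rw [← hc.lam_hess hd, ← map_zero (ev d f), ← hc.lam_jac hd hg, map_sum, map_sum]
  refine Finset.sum_congr rfl fun i _ => ?_
  rw [map_mul, map_mul, ← coeff_map, ← coeff_map, map_hess, map_ev_gF hf, hgf]

theorem Num.not_all_dvd (hn : 1 ≤ n) (hd : 2 ≤ d) {D : Co n d} (hD : D ≠ 0)
    {c : Mon n (n * (d - 2)) → Co n d} (hc : Num D c) : ¬ ∀ i, D ∣ c i := by
  intro h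
  choose c' hc' using h
  have h1 := hc.lam_hess hd
  have h2 : D * (∑ i, coeff i.1 (hessM (gF n d)).det * c' i) = D * 1 := by
    rw [mul_one, Finset.mul_sum]
    conv_rhs => rw [← h1]
    refine Finset.sum_congr rfl fun i _ => ?_
    rw [hc' i]; ring
  have h3 := congrArg (ev d (0 : MvPolynomial (Fin n) ℂ)) (mul_left_cancel₀ hD h2)
  rw [map_one, map_sum, Finset.sum_eq_zero] at h3
  · exact zero_ne_one h3
  · intro i _
    rw [map_mul, ← coeff_map, map_hess, map_ev_gF (isHomogeneous_zero _ _ _)]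
    have : hessM (0 : MvPolynomial (Fin n) ℂ) = 0 := by
      ext j k : 2; simp [hessM]
    have hne : Nonempty (Fin n) := ⟨⟨0, by omega⟩⟩
    rw [this, Matrix.det_zero, coeff_zero, zero_mul]

/-- existence of the discriminant -/
theorem exists_disc (hn : 1 ≤ n) (hd : 2 ≤ d) : ∃ Δ : Co n d, Irreducible Δ ∧
    ∀ f : MvPolynomial (Fin n) ℂ, f.IsHomogeneous d →
      (ev d f Δ = 0 ↔ ∃ p : Fin n → ℂ, p ≠ 0 ∧ ∀ j, eval p (pderiv j f) = 0) := by
  let j : Fin n := ⟨0, by omega⟩
  have hprime : (RingHom.ker (psiL d j)).IsPrime := RingHom.ker_isPrime _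
  obtain ⟨D₀, hD₀, hD₀'⟩ := exists_van_ne_zero hd (exF_homog (n := n) (d := d)) (exF_nonSing hd)
  have hne : RingHom.ker (psiL d j) ≠ ⊥ := by
    intro h
    have := (van_iff_ker hd j D₀).1 hD₀
    rw [h, Ideal.mem_bot] at this
    exact hD₀' (by rw [this, map_zero])
  obtain ⟨Δ, hΔ, hp⟩ := hprime.exists_mem_prime_of_ne_bot hne
  have hvan : Van Δ := (van_iff_ker hd j Δ).2 hΔ
  obtain ⟨c, hc⟩ := hvan.exists_num hd
  have hdvd : ∀ D : Co n d, Van D → Δ ∣ D := by
    intro D hD
    obtain ⟨c', hc'⟩ := hD.exists_num hd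
    by_contra hnd
    apply hc.not_all_dvd hn hd hp.ne_zero
    intro i
    have h1 : D * c i - Δ * c' i = 0 := by
      apply generic_unique hd
      have h2 := Ideal.sub_mem _ (Ideal.mul_mem_left _ (C Δ) (hc' i))
        (Ideal.mul_mem_left _ (C D) (hc i))
      convert h2 using 1
      rw [map_sub, map_mul, map_mul]
      ring
    have h3 : Δ ∣ D * c i := ⟨c' i, sub_eq_zero.1 h1⟩
    exact (hp.dvd_or_dvd h3).resolve_left hnd
  refine ⟨Δ, hp.irreducible, fun f hf => ⟨fun h => ?_, fun ⟨p, hp0, hs⟩ => hvan f hf p hp0 hs⟩⟩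
  by_contra hcon
  have hns : NonSing f := by
    intro p hs
    by_contra hp0
    exact hcon ⟨p, hp0, hs⟩
  obtain ⟨D, hD, hD'⟩ := exists_van_ne_zero hd hf hns
  obtain ⟨E, rfl⟩ := hdvd D hD
  exact hD' (by rw [map_mul, h, zero_mul])

theorem coeff_unique {f H g : MvPolynomial (Fin n) ℂ} (hH : H ∉ jacI f) {a b : ℂ}
    (ha : g - C a * H ∈ jacI f) (hb : g - C b * H ∈ jacI f) : a = b := by
  by_contra hne
  apply hH
  have h1 := Ideal.mul_mem_left _ (C (a - b)⁻¹) (Ideal.sub_mem _ hb ha)
  have h2 : C (a - b)⁻¹ * (g - C b * H - (g - C a * H)) = H := by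
    have : (C (a - b)⁻¹ : MvPolynomial (Fin n) ℂ) * C (a - b) = 1 := by
      rw [← map_mul, inv_mul_cancel₀ (sub_ne_zero.2 hne), map_one]
    rw [map_sub] at this
    linear_combination H * this
  rwa [h2] at h1

theorem Num.spec' {D : Co n d} {c : Mon n (n * (d - 2)) → Co n d} (hc : Num D c)
    {f : MvPolynomial (Fin n) ℂ} (hf : f.IsHomogeneous d) (hD : ev d f D ≠ 0)
    (i : Mon n (n * (d - 2))) :
    monomial i.1 1 - C (ev d f (c i) / ev d f D) * (hessM f).det ∈ jacI f := by
  have h1 := Ideal.mul_mem_left _ (C (ev d f D)⁻¹) (hc.spec hf i)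
  have h2 : (C (ev d f D)⁻¹ : MvPolynomial (Fin n) ℂ) * C (ev d f D) = 1 := by
    rw [← map_mul, inv_mul_cancel₀ hD, map_one]
  convert h1 using 1
  rw [div_eq_mul_inv, map_mul]
  linear_combination (-monomial i.1 1) * h2

theorem jacI_smul {t : ℂ} (f : MvPolynomial (Fin n) ℂ) : jacI (C t * f) ≤ jacI f := by
  rw [jacI, Ideal.span_le]
  rintro _ ⟨j, rfl⟩
  simp only [pderiv_C_mul]
  exact Ideal.mul_mem_left _ _ (Ideal.subset_span ⟨j, rfl⟩)

theorem hess_smul (t : ℂ) (f : MvPolynomial (Fin n) ℂ) :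
    (hessM (C t * f)).det = C (t ^ n) * (hessM f).det := by
  have : hessM (C t * f) = (C t : MvPolynomial (Fin n) ℂ) • hessM f := by
    ext j k : 2
    simp only [hessM, Matrix.of_apply, Matrix.smul_apply, pderiv_C_mul, smul_eq_mul]
  rw [this, Matrix.det_smul, Fintype.card_fin, map_pow]

/-- the coefficients of the socle functional are not polynomial -/
theorem not_poly (hn : 1 ≤ n) (hd : 2 ≤ d) (i : Fin n →₀ ℕ) (hi : i.degree = n * (d - 2))
    (hH : (hessM (exF n d)).det ∉ jacI (exF n d)) (P : Co n d)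
    (hP : ∀ f : MvPolynomial (Fin n) ℂ, f.IsHomogeneous d → NonSing f →
      monomial i 1 - C (ev d f P) * (hessM f).det ∈ jacI f) : False := by
  set f := exF n d with hf
  have hfh : f.IsHomogeneous d := exF_homog
  have hfn : NonSing f := exF_nonSing hd
  have h1 := hP f hfh hfn
  have h2 : ∀ t : ℂ, t ≠ 0 → t ^ n * ev d (C t * f) P = ev d f P := by
    intro t ht
    have hn' : NonSing (C t * f) := by
      intro p hp
      apply hfn
      intro j
      have := hp j
      rw [pderiv_C_mul, map_mul, eval_C] at this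
      exact (mul_eq_zero.1 this).resolve_left ht
    have h3 := jacI_smul f (hP _ (hfh.C_mul t) hn')
    rw [hess_smul, ← mul_assoc, ← map_mul, mul_comm (ev d _ P)] at h3
    exact coeff_unique hH h3 h1
  let Q : Polynomial ℂ := Polynomial.X ^ n *
    eval₂Hom Polynomial.C (fun α : Mon n d => Polynomial.C (coeff α.1 f) * Polynomial.X) P -
    Polynomial.C (ev d f P)
  have hQ : ∀ t : ℂ, Q.eval t = t ^ n * ev d (C t * f) P - ev d f P := by
    intro t
    have : (Polynomial.evalRingHom t).comp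
        (eval₂Hom Polynomial.C (fun α : Mon n d => Polynomial.C (coeff α.1 f) * Polynomial.X)) =
        ev d (C t * f) := by
      apply MvPolynomial.ringHom_ext
      · intro c; simp [ev]
      · intro α
        simp only [ev, RingHom.comp_apply, coe_eval₂Hom, eval₂_X, Polynomial.coe_evalRingHom,
          Polynomial.eval_mul, Polynomial.eval_C, Polynomial.eval_X, eval_X, coeff_C_mul]
        ring
    have h4 := congrArg (fun φ => φ P) this
    simp only [RingHom.comp_apply, Polynomial.coe_evalRingHom] at h4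
    simp only [Q, Polynomial.eval_sub, Polynomial.eval_mul, Polynomial.eval_pow, Polynomial.eval_X,
      Polynomial.eval_C, h4]
  have hQ0 : Q = 0 := by
    apply Polynomial.eq_zero_of_infinite_isRoot
    refine Set.Infinite.mono (s := {0}ᶜ) ?_ (Set.Finite.infinite_compl (Set.finite_singleton 0))
    intro t ht
    change Q.eval t = 0
    rw [hQ, h2 t ht, sub_self]
  have h5 := hQ 0
  rw [hQ0, Polynomial.eval_zero, zero_pow (by omega), zero_mul, zero_sub, eq_comm,
    neg_eq_zero] at h5
  rw [h5, map_zero, zero_mul, sub_zero] at h1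
  exact monomial_not_mem_exF hd i hi h1

end Pool.Agent.H466Z.Assoc
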