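import Pool.Agent.H466Z.MTLocal

/-! Counting bounded sections is Borel; the LCL is solvable under mass transport. -/

open MeasureTheory
open scoped ENNReal

namespace Pool.Agent.H466Z.MT

section count

variable {Z Y : Type} [MeasurableSpace Z] [StandardBorelSpace Z] [MeasurableSpace Y]
  [StandardBorelSpace Y]

lemma meas_top (K : ℕ) {B : Z → Y → Prop} (hB : MeasurableSet {p : Z × Y | B p.1 p.2})
    (hK : ∀ z, {y | B z y}.encard ≤ K) : MeasurableSet {z | {y | B z y}.encard = K} := by
  obtain ⟨e, he⟩ := MeasureTheory.exists_measurableEmbedding_real Y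
  let S : Set (Z × (Fin K → Y)) := {p | StrictMono (fun i => e (p.2 i)) ∧ ∀ i, B p.1 (p.2 i)}
  have hS : MeasurableSet S := by
    have h1 : S = (⋂ i : Fin K, ⋂ j : Fin K, ⋂ _ : i < j, {p | e (p.2 i) < e (p.2 j)}) ∩
        ⋂ i : Fin K, (fun p : Z × (Fin K → Y) => (p.1, p.2 i)) ⁻¹' {p : Z × Y | B p.1 p.2} := by
      ext p
      simp only [S, StrictMono, Set.mem_ofPred_eq, Set.mem_inter_iff, Set.mem_iInter,
        Set.mem_preimage]
    rw [h1]
    refine MeasurableSet.inter (MeasurableSet.iInter fun i => MeasurableSet.iInter fun j =>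
      MeasurableSet.iInter fun _ => measurableSet_lt ?_ ?_) (MeasurableSet.iInter fun i => ?_)
    · exact he.measurable.comp ((measurable_pi_apply i).comp measurable_snd)
    · exact he.measurable.comp ((measurable_pi_apply j).comp measurable_snd)
    · exact (measurable_fst.prodMk ((measurable_pi_apply i).comp measurable_snd)) hB
  have hr : ∀ p ∈ S, Set.range p.2 = {y | B p.1 y} := by
    rintro ⟨z, v⟩ ⟨h1, h2⟩
    have hv : Function.Injective v := Function.Injective.of_comp (f := e) h1.injective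
    refine (Set.finite_of_encard_le_coe (hK z)).eq_of_subset_of_encard_le' ?_ ?_
    · rintro y ⟨i, rfl⟩; exact h2 i
    · refine (hK z).trans (le_of_eq ?_)
      rw [← Set.image_univ, hv.encard_image]
      simp
  have hinj : Set.InjOn Prod.fst S := by
    rintro ⟨z, v⟩ hp ⟨z', v'⟩ hp' (rfl : z = z')
    have h1 := hr _ hp
    have h2 := hr _ hp'
    have h3 : Set.range (fun i => e (v i)) = Set.range (fun i => e (v' i)) := by
      rw [show (fun i => e (v i)) = e ∘ v from rfl, show (fun i => e (v' i)) = e ∘ v' from rfl,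
        Set.range_comp, Set.range_comp]
      dsimp only at h1 h2
      rw [h1, h2]
    have h4 := (StrictMono.range_inj hp.1 hp'.1).1 h3
    have : v = v' := funext fun i => he.injective (congrFun h4 i)
    rw [this]
  have him : {z | {y | B z y}.encard = K} = Prod.fst '' S := by
    ext z
    simp only [Set.mem_ofPred_eq, Set.mem_image]
    constructor
    · intro hz
      have hfin : (e '' {y | B z y}).Finite := (Set.finite_of_encard_eq_coe hz).image e
      have hc : hfin.toFinset.card = K := by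
        have := hfin.encard_eq_coe_toFinset_card
        rw [he.injective.encard_image, hz] at this
        exact_mod_cast this.symm
      have hm : ∀ i, ∃ y, B z y ∧ e y = hfin.toFinset.orderEmbOfFin hc i := fun i => by
        have := hfin.toFinset.orderEmbOfFin_mem hc i
        rw [Set.Finite.mem_toFinset] at this
        exact this
      choose v hv1 hv2 using hm
      refine ⟨(z, v), ⟨?_, hv1⟩, rfl⟩
      simp only [hv2]
      exact (hfin.toFinset.orderEmbOfFin hc).strictMono
    · rintro ⟨⟨z, v⟩, hp, rfl⟩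
      have hv : Function.Injective v := Function.Injective.of_comp (f := e) hp.1.injective
      rw [← hr _ hp, ← Set.image_univ, hv.encard_image]
      simp
  rw [him]
  exact hS.image_of_measurable_injOn measurable_fst hinj

lemma meas_count (K : ℕ) : ∀ {B : Z → Y → Prop}, MeasurableSet {p : Z × Y | B p.1 p.2} →
    (∀ z, {y | B z y}.encard ≤ K) → ∀ k : ℕ∞, MeasurableSet {z | {y | B z y}.encard = k} := by
  induction K with
  | zero =>
    intro B _ hK k
    have h0 : ∀ z, {y | B z y}.encard = 0 := fun z => by simpa using hK z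
    simp only [h0]
    exact MeasurableSet.const _
  | succ K ih =>
    intro B hB hK k
    have hT := meas_top (K+1) hB hK
    by_cases hk : k = (K+1 : ℕ)
    · rw [hk]; exact hT
    let B' : Z → Y → Prop := fun z y => B z y ∧ ¬ {y | B z y}.encard = (K+1 : ℕ)
    have hB' : MeasurableSet {p : Z × Y | B' p.1 p.2} := hB.inter (measurable_fst hT).compl
    have hK' : ∀ z, {y | B' z y}.encard ≤ K := by
      intro z
      by_cases hz : {y | B z y}.encard = (K+1 : ℕ)
      · simp [B', hz]
      · have h1 : {y | B' z y} = {y | B z y} := by ext y; simp only [B', Set.mem_ofPred_eq]; tauto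
        rw [h1]
        have h2 := lt_of_le_of_ne (hK z) hz
        push_cast at h2
        exact Order.le_of_lt_add_one h2
    have h3 : {z | {y | B z y}.encard = k} =
        {z | {y | B' z y}.encard = k} ∩ {z | {y | B z y}.encard = (K+1 : ℕ)}ᶜ := by
      ext z
      simp only [Set.mem_inter_iff, Set.mem_ofPred_eq, Set.mem_compl_iff]
      by_cases hz : {y | B z y}.encard = (K+1 : ℕ)
      · constructor
        · intro h; exact absurd (h.symm.trans hz) hk
        · intro h; exact absurd hz h.2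
      · have h1 : {y | B' z y} = {y | B z y} := by ext y; simp only [B', Set.mem_ofPred_eq]; tauto
        rw [h1]; tauto
    rw [h3]
    exact (ih hB' hK' k).inter hT.compl

lemma meas_ex (K : ℕ) {B : Z → Y → Prop} (hB : MeasurableSet {p : Z × Y | B p.1 p.2})
    (hK : ∀ z, {y | B z y}.encard ≤ K) : MeasurableSet {z | ∃ y, B z y} := by
  have h := (meas_count K hB hK 0).compl
  convert h using 1
  ext z
  simp [Set.eq_empty_iff_forall_notMem]

end count

lemma encard_biUnion_le {α β : Type} {s : Set α} {t : α → Set β} (a b : ℕ) (hs : s.encard ≤ a)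
    (ht : ∀ i, (t i).encard ≤ b) : (⋃ i ∈ s, t i).encard ≤ (a * b : ℕ) := by
  have hfin := Set.finite_of_encard_le_coe hs
  have key : ∀ s : Set α, s.Finite → (⋃ i ∈ s, t i).encard ≤ s.encard * b := by
    intro s hs
    induction s, hs using Set.Finite.induction_on with
    | empty => simp
    | insert ha _ ih =>
      rw [Set.biUnion_insert, Set.encard_insert_of_notMem ha, add_mul, one_mul, add_comm]
      exact (Set.encard_union_le _ _).trans (add_le_add (ht _) ih)
  refine (key s hfin).trans ?_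
  push_cast
  exact mul_le_mul_left hs _

lemma rel_bound {Δ : ℕ} {V : Type} {G : SimpleGraph V}
    (hG : ∀ x, (G.neighborSet x).encard ≤ Δ) (x : V) :
    {y | Rel G x y ∨ Rel G y x}.encard ≤ (Δ * (Δ * Δ) : ℕ) := by
  refine le_trans (Set.encard_le_encard ?_) (encard_biUnion_le (s := G.neighborSet x)
    (t := fun u => ⋃ v ∈ G.neighborSet u, G.neighborSet v) Δ (Δ * Δ) (hG x)
    fun u => encard_biUnion_le Δ Δ (hG u) hG)
  rintro y (⟨-, -, v, ⟨u, h1, -, h2⟩, -, h3⟩ | ⟨-, -, v, ⟨u, h1, -, h2⟩, -, h3⟩)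
  · exact Set.mem_biUnion h1 (Set.mem_biUnion h2 h3)
  · exact Set.mem_biUnion h3.symm (Set.mem_biUnion h2.symm h1.symm)

lemma rel_reach {V : Type} {G : SimpleGraph V} {x y : V} (h : Rel G x y) : G.Reachable x y := by
  obtain ⟨-, -, v, ⟨u, h1, -, h2⟩, -, h3⟩ := h
  exact h1.reachable.trans (h2.reachable.trans h3.reachable)

variable {Δ : ℕ} (M : MeasuredGraph Δ)

lemma meas_dg (k : ℕ∞) : MeasurableSet {x | dg M.G x = k} :=
  meas_count Δ (B := M.G.Adj) M.borel M.degree_le k

lemma meas_rel : MeasurableSet {p : M.X × M.X | Rel M.G p.1 p.2} := by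
  have h1 : MeasurableSet {p : M.X × M.X | ∃ u, M.G.Adj p.1 u ∧ dg M.G u = 2 ∧ M.G.Adj u p.2} := by
    refine meas_ex Δ ?_ fun p => (Set.encard_le_encard fun u hu => hu.1).trans (M.degree_le p.1)
    exact ((measurable_fst.fst.prodMk measurable_snd) M.borel).inter
      ((measurable_snd (meas_dg M 2)).inter
        ((measurable_snd.prodMk measurable_fst.snd) M.borel))
  refine (measurable_fst (meas_dg M 3)).inter ((measurable_snd (meas_dg M 3)).inter ?_)
  refine meas_ex Δ (B := fun (p : M.X × M.X) v =>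
    (∃ u, M.G.Adj p.1 u ∧ dg M.G u = 2 ∧ M.G.Adj u v) ∧ dg M.G v = 4 ∧ M.G.Adj v p.2) ?_
    fun p => (Set.encard_le_encard fun u hu => hu.2.2.symm).trans (M.degree_le p.2)
  exact ((measurable_fst.fst.prodMk measurable_snd) h1).inter
      ((measurable_snd (meas_dg M 4)).inter
        ((measurable_snd.prodMk measurable_fst.snd) M.borel))

lemma meas_gd : MeasurableSet {x | Gd M.G x} := by
  have h1 := meas_count (Δ * (Δ * Δ)) (B := Rel M.G) (meas_rel M)
    fun x => (Set.encard_le_encard fun y hy => Or.inl hy).trans (rel_bound M.degree_le x)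
  have h2 := meas_count (Δ * (Δ * Δ)) (B := fun x y => Rel M.G y x) (measurable_swap (meas_rel M))
    fun x => (Set.encard_le_encard fun y hy => Or.inr hy).trans (rel_bound M.degree_le x)
  have : {x | Gd M.G x} = ⋃ k : ℕ∞, ⋃ l : ℕ∞, ⋃ _ : k < l,
      {x | {y | Rel M.G x y}.encard = k} ∩ {x | {y | Rel M.G y x}.encard = l} := by
    ext x
    simp [Gd]
  rw [this]
  exact MeasurableSet.iUnion fun k => MeasurableSet.iUnion fun l =>
    MeasurableSet.iUnion fun _ => (h1 k).inter (h2 l)

def layer {V : Type} (G : SimpleGraph V) : ℕ → Set V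
  | 0 => {x | ¬ Gd G x}
  | n+1 => layer G n ∪ {x | ∃ y, (Rel G x y ∨ Rel G y x) ∧ y ∈ layer G n}

lemma meas_layer (n : ℕ) : MeasurableSet (layer M.G n) := by
  induction n with
  | zero => exact (meas_gd M).compl
  | succ n ih =>
    refine ih.union (meas_ex (Δ * (Δ * Δ)) ?_
      fun x => (Set.encard_le_encard fun y hy => hy.1).trans (rel_bound M.degree_le x))
    exact ((meas_rel M).union (measurable_swap (meas_rel M))).inter (measurable_snd ih)

lemma tsum_ind {V : Type} (p : V → Prop) (S : Set V) (h : ∀ y ∈ S, p y) :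
    ∑' y : {y // p y}, S.indicator (fun _ => (1 : ℝ≥0∞)) y = S.encard := by
  have h1 := tsum_subtype {y | p y} (S.indicator fun _ => (1 : ℝ≥0∞))
  have h2 := tsum_subtype S (fun _ => (1 : ℝ≥0∞))
  have h3 : {y | p y} ∩ S = S := Set.inter_eq_right.2 h
  rw [Set.indicator_indicator, h3] at h1
  rw [ENNReal.tsum_set_one] at h2
  exact h1.trans h2.symm

lemma far_null (h : M.MTP) : M.μ (⋃ n, layer M.G n)ᶜ = 0 := by
  set A := (⋃ n, layer M.G n)ᶜ with hA
  have mA : MeasurableSet A := (MeasurableSet.iUnion (meas_layer M)).compl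
  have inv : ∀ x y, (Rel M.G x y ∨ Rel M.G y x) → x ∈ A → y ∈ A := by
    intro x y hxy hx hy
    obtain ⟨n, hn⟩ := Set.mem_iUnion.1 hy
    exact hx (Set.mem_iUnion.2 ⟨n+1, Or.inr ⟨y, hxy, hn⟩⟩)
  let T : Set (M.X × M.X) := {p | p.1 ∈ A ∧ Rel M.G p.1 p.2}
  have mT : MeasurableSet T := (measurable_fst mA).inter (meas_rel M)
  have key := h (T.indicator fun _ => 1) (measurable_const.indicator mT)
  have e1 : ∀ x, ∑' y : {y // M.G.Reachable x y}, T.indicator (fun _ => (1 : ℝ≥0∞)) (x, y)
      = {y | x ∈ A ∧ Rel M.G x y}.encard := fun x =>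
    tsum_ind _ {y | x ∈ A ∧ Rel M.G x y} fun y hy => rel_reach hy.2
  have e2 : ∀ x, ∑' y : {y // M.G.Reachable x y}, T.indicator (fun _ => (1 : ℝ≥0∞)) (y, x)
      = {y | y ∈ A ∧ Rel M.G y x}.encard := fun x =>
    tsum_ind _ {y | y ∈ A ∧ Rel M.G y x} fun y hy => (rel_reach hy.2).symm
  simp only [e1, e2] at key
  have hfin : ∫⁻ x, (({y | x ∈ A ∧ Rel M.G x y}.encard : ℕ∞) : ℝ≥0∞) ∂M.μ ≠ ⊤ := by
    refine ne_top_of_le_ne_top (b := ∫⁻ _, ((Δ * (Δ * Δ) : ℕ) : ℝ≥0∞) ∂M.μ) (by
      rw [lintegral_const, measure_univ, mul_one]; exact ENNReal.natCast_ne_top _)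
      (lintegral_mono fun x => ?_)
    have := (Set.encard_le_encard (s := {y | x ∈ A ∧ Rel M.G x y})
      fun y hy => Or.inl hy.2).trans (rel_bound M.degree_le x)
    exact (ENat.toENNReal_le.2 this).trans (le_of_eq (ENat.toENNReal_coe _))
  have hle : ∫⁻ x, (({y | x ∈ A ∧ Rel M.G x y}.encard : ℕ∞) : ℝ≥0∞) ∂M.μ + M.μ A ≤
      ∫⁻ x, (({y | y ∈ A ∧ Rel M.G y x}.encard : ℕ∞) : ℝ≥0∞) ∂M.μ := by
    rw [← lintegral_indicator_one mA]
    refine (le_lintegral_add _ _).trans (lintegral_mono fun x => ?_)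
    by_cases hx : x ∈ A
    · have g : Gd M.G x := by
        by_contra hg
        exact hx (Set.mem_iUnion.2 ⟨0, hg⟩)
      have a1 : {y | x ∈ A ∧ Rel M.G x y} = {y | Rel M.G x y} := by ext y; simp [hx]
      have a2 : {y | y ∈ A ∧ Rel M.G y x} = {y | Rel M.G y x} := by
        ext y; exact ⟨fun h => h.2, fun h => ⟨inv x y (Or.inr h) hx, h⟩⟩
      have a3 := Order.add_one_le_of_lt g
      simp only [a1, a2, Set.indicator_of_mem hx, Pi.one_apply]
      exact_mod_cast a3
    · simp [hx]
  rw [← key] at hle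
  exact nonpos_iff_eq_zero.1 ((ENNReal.add_le_add_iff_left hfin).1 (by rwa [add_zero]))

theorem solvable_of_mtp (h : M.MTP) : (theLCL Δ).SolvableOn M := by
  classical
  have hex : ∀ x, ∃ n, x ∈ layer M.G n ∨ x ∈ (⋃ n, layer M.G n)ᶜ := by
    intro x
    by_cases hx : x ∈ ⋃ n, layer M.G n
    · obtain ⟨n, hn⟩ := Set.mem_iUnion.1 hx
      exact ⟨n, Or.inl hn⟩
    · exact ⟨0, Or.inr hx⟩
  have mr : Measurable fun x => Nat.find (hex x) :=
    measurable_find hex fun k =>
      (meas_layer M k).union (MeasurableSet.iUnion (meas_layer M)).compl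
  refine ⟨fun x => ((Nat.find (hex x) : ℕ) : ZMod 9), fun l => ?_, ?_⟩
  · exact mr (MeasurableSet.of_discrete (s := {n : ℕ | (n : ZMod 9) = l}))
  · have h0 : ∀ᵐ x ∂M.μ, x ∈ ⋃ n, layer M.G n := far_null M h
    filter_upwards [h0] with x hx
    apply sat_of_pred M.degree_le
    have spec : ∀ x ∈ ⋃ n, layer M.G n, x ∈ layer M.G (Nat.find (hex x)) :=
      fun x hx => (Nat.find_spec (hex x)).resolve_right fun h => h hx
    have nb : ∀ x ∈ ⋃ n, layer M.G n, ∀ y, (Rel M.G x y ∨ Rel M.G y x) →
        y ∈ (⋃ n, layer M.G n) ∧ Nat.find (hex y) ≤ Nat.find (hex x) + 1 := by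
      intro x hx y hxy
      have : y ∈ layer M.G (Nat.find (hex x) + 1) := Or.inr ⟨x, hxy.symm, spec x hx⟩
      exact ⟨Set.mem_iUnion.2 ⟨_, this⟩, Nat.find_min' _ (Or.inl this)⟩
    constructor
    · intro y hy
      obtain ⟨h1, h2⟩ := nb x hx y (Or.inl hy)
      obtain ⟨-, h3⟩ := nb y h1 x (Or.inr hy)
      have : Nat.find (hex x) = Nat.find (hex y) + 1 ∨ Nat.find (hex y) = Nat.find (hex x) ∨
          Nat.find (hex y) = Nat.find (hex x) + 1 := by omega
      dsimp only
      rcases this with h4 | h4 | h4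
      · left; rw [h4]; push_cast; ring
      · right; left; rw [h4]
      · right; right; rw [h4]; push_cast; ring
    · intro g
      have h1 := spec x hx
      rcases hn : Nat.find (hex x) with _ | n
      · rw [hn] at h1; exact absurd g h1
      · rw [hn] at h1
        rcases h1 with h1 | ⟨y, hxy, hy⟩
        · exact absurd (Or.inl h1) (Nat.find_min (hex x) (by omega))
        · have h2 : Nat.find (hex y) ≤ n := Nat.find_min' _ (Or.inl hy)
          have h3 := (nb y (Set.mem_iUnion.2 ⟨n, hy⟩) x hxy.symm).2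
          have h4 : Nat.find (hex y) = n := by omega
          refine ⟨y, hxy, ?_⟩
          dsimp only
          rw [h4, hn]; push_cast; ring

end Pool.Agent.H466Z.MT
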