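import Pool.Agent.H466Z.MTGraph

/-! The quasi-invariant measured graph over the circle on which the LCL is not solvable. -/

open MeasureTheory
open scoped ENNReal Pointwise

set_option maxHeartbeats 400000

namespace Pool.Agent.H466Z.MT

abbrev T := UnitAddCircle

noncomputable def th : T := ((√2 : ℝ) : T)

noncomputable def hf : T := ((1 / (2:ℕ) : ℝ) : T)

lemma th_order : addOrderOf th = 0 := by
  rw [addOrderOf_eq_zero_iff]
  refine AddCircle.not_isOfFinAddOrder_iff_forall_rat_ne_div.2 fun q hq => ?_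
  exact irrational_sqrt_two ⟨q, by simpa using hq⟩

lemma par : Par th hf where
  th := fun h => by simpa [h] using th_order
  ne := fun h => by
    have := AddCircle.addOrderOf_period_div (p := (1:ℝ)) (n := 2) (by norm_num)
    rw [show ((1 / (2:ℕ) : ℝ) : T) = hf from rfl, h] at this
    simp at this
  two := fun δ => by
    have h := AddCircle.nsmul_eq_zero_iff (p := (1:ℝ)) (u := δ) (n := 2) (by norm_num)
    rw [show (2:ℤ) • δ = (2:ℕ) • δ from natCast_zsmul δ 2, h]
    constructor
    · rintro ⟨m, hm, rfl⟩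
      interval_cases m
      · left; simp
      · right; simp [hf]
    · rintro (rfl | rfl)
      · exact ⟨0, by norm_num, by simp⟩
      · exact ⟨1, by norm_num, by simp [hf]⟩
  div := fun x => by
    induction x using QuotientAddGroup.induction_on with
    | H r => exact ⟨((r / 2 : ℝ) : T), by rw [← AddCircle.coe_zsmul]; congr 1; simp; ring⟩

noncomputable def mu : Measure (T × Fin 3) :=
  (3 : ℝ≥0∞)⁻¹ • ∑ s : Fin 3, Measure.map (fun x : T => (x, s)) volume

lemma mu_apply (S : Set (T × Fin 3)) :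
    mu S = (3 : ℝ≥0∞)⁻¹ * ∑ s : Fin 3, volume {x : T | (x, s) ∈ S} := by
  unfold mu
  rw [Measure.smul_apply, Measure.finsetSum_apply, smul_eq_mul]
  congr 1
  exact Finset.sum_congr rfl fun s _ => (measurableEmbedding_prod_mk_right s).map_apply _ _

instance : IsProbabilityMeasure mu := ⟨by
  rw [mu_apply]
  simp [ENNReal.inv_mul_cancel]⟩

lemma mu_null (S : Set (T × Fin 3)) : mu S = 0 ↔ ∀ s, volume {x : T | (x, s) ∈ S} = 0 := by
  rw [mu_apply]
  simp

lemma dbl : MeasurePreserving (fun y : T => (2:ℤ) • y) volume volume :=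
  (AddCircle.ergodic_zsmul (by norm_num)).toMeasurePreserving

lemma null_add {S : Set T} (h : volume S = 0) (a : T) : volume {x | x + a ∈ S} = 0 :=
  (measurePreserving_add_right volume a).preimage_null h

lemma null_image {S : Set T} (h : volume S = 0) : volume {x | ∃ y, y ∈ S ∧ (2:ℤ) • y = x} = 0 := by
  obtain ⟨S', h1, h2, h3⟩ := exists_measurable_superset_of_null h
  have m : MeasurableSet {x : T | ∃ y, y ∈ S' ∧ (2:ℤ) • y = x} := by
    refine meas_ex 2 ((measurable_snd h2).inter
      (measurableSet_eq_fun (dbl.measurable.comp measurable_snd) measurable_fst)) fun x => ?_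
    obtain ⟨y, rfl⟩ := par.div x
    refine le_trans (Set.encard_le_encard (t := {y, y + hf}) fun z hz => par.fib.1 hz.2)
      ((Set.encard_insert_le _ _).trans (by simp; norm_num))
  refine measure_mono_null (t := {x : T | ∃ y, y ∈ S' ∧ (2:ℤ) • y = x})
    (fun x ⟨y, hy, e⟩ => ⟨y, h1 hy, e⟩) ?_
  rw [← dbl.measure_preimage m.nullMeasurableSet]
  refine measure_mono_null (t := S' ∪ {x | x + hf ∈ S'}) ?_ (measure_union_null h3 (null_add h3 _))
  rintro x ⟨y, hy, e⟩
  rcases par.fib.1 e with rfl | rfl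
  · exact Or.inl hy
  · exact Or.inr hy

lemma null_nb {S : Set (T × Fin 3)} (h : mu S = 0) :
    mu {b | ∃ a ∈ S, (cG th).Adj a b} = 0 := by
  rw [mu_null] at h ⊢
  intro s
  fin_cases s
  · refine measure_mono_null ?_ (measure_union_null (h 1) (measure_union_null (h 2)
      (null_add (h 2) (-th))))
    rintro x ⟨a, ha, hx⟩
    rcases (adj0 _ _).1 hx.symm with rfl | rfl | rfl
    · exact Or.inl ha
    · exact Or.inr (Or.inl ha)
    · exact Or.inr (Or.inr (by simpa [sub_eq_add_neg] using ha))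
  · refine measure_mono_null ?_ (measure_union_null (h 0) (dbl.preimage_null (h 2)))
    rintro x ⟨a, ha, hx⟩
    rcases (adj1 _ _).1 hx.symm with rfl | rfl
    · exact Or.inl ha
    · exact Or.inr ha
  · refine measure_mono_null ?_ (measure_union_null (h 0) (measure_union_null
      (null_add (h 0) th) (null_image (h 1))))
    rintro x ⟨⟨y, t⟩, ha, hx⟩
    rcases (adj2 _ _).1 hx.symm with e | e | ⟨(rfl : t = 1), e⟩
    · rw [e] at ha; exact Or.inl ha
    · rw [e] at ha; exact Or.inr (Or.inl ha)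
    · exact Or.inr (Or.inr ⟨y, ha, e⟩)

lemma quasi (S : Set (T × Fin 3)) (h : mu S = 0) :
    mu {x | ∃ y ∈ S, (cG th).Reachable y x} = 0 := by
  let N : Set (T × Fin 3) → Set (T × Fin 3) := fun S => {b | ∃ a ∈ S, (cG th).Adj a b}
  have hn : ∀ n, mu (N^[n] S) = 0 := by
    intro n
    induction n with
    | zero => exact h
    | succ n ih => rw [Function.iterate_succ_apply']; exact null_nb ih
  refine measure_mono_null ?_ (measure_iUnion_null hn)
  rintro x ⟨y, hy, hr⟩
  rw [SimpleGraph.reachable_iff_reflTransGen] at hr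
  induction hr with
  | refl => exact Set.mem_iUnion.2 ⟨0, hy⟩
  | tail _ hadj ih =>
    obtain ⟨n, hn⟩ := Set.mem_iUnion.1 ih
    exact Set.mem_iUnion.2 ⟨n+1, by rw [Function.iterate_succ_apply']; exact ⟨_, hn, hadj⟩⟩

lemma meas_cE : MeasurableSet {p : (T × Fin 3) × (T × Fin 3) | cE th p.1 p.2} := by
  have s1 : ∀ s : Fin 3, MeasurableSet {p : (T × Fin 3) × (T × Fin 3) | p.1.2 = s} :=
    fun s => measurable_fst.snd (measurableSet_singleton s)
  have s2 : ∀ s : Fin 3, MeasurableSet {p : (T × Fin 3) × (T × Fin 3) | p.2.2 = s} :=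
    fun s => measurable_snd.snd (measurableSet_singleton s)
  have e1 : MeasurableSet {p : (T × Fin 3) × (T × Fin 3) | p.2.1 = p.1.1} :=
    measurableSet_eq_fun measurable_snd.fst measurable_fst.fst
  have e2 : MeasurableSet {p : (T × Fin 3) × (T × Fin 3) | p.2.1 = (2:ℤ) • p.1.1} :=
    measurableSet_eq_fun measurable_snd.fst (dbl.measurable.comp measurable_fst.fst)
  have e3 : MeasurableSet {p : (T × Fin 3) × (T × Fin 3) | p.2.1 = p.1.1 + th} :=
    measurableSet_eq_fun measurable_snd.fst (measurable_fst.fst.add_const _)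
  exact ((s1 0).inter ((s2 1).inter e1)).union (((s1 1).inter ((s2 2).inter e2)).union
    ((s1 2).inter ((s2 0).inter (e1.union e3))))

noncomputable def circleGraph {Δ : ℕ} (hΔ : 4 ≤ Δ) : MeasuredGraph Δ where
  X := T × Fin 3
  μ := mu
  G := cG th
  borel := meas_cE.union (measurable_swap meas_cE)
  degree_le := fun x => (par.deg_le x).trans (by exact_mod_cast hΔ)
  quasi := quasi

section meas

variable {c : T → ZMod 9} (hc : Measurable c)
include hc

lemma meas_inc {f g : T → T} (hf : Measurable f) (hg : Measurable g) :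
    Measurable fun x => inc c (f x) (g x) :=
  (measurable_of_countable fun p : ZMod 9 × ZMod 9 => (p.2 - p.1).valMinAbs).comp
    ((hc.comp hf).prodMk (hc.comp hg))

lemma meas_eta (k : ℤ) : Measurable (eta th c k) := by
  unfold eta
  exact (Finset.measurable_sum _ fun i _ => meas_inc hc (measurable_id.add_const _)
    (measurable_id.add_const _)).sub (Finset.measurable_sum _ fun i _ =>
      meas_inc hc (measurable_id.add_const _) (measurable_id.add_const _))

lemma meas_rho (d : ℕ) : Measurable (rho c d) := by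
  induction d with
  | zero => exact measurable_const
  | succ d ih =>
    exact (meas_inc hc measurable_id dbl.measurable).add (ih.comp dbl.measurable)

lemma meas_kap (i : ℕ) (δ : T) : Measurable (kap c i δ) :=
  (meas_rho hc i).sub ((meas_rho hc i).comp (measurable_id.add_const _))

lemma meas_c (M : ℤ) (κ : ZMod 9) : MeasurableSet {w | c w + M = κ} :=
  hc (MeasurableSet.of_discrete (s := {l | l + M = κ}))

lemma meas_setA (κ : ZMod 9) : MeasurableSet (setA th c κ) := by
  have : setA th c κ = ⋃ M : ℤ, ((⋂ k, {w | eta th c k w ≤ M}) ∩ ⋃ k, {w | eta th c k w = M}) ∩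
      {w | c w + M = κ} := by
    ext w; simp [setA, IsMaxA]
  rw [this]
  exact MeasurableSet.iUnion fun M => ((MeasurableSet.iInter fun k =>
    measurableSet_le (meas_eta hc k) measurable_const).inter (MeasurableSet.iUnion fun k =>
      measurableSet_eq_fun (meas_eta hc k) measurable_const)).inter (meas_c hc M κ)

lemma meas_setB (κ : ZMod 9) : MeasurableSet (setB c κ) := by
  have cnt : ∀ i : ℕ, {δ : T | (2:ℤ)^i • δ = 0}.Countable := fun i => by
    have := AddCircle.finite_torsion (1:ℝ) (n := 2^i) (by positivity)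
    refine (this.subset fun δ hδ => ?_).countable
    rw [Set.mem_ofPred_eq, ← natCast_zsmul]
    push_cast
    exact hδ
  have : setB c κ = ⋃ M : ℤ, ((⋂ i : ℕ, ⋂ δ ∈ {δ : T | (2:ℤ)^i • δ = 0}, {w | kap c i δ w ≤ M}) ∩
      ⋃ i : ℕ, ⋃ δ ∈ {δ : T | (2:ℤ)^i • δ = 0}, {w | kap c i δ w = M}) ∩
      {w | c w + M = κ} := by
    ext w; simp [setB, IsMaxB]
  rw [this]
  exact MeasurableSet.iUnion fun M => ((MeasurableSet.iInter fun i =>
    MeasurableSet.biInter (cnt i) fun δ _ =>
      measurableSet_le (meas_kap hc i δ) measurable_const).inter (MeasurableSet.iUnion fun i =>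
    MeasurableSet.biUnion (cnt i) fun δ _ =>
      measurableSet_eq_fun (meas_kap hc i δ) measurable_const)).inter (meas_c hc M κ)

lemma ergA (κ : ZMod 9) : volume (setA th c κ) = 0 ∨ volume (setA th c κ)ᶜ = 0 := by
  refine (AddCircle.ergodic_add_right.2 th_order).toPreErgodic.measure_self_or_compl_eq_zero
    (meas_setA hc κ) ?_
  ext w
  constructor
  · intro h
    have h1 : w + th ∈ setA th c κ := h
    have h2 := transA (-1) h1
    rwa [neg_one_zsmul, add_neg_cancel_right] at h2
  · intro h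
    have h2 := transA 1 h
    rw [one_zsmul] at h2
    exact h2

lemma ergB (κ : ZMod 9) : volume (setB c κ) = 0 ∨ volume (setB c κ)ᶜ = 0 := by
  let u : ℕ → T := fun i => ((1 / (2^i : ℕ) : ℝ) : T)
  have ho : ∀ i, addOrderOf (u i) = 2^i := fun i =>
    AddCircle.addOrderOf_period_div (by positivity)
  have hu : ∀ i, (2:ℤ)^i • u i = 0 := fun i => by
    have := addOrderOf_nsmul_eq_zero (u i)
    rw [ho, ← natCast_zsmul] at this
    push_cast at this
    exact this
  have h := AddCircle.ae_empty_or_univ_of_forall_vadd_ae_eq_self (l := Filter.atTop) (u := u)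
    (meas_setB hc κ).nullMeasurableSet (fun i => ?_) ?_
  · simpa using h
  · have : (u i +ᵥ setB c κ : Set T) = setB c κ := by
      refine Set.ext fun w => ?_
      rw [Set.mem_vadd_set_iff_neg_vadd_mem, vadd_eq_add, add_comm]
      constructor
      · intro h
        have h2 := transB (hu i) h
        rwa [neg_add_cancel_right] at h2
      · intro h
        exact transB (i := i) (by rw [smul_neg, hu, neg_zero]) h
    rw [this]
  · have : addOrderOf ∘ u = fun i => 2^i := funext ho
    rw [this]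
    exact tendsto_pow_atTop_atTop_of_one_lt (by norm_num)

end meas

lemma dich {S : ZMod 9 → Set T} (h : ∀ κ, volume (S κ) = 0 ∨ volume (S κ)ᶜ = 0) :
    ∃ N : Set T, volume N = 0 ∧ ((∀ w ∉ N, ∀ κ, w ∉ S κ) ∨ ∃ κ, ∀ w ∉ N, w ∈ S κ) := by
  by_cases h1 : ∃ κ, volume (S κ)ᶜ = 0
  · obtain ⟨κ, h1⟩ := h1
    exact ⟨_, h1, Or.inr ⟨κ, fun w hw => not_not.1 hw⟩⟩
  · push Not at h1
    exact ⟨⋃ κ, S κ, measure_iUnion_null fun κ => (h κ).resolve_right (h1 κ),
      Or.inl fun w hw κ h2 => hw (Set.mem_iUnion.2 ⟨κ, h2⟩)⟩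

theorem not_solvable {Δ : ℕ} (hΔ : 4 ≤ Δ) : ¬ (theLCL Δ).SolvableOn (circleGraph hΔ) := by
  rintro ⟨c, hc1, hc2⟩
  change T × Fin 3 → ZMod 9 at c
  have hc : Measurable fun x : T => c (x, 0) :=
    (measurable_to_countable' (α := ZMod 9) (f := c) hc1).comp measurable_prodMk_right
  obtain ⟨NA, hA0, hA⟩ := dich (ergA hc)
  obtain ⟨NB, hB0, hB⟩ := dich (ergB hc)
  let N : Set (T × Fin 3) := {a | ¬ (theLCL Δ).SatAt (cG th) c a} ∪ {a | a.1 ∈ NA ∪ NB}
  have hN : mu N = 0 := measure_union_null hc2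
    ((mu_null _).2 fun _ => measure_union_null hA0 hB0)
  have hq := quasi N hN
  set W := {x | ∃ y ∈ N, (cG th).Reachable y x}ᶜ with hW
  have out : ∀ a ∈ W, a ∉ N := fun a ha h => ha ⟨a, h, SimpleGraph.Reachable.refl _⟩
  have g := par.good (c := c) (W := W) (fun a b hab ha ⟨y, hy, hr⟩ => ha ⟨y, hy, hr.trans hab.symm⟩)
    fun a ha => pred_of_sat (Δ := Δ) (not_not.1 fun h => out a ha (Or.inl h))
  refine g.core ?_ ?_ ?_
  · by_contra hne
    have h1 := (mu_null _).1 hq 0
    have h2 : {x : T | (x, (0 : Fin 3)) ∈ {x | ∃ y ∈ N, (cG th).Reachable y x}} = Set.univ :=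
      Set.eq_univ_of_forall fun x => not_not.1 fun h => hne ⟨x, h⟩
    rw [h2] at h1
    simp at h1
  · rcases hA with hA | ⟨κ, hA⟩
    · exact Or.inl fun w hw ⟨M, hM⟩ =>
        hA w (fun h => out _ hw (Or.inr (Or.inl h))) _ ⟨M, hM, rfl⟩
    · exact Or.inr ⟨κ, fun w hw => hA w fun h => out _ hw (Or.inr (Or.inl h))⟩
  · rcases hB with hB | ⟨κ, hB⟩
    · exact Or.inl fun w hw ⟨M, hM⟩ =>
        hB w (fun h => out _ hw (Or.inr (Or.inr h))) _ ⟨M, hM, rfl⟩
    · exact Or.inr ⟨κ, fun w hw => hB w fun h => out _ hw (Or.inr (Or.inr h))⟩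

end Pool.Agent.H466Z.MT
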