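import Mathlib

/-! Deterministic core: labels mod 9 on the graph `y ~ 2y`, `y ~ 2y + θ`. -/

namespace Pool.Agent.H466Z.MT

variable {A : Type*} [AddCommGroup A]

def up (θ : A) (ε : ℤ) (y : A) : A := (2:ℤ) • y + ε • θ

def inc (c : A → ZMod 9) (x y : A) : ℤ := (c y - c x).valMinAbs

def rho (c : A → ZMod 9) : ℕ → A → ℤ
  | 0, _ => 0
  | d+1, y => inc c y ((2:ℤ) • y) + rho c d ((2:ℤ) • y)

noncomputable def eta (θ : A) (c : A → ZMod 9) (k : ℤ) (x : A) : ℤ :=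
  ∑ i ∈ Finset.Ico 0 k, inc c (x + i • θ) (x + (i+1) • θ)
    - ∑ i ∈ Finset.Ico k 0, inc c (x + i • θ) (x + (i+1) • θ)

structure Good (θ : A) (c : A → ZMod 9) (Ω : Set A) : Prop where
  div : ∀ x : A, ∃ y, (2:ℤ) • y = x
  upm : ∀ y ε, (ε = 0 ∨ ε = 1) → (up θ ε y ∈ Ω ↔ y ∈ Ω)
  lip : ∀ y ∈ Ω, ∀ ε, (ε = 0 ∨ ε = 1) → |inc c y (up θ ε y)| ≤ 1
  ptr : ∀ x ∈ Ω, ∃ x', c x' = c x - 1 ∧ ∃ ε, (ε = 0 ∨ ε = 1) ∧ (x' = up θ ε x ∨ x = up θ ε x')

omit [AddCommGroup A] in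
lemma cast_inc (c : A → ZMod 9) (x y : A) : ((inc c x y : ℤ) : ZMod 9) = c y - c x := by
  simp [inc]

lemma lift9 {a b : ℤ} (h : (a : ZMod 9) = (b : ZMod 9)) (h2 : |a - b| < 9) : a = b := by
  have h3 : ((9:ℕ):ℤ) ∣ b - a := (ZMod.intCast_eq_intCast_iff_dvd_sub a b 9).1 h
  obtain ⟨t, ht⟩ := h3
  rw [abs_lt] at h2
  push_cast at ht
  omega

omit [AddCommGroup A] in
lemma abs_inc (c : A → ZMod 9) (x y : A) : |inc c x y| ≤ 4 := by
  have := ZMod.natAbs_valMinAbs_le (c y - c x)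
  unfold inc
  rw [Int.abs_eq_natAbs]
  exact_mod_cast this

variable {θ : A} {c : A → ZMod 9} {Ω : Set A}

lemma eta_zero (x : A) : eta θ c 0 x = 0 := by simp [eta]

lemma eta_succ (k : ℤ) (x : A) :
    eta θ c (k+1) x = eta θ c k x + inc c (x + k • θ) (x + (k+1) • θ) := by
  unfold eta
  rcases le_or_gt 0 k with hk | hk
  · have h1 : Finset.Ico (k+1) 0 = ∅ := Finset.Ico_eq_empty (by omega)
    have h2 : Finset.Ico k 0 = ∅ := Finset.Ico_eq_empty (by omega)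
    have h3 : Finset.Ico 0 (k+1) = insert k (Finset.Ico 0 k) := by
      ext i; simp only [Finset.mem_Ico, Finset.mem_insert]; omega
    rw [h1, h2, h3, Finset.sum_insert (by simp)]
    simp only [Finset.sum_empty]; ring
  · have h1 : Finset.Ico 0 (k+1) = ∅ := Finset.Ico_eq_empty (by omega)
    have h2 : Finset.Ico 0 k = ∅ := Finset.Ico_eq_empty (by omega)
    have h3 : Finset.Ico k 0 = insert k (Finset.Ico (k+1) 0) := by
      ext i; simp only [Finset.mem_Ico, Finset.mem_insert]; omega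
    rw [h1, h2, h3, Finset.sum_insert (by simp)]
    simp only [Finset.sum_empty]; ring

lemma eta_pred (k : ℤ) (x : A) :
    eta θ c (k-1) x = eta θ c k x - inc c (x + (k-1) • θ) (x + k • θ) := by
  have := eta_succ (θ := θ) (c := c) (k-1) x
  simp only [sub_add_cancel] at this
  omega

lemma eta_add (k l : ℤ) (x : A) :
    eta θ c (k+l) x = eta θ c k x + eta θ c l (x + k • θ) := by
  induction l using Int.induction_on with
  | zero => simp [eta_zero]
  | succ l ih =>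
    rw [← add_assoc, eta_succ, eta_succ, ih]
    have h1 : x + (k + (l:ℤ)) • θ = x + k • θ + (l:ℤ) • θ := by module
    have h2 : x + (k + (l:ℤ) + 1) • θ = x + k • θ + ((l:ℤ)+1) • θ := by module
    rw [h1, h2]; ring
  | pred l ih =>
    have e : k + (-(l:ℤ) - 1) = (k + -(l:ℤ)) - 1 := by ring
    rw [e, eta_pred, eta_pred, ih]
    have h1 : x + (k + -(l:ℤ)) • θ = x + k • θ + (-(l:ℤ)) • θ := by module
    have h2 : x + (k + -(l:ℤ) - 1) • θ = x + k • θ + (-(l:ℤ) - 1) • θ := by module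
    rw [h1, h2]; ring

lemma eta_one (x : A) : eta θ c 1 x = inc c x (x + θ) := by
  have := eta_succ (θ := θ) (c := c) 0 x
  simpa [eta_zero] using this

lemma cast_eta (k : ℤ) (x : A) : ((eta θ c k x : ℤ) : ZMod 9) = c (x + k • θ) - c x := by
  induction k using Int.induction_on with
  | zero => simp [eta_zero]
  | succ l ih => rw [eta_succ]; push_cast; rw [ih, cast_inc]; ring
  | pred l ih => rw [eta_pred]; push_cast; rw [ih, cast_inc]; ring

lemma cast_rho (d : ℕ) (y : A) : ((rho c d y : ℤ) : ZMod 9) = c ((2:ℤ)^d • y) - c y := by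
  induction d generalizing y with
  | zero => simp [rho]
  | succ d ih =>
    rw [rho]; push_cast; rw [ih, cast_inc]
    have : (2:ℤ)^d • (2:ℤ) • y = (2:ℤ)^(d+1) • y := by module
    rw [this]; ring

lemma rho_succ' (d : ℕ) (y : A) :
    rho c (d+1) y = rho c d y + inc c ((2:ℤ)^d • y) ((2:ℤ)^(d+1) • y) := by
  induction d generalizing y with
  | zero => simp [rho]
  | succ d ih =>
    rw [rho, ih, rho]
    have h1 : (2:ℤ)^d • (2:ℤ) • y = (2:ℤ)^(d+1) • y := by module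
    have h2 : (2:ℤ)^(d+1) • (2:ℤ) • y = (2:ℤ)^(d+1+1) • y := by module
    rw [h1, h2]; ring

lemma up_zero (y : A) : up θ 0 y = (2:ℤ) • y := by simp [up]

namespace Good

variable (g : Good θ c Ω)
include g

lemma two_mem {y : A} : (2:ℤ) • y ∈ Ω ↔ y ∈ Ω := by
  rw [← up_zero (θ := θ)]; exact g.upm y 0 (Or.inl rfl)

lemma pow_mem (d : ℕ) {y : A} : (2:ℤ)^d • y ∈ Ω ↔ y ∈ Ω := by
  induction d with
  | zero => simp
  | succ d ih =>
    have : (2:ℤ)^(d+1) • y = (2:ℤ) • (2:ℤ)^d • y := by module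
    rw [this, g.two_mem, ih]

lemma add_one_mem {x : A} : x + θ ∈ Ω ↔ x ∈ Ω := by
  obtain ⟨y, rfl⟩ := g.div x
  have : (2:ℤ) • y + θ = up θ 1 y := by simp [up]
  rw [this, g.upm y 1 (Or.inr rfl), g.two_mem]

lemma add_mem (k : ℤ) {x : A} (hx : x ∈ Ω) : x + k • θ ∈ Ω := by
  induction k using Int.induction_on with
  | zero => simpa
  | succ l ih =>
    have : x + ((l:ℤ) + 1) • θ = x + (l:ℤ) • θ + θ := by module
    rw [this, g.add_one_mem]; exact ih
  | pred l ih =>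
    have : x + (-(l:ℤ)) • θ = x + (-(l:ℤ) - 1) • θ + θ := by module
    rw [this, g.add_one_mem] at ih; exact ih

lemma div_pow (d : ℕ) (x : A) : ∃ y, (2:ℤ)^d • y = x := by
  induction d generalizing x with
  | zero => exact ⟨x, by simp⟩
  | succ d ih =>
    obtain ⟨y, hy⟩ := ih x
    obtain ⟨z, hz⟩ := g.div y
    exact ⟨z, by rw [← hy, ← hz]; module⟩

lemma lip0 {y : A} (hy : y ∈ Ω) : |inc c y ((2:ℤ) • y)| ≤ 1 := by
  rw [← up_zero (θ := θ)]; exact g.lip y hy 0 (Or.inl rfl)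

lemma diag {y : A} (hy : y ∈ Ω) {ε : ℤ} (hε : ε = 0 ∨ ε = 1) :
    inc c y (up θ ε y) = inc c y ((2:ℤ) • y) + eta θ c ε ((2:ℤ) • y) := by
  rcases hε with rfl | rfl
  · simp [up_zero, eta_zero]
  · apply lift9
    · push_cast; rw [cast_inc, cast_inc, cast_eta]; simp [up]
    · have h1 := g.lip y hy 1 (Or.inr rfl)
      have h2 := g.lip0 hy
      have h3 := abs_inc c ((2:ℤ) • y) ((2:ℤ) • y + θ)
      rw [eta_one]
      rw [abs_le] at h1 h2 h3
      rw [abs_lt]; omega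

lemma e_abs {x : A} (hx : x ∈ Ω) : |inc c x (x + θ)| ≤ 2 := by
  obtain ⟨y, rfl⟩ := g.div x
  have hy := g.two_mem.1 hx
  have h0 := g.diag hy (Or.inr rfl)
  rw [eta_one] at h0
  have h1 := g.lip y hy 1 (Or.inr rfl)
  have h2 := g.lip0 hy
  rw [abs_le] at h1 h2 ⊢
  omega

lemma e_abs' (k : ℤ) {x : A} (hx : x ∈ Ω) : |inc c (x + k • θ) (x + (k+1) • θ)| ≤ 2 := by
  have : x + (k+1) • θ = x + k • θ + θ := by module
  rw [this]; exact g.e_abs (g.add_mem k hx)

lemma eta_abs (k : ℤ) {x : A} (hx : x ∈ Ω) : |eta θ c k x| ≤ 2 * |k| := by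
  induction k using Int.induction_on with
  | zero => simp [eta_zero]
  | succ l ih =>
    rw [eta_succ]
    have h := g.e_abs' l hx
    rw [abs_of_nonneg (by positivity : (0:ℤ) ≤ l)] at ih
    rw [abs_of_nonneg (by positivity : (0:ℤ) ≤ l + 1)]
    rw [abs_le] at h ih ⊢
    omega
  | pred l ih =>
    rw [eta_pred]
    have h := g.e_abs' (-(l:ℤ) - 1) hx
    simp only [sub_add_cancel] at h
    rw [abs_of_nonpos (by omega : -(l:ℤ) ≤ 0)] at ih
    rw [abs_of_nonpos (by omega : -(l:ℤ) - 1 ≤ 0)]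
    rw [abs_le] at h ih ⊢
    omega

lemma comm1 {y : A} (hy : y ∈ Ω) :
    inc c y ((2:ℤ) • y) + eta θ c 2 ((2:ℤ) • y)
      = inc c y (y + θ) + inc c (y + θ) ((2:ℤ) • (y + θ)) := by
  apply lift9
  · push_cast; rw [cast_inc, cast_inc, cast_inc, cast_eta]
    have : (2:ℤ) • (y + θ) = (2:ℤ) • y + (2:ℤ) • θ := by module
    rw [this]; ring
  · have h1 := g.lip0 hy
    have h2 := g.eta_abs 2 (g.two_mem.2 hy)
    have h3 := g.e_abs hy
    have h4 := g.lip0 (g.add_one_mem.2 hy)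
    rw [abs_le] at h1 h2 h3 h4
    norm_num at h2
    rw [abs_lt]; omega

lemma comm (k : ℤ) {y : A} (hy : y ∈ Ω) :
    inc c y ((2:ℤ) • y) + eta θ c (2 * k) ((2:ℤ) • y)
      = eta θ c k y + inc c (y + k • θ) ((2:ℤ) • (y + k • θ)) := by
  have step : ∀ k : ℤ, (inc c y ((2:ℤ) • y) + eta θ c (2 * k) ((2:ℤ) • y)
      - (eta θ c k y + inc c (y + k • θ) ((2:ℤ) • (y + k • θ))))
      = (inc c y ((2:ℤ) • y) + eta θ c (2 * (k+1)) ((2:ℤ) • y)
      - (eta θ c (k+1) y + inc c (y + (k+1) • θ) ((2:ℤ) • (y + (k+1) • θ)))) := by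
    intro k
    have h := g.comm1 (g.add_mem k hy)
    have e1 : 2 * (k+1) = 2 * k + 2 := by ring
    have e2 : (2:ℤ) • y + (2 * k) • θ = (2:ℤ) • (y + k • θ) := by module
    have e3 : y + (k+1) • θ = y + k • θ + θ := by module
    rw [e1, eta_add, e2, eta_succ, e3]
    omega
  induction k using Int.induction_on with
  | zero => simp [eta_zero]
  | succ l ih => have := step l; omega
  | pred l ih =>
    have := step (-(l:ℤ) - 1)
    simp only [sub_add_cancel] at this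
    omega

lemma comm_d (d : ℕ) (k : ℤ) {y : A} (hy : y ∈ Ω) :
    rho c d y + eta θ c (2^d * k) ((2:ℤ)^d • y) = eta θ c k y + rho c d (y + k • θ) := by
  induction d generalizing y k with
  | zero => simp [rho]
  | succ d ih =>
    have h1 := ih (2 * k) (g.two_mem.2 hy)
    have h2 := g.comm k hy
    have e1 : (2:ℤ)^d * (2 * k) = 2^(d+1) * k := by ring
    have e2 : (2:ℤ)^d • (2:ℤ) • y = (2:ℤ)^(d+1) • y := by module
    have e3 : (2:ℤ) • y + (2 * k) • θ = (2:ℤ) • (y + k • θ) := by module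
    rw [e1, e2, e3] at h1
    rw [rho, rho]
    omega

lemma rho_up (d : ℕ) {y : A} (hy : y ∈ Ω) {ε : ℤ} (hε : ε = 0 ∨ ε = 1) :
    rho c (d+1) y + eta θ c (2^d * ε) ((2:ℤ)^(d+1) • y)
      = inc c y (up θ ε y) + rho c d (up θ ε y) := by
  have h1 := g.comm_d d ε (g.two_mem.2 hy)
  have h2 := g.diag hy hε
  have e2 : (2:ℤ)^d • (2:ℤ) • y = (2:ℤ)^(d+1) • y := by module
  rw [e2] at h1
  rw [rho]
  unfold up at h2 ⊢
  omega

lemma cone (d : ℕ) {y : A} (hy : y ∈ Ω) {r : ℤ} (h0 : 0 ≤ r) (h1 : r < 2^d) :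
    |rho c d y + eta θ c r ((2:ℤ)^d • y)| ≤ d := by
  induction d generalizing y r with
  | zero =>
    have : r = 0 := by omega
    subst this; simp [rho, eta_zero]
  | succ d ih =>
    obtain ⟨ε, hε, r', hr, hr0, hr1⟩ : ∃ ε : ℤ, (ε = 0 ∨ ε = 1) ∧ ∃ r' : ℤ,
        r = 2^d * ε + r' ∧ 0 ≤ r' ∧ r' < 2^d := by
      by_cases h : r < 2^d
      · exact ⟨0, Or.inl rfl, r, by ring, h0, h⟩
      · refine ⟨1, Or.inr rfl, r - 2^d, by ring, by omega, ?_⟩
        rw [pow_succ] at h1; omega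
    have h2 := g.rho_up d hy hε
    have h3 := ih ((g.upm y ε hε).2 hy) hr0 hr1
    have h4 := g.lip y hy ε hε
    have e : (2:ℤ)^(d+1) • y + (2^d * ε) • θ = (2:ℤ)^d • up θ ε y := by unfold up; module
    rw [hr, eta_add, e]
    rw [abs_le] at h3 h4 ⊢
    push_cast
    omega

end Good

end Pool.Agent.H466Z.MT
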