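import Mathlib

/-! Measured graphs, the mass transport principle and LCL problems. -/

open MeasureTheory
open scoped ENNReal

namespace Pool.Agent.H466Z.MT

/-- A finite rooted graph with vertex labels in `Λ`. -/
structure RootedGraph (Λ : Type) where
  n : ℕ
  graph : SimpleGraph (Fin n)
  root : Fin n
  label : Fin n → Λ

/-- An LCL problem for graphs of maximum degree at most `Δ`: a finite label set, a radius `r`, and
a set of rooted labelled graphs of radius at most `r` and degree at most `Δ`. -/
structure LCL (Δ : ℕ) where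
  Λ : Type
  finite : Finite Λ
  r : ℕ
  P : Set (RootedGraph Λ)
  radius_le : ∀ B ∈ P, ∀ b, B.graph.edist B.root b ≤ r
  degree_le : ∀ B ∈ P, ∀ b, (B.graph.neighborSet b).encard ≤ Δ

/-- The labelling `c` of `G` satisfies the LCL at `v`: the labelled rooted `r`-ball around `v`
(the subgraph induced on the vertices at distance at most `r`) is isomorphic to a member of `P`. -/
def LCL.SatAt {Δ : ℕ} (L : LCL Δ) {V : Type} (G : SimpleGraph V) (c : V → L.Λ) (v : V) : Prop :=
  ∃ B ∈ L.P, ∃ φ : B.graph ≃g G.induce {y | G.edist v y ≤ L.r},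
    (φ B.root : V) = v ∧ ∀ b, B.label b = c (φ b)

/-- A measured graph: a Borel graph of degree at most `Δ` on a standard Borel space with a Borel
probability measure that is quasi-invariant for the connectedness relation. -/
structure MeasuredGraph (Δ : ℕ) where
  X : Type
  [mX : MeasurableSpace X]
  [sb : StandardBorelSpace X]
  μ : Measure X
  [prob : IsProbabilityMeasure μ]
  G : SimpleGraph X
  borel : MeasurableSet {p : X × X | G.Adj p.1 p.2}
  degree_le : ∀ x, (G.neighborSet x).encard ≤ Δ
  quasi : ∀ S : Set X, μ S = 0 → μ {x | ∃ y ∈ S, G.Reachable y x} = 0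

attribute [instance] MeasuredGraph.mX MeasuredGraph.sb MeasuredGraph.prob

/-- The mass transport principle. -/
def MeasuredGraph.MTP {Δ : ℕ} (M : MeasuredGraph Δ) : Prop :=
  ∀ f : M.X × M.X → ℝ≥0∞, Measurable f →
    ∫⁻ x, ∑' y : {y // M.G.Reachable x y}, f (x, y) ∂M.μ
      = ∫⁻ x, ∑' y : {y // M.G.Reachable x y}, f (y, x) ∂M.μ

/-- The LCL is solvable on `M`: some Borel labelling satisfies it at almost every vertex. -/
def LCL.SolvableOn {Δ : ℕ} (L : LCL Δ) (M : MeasuredGraph Δ) : Prop :=
  ∃ c : M.X → L.Λ, (∀ l, MeasurableSet (c ⁻¹' {l})) ∧ ∀ᵐ x ∂M.μ, L.SatAt M.G c x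

end Pool.Agent.H466Z.MT
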