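import Pool.Agent.H466Z.MTRay
import Pool.Agent.H466Z.MTBorel

/-! The three-sorted graph over an abelian group with a rotation and the doubling map. -/

namespace Pool.Agent.H466Z.MT

variable {A : Type} [AddCommGroup A]

def cE (θ : A) (a b : A × Fin 3) : Prop :=
  (a.2 = 0 ∧ b.2 = 1 ∧ b.1 = a.1) ∨ (a.2 = 1 ∧ b.2 = 2 ∧ b.1 = (2:ℤ) • a.1) ∨
    (a.2 = 2 ∧ b.2 = 0 ∧ (b.1 = a.1 ∨ b.1 = a.1 + θ))

def cG (θ : A) : SimpleGraph (A × Fin 3) where
  Adj a b := cE θ a b ∨ cE θ b a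
  symm := ⟨fun _ _ h => h.symm⟩
  loopless := ⟨fun a h => by
    rcases h with (h | h | h) | (h | h | h) <;> exact absurd (h.1.symm.trans h.2.1) (by decide)⟩

structure Par (θ η : A) : Prop where
  th : θ ≠ 0
  ne : η ≠ 0
  two : ∀ δ : A, (2:ℤ) • δ = 0 ↔ δ = 0 ∨ δ = η
  div : ∀ x : A, ∃ y, (2:ℤ) • y = x

variable {θ η : A}

lemma adj0 (x : A) (b : A × Fin 3) :
    (cG θ).Adj (x, 0) b ↔ b = (x, 1) ∨ b = (x, 2) ∨ b = (x - θ, 2) := by
  obtain ⟨y, s⟩ := b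
  fin_cases s <;> simp [cG, cE, eq_sub_iff_add_eq, eq_comm]

lemma adj1 (x : A) (b : A × Fin 3) :
    (cG θ).Adj (x, 1) b ↔ b = (x, 0) ∨ b = ((2:ℤ) • x, 2) := by
  obtain ⟨y, s⟩ := b
  fin_cases s <;> simp [cG, cE, eq_comm]

lemma adj2 (x : A) (b : A × Fin 3) :
    (cG θ).Adj (x, 2) b ↔ b = (x, 0) ∨ b = (x + θ, 0) ∨ (b.2 = 1 ∧ (2:ℤ) • b.1 = x) := by
  obtain ⟨y, s⟩ := b
  fin_cases s <;> simp [cG, cE, eq_comm]

namespace Par

variable (P : Par θ η)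
include P

lemma fib {y z : A} : (2:ℤ) • z = (2:ℤ) • y ↔ z = y ∨ z = y + η := by
  rw [← sub_eq_zero, ← smul_sub, P.two, sub_eq_zero, sub_eq_iff_eq_add']

lemma dg0 (x : A) : dg (cG θ) (x, 0) = 3 := by
  have : (cG θ).neighborSet (x, 0) = {(x, 1), (x, 2), (x - θ, 2)} := by
    ext b; simp [adj0]
  unfold dg
  rw [this, Set.encard_eq_three]
  refine ⟨_, _, _, by simp, by simp, ?_, rfl⟩
  simpa [eq_sub_iff_add_eq] using P.th

omit P in
lemma dg1 (x : A) : dg (cG θ) (x, 1) = 2 := by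
  have : (cG θ).neighborSet (x, 1) = {(x, 0), ((2:ℤ) • x, 2)} := by
    ext b; simp [adj1]
  unfold dg
  rw [this, Set.encard_pair (by simp)]

lemma dg2 (x : A) : dg (cG θ) (x, 2) = 4 := by
  obtain ⟨y, rfl⟩ := P.div x
  have : (cG θ).neighborSet ((2:ℤ) • y, 2)
      = {((2:ℤ) • y, 0), ((2:ℤ) • y + θ, 0), (y, 1), (y + η, 1)} := by
    ext ⟨z, s⟩
    simp only [SimpleGraph.mem_neighborSet, adj2, P.fib, Set.mem_insert_iff,
      Set.mem_singleton_iff, Prod.mk.injEq]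
    tauto
  unfold dg
  rw [this, Set.encard_insert_of_notMem (by simpa using P.th),
    Set.encard_insert_of_notMem (by simp), Set.encard_pair (by simpa using P.ne)]
  rfl

lemma deg_le (a : A × Fin 3) : ((cG θ).neighborSet a).encard ≤ (4:ℕ) := by
  obtain ⟨x, s⟩ := a
  fin_cases s
  · exact (P.dg0 x).le.trans (by norm_num)
  · exact (dg1 x).le.trans (by norm_num)
  · exact (P.dg2 x).le

lemma of3 {a : A × Fin 3} (h : dg (cG θ) a = 3) : a.2 = 0 := by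
  obtain ⟨x, s⟩ := a
  fin_cases s
  · rfl
  · exact absurd ((dg1 x).symm.trans h) (by decide)
  · exact absurd ((P.dg2 x).symm.trans h) (by decide)

lemma rel_iff (a b : A × Fin 3) : Rel (cG θ) a b ↔
    a.2 = 0 ∧ b.2 = 0 ∧ ∃ ε : ℤ, (ε = 0 ∨ ε = 1) ∧ b.1 = up θ ε a.1 := by
  obtain ⟨x, s⟩ := a
  obtain ⟨y, t⟩ := b
  constructor
  · rintro ⟨h1, h2, v, ⟨u, h3, h4, h5⟩, h6, h7⟩
    obtain rfl : s = 0 := P.of3 h1
    obtain rfl : t = 0 := P.of3 h2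
    refine ⟨rfl, rfl, ?_⟩
    rcases (adj0 _ _).1 h3 with rfl | rfl | rfl
    · rcases (adj1 _ _).1 h5 with rfl | rfl
      · exact absurd ((P.dg0 x).symm.trans h6) (by decide)
      · rcases (adj2 _ _).1 h7 with h | h | h
        · exact ⟨0, Or.inl rfl, by simpa [up] using h⟩
        · exact ⟨1, Or.inr rfl, by simpa [up] using h⟩
        · exact absurd h.1 (by simp)
    · exact absurd ((P.dg2 _).symm.trans h4) (by decide)
    · exact absurd ((P.dg2 _).symm.trans h4) (by decide)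
  · rintro ⟨(rfl : s = 0), (rfl : t = 0), ε, hε, (rfl : y = _)⟩
    refine ⟨P.dg0 _, P.dg0 _, ((2:ℤ) • x, 2), ⟨(x, 1), (adj0 _ _).2 (Or.inl rfl), dg1 _,
      (adj1 _ _).2 (Or.inr rfl)⟩, P.dg2 _, (adj2 _ _).2 ?_⟩
    rcases hε with rfl | rfl <;> simp [up]

lemma gd (x : A) : Gd (cG θ) (x, 0) := by
  have h1 : {b | Rel (cG θ) (x, 0) b}.encard ≤ 2 := by
    refine le_trans (Set.encard_le_encard (t := {(up θ 0 x, 0), (up θ 1 x, 0)}) ?_)
      ((Set.encard_insert_le _ _).trans (by simp; norm_num))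
    rintro ⟨y, t⟩ hb
    obtain ⟨-, (rfl : t = 0), ε, rfl | rfl, (rfl : y = _)⟩ := (P.rel_iff _ _).1 hb <;> simp
  obtain ⟨y, hy⟩ := P.div x
  obtain ⟨z, hz⟩ := P.div (x - θ)
  have h2 : (3 : ℕ∞) ≤ {b | Rel (cG θ) b (x, 0)}.encard := by
    have hη : (2:ℤ) • (y + η) = x := by rw [← hy, P.fib]; exact Or.inr rfl
    have a1 : ∀ w : A, (2:ℤ) • w = x → w ≠ z := by
      rintro w hw rfl
      rw [hw, eq_sub_iff_add_eq] at hz
      exact P.th (by simpa using hz)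
    have : ({(y, 0), (y + η, 0), (z, 0)} : Set (A × Fin 3)).encard = 3 :=
      Set.encard_eq_three.2 ⟨_, _, _, by simpa using P.ne, by simpa using a1 y hy,
        by simpa using a1 _ hη, rfl⟩
    rw [← this]
    apply Set.encard_le_encard
    rintro b (rfl | rfl | rfl)
    · exact (P.rel_iff _ _).2 ⟨rfl, rfl, 0, Or.inl rfl, by simp [up, hy]⟩
    · exact (P.rel_iff _ _).2 ⟨rfl, rfl, 0, Or.inl rfl, by simp only [up, hη]; simp⟩
    · exact (P.rel_iff _ _).2 ⟨rfl, rfl, 1, Or.inr rfl, by simp [up, hz]⟩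
  exact lt_of_le_of_lt h1 (lt_of_lt_of_le (by norm_num) h2)

lemma good {c : A × Fin 3 → ZMod 9} {W : Set (A × Fin 3)}
    (hW : ∀ a b, (cG θ).Reachable a b → a ∈ W → b ∈ W) (hc : ∀ a ∈ W, Pred (cG θ) c a) :
    Good θ (fun x => c (x, 0)) {x | (x, 0) ∈ W} where
  div := P.div
  upm := fun y ε hε => by
    have h := rel_reach ((P.rel_iff (y, 0) (up θ ε y, 0)).2 ⟨rfl, rfl, ε, hε, rfl⟩)
    exact ⟨hW _ _ h.symm, hW _ _ h⟩
  lip := fun y hy ε hε => by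
    have h := (hc _ hy).1 _ ((P.rel_iff (y, 0) (up θ ε y, 0)).2 ⟨rfl, rfl, ε, hε, rfl⟩)
    unfold inc
    dsimp only
    rcases h with h | h | h
    · rw [h, sub_sub_cancel_left]; decide
    · rw [h, sub_self]; decide
    · rw [h, add_sub_cancel_left]; decide
  ptr := fun x hx => by
    obtain ⟨⟨y, t⟩, h | h, h2⟩ := (hc _ hx).2 (P.gd x)
    · obtain ⟨-, (rfl : t = 0), ε, hε, h3⟩ := (P.rel_iff _ _).1 h
      exact ⟨y, h2, ε, hε, Or.inl h3⟩
    · obtain ⟨(rfl : t = 0), -, ε, hε, h3⟩ := (P.rel_iff _ _).1 h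
      exact ⟨y, h2, ε, hε, Or.inr h3⟩

end Par

def setA (θ : A) (c : A → ZMod 9) (κ : ZMod 9) : Set A := {w | ∃ M, IsMaxA θ c w M ∧ c w + M = κ}

def setB (c : A → ZMod 9) (κ : ZMod 9) : Set A := {w | ∃ M, IsMaxB c w M ∧ c w + M = κ}

lemma transA {c : A → ZMod 9} {κ : ZMod 9} {w : A} (k : ℤ) (h : w ∈ setA θ c κ) :
    w + k • θ ∈ setA θ c κ := by
  obtain ⟨M, ⟨h1, l, h2⟩, h3⟩ := h
  refine ⟨M - eta θ c k w, ⟨fun j => ?_, l - k, ?_⟩, ?_⟩
  · have := h1 (k + j)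
    rw [eta_add] at this
    omega
  · have := eta_add (θ := θ) (c := c) k (l - k) w
    rw [add_sub_cancel] at this
    omega
  · push_cast
    rw [cast_eta, ← h3]; ring

lemma transB {c : A → ZMod 9} {κ : ZMod 9} {w δ : A} {i : ℕ} (hδ : (2:ℤ)^i • δ = 0)
    (h : w ∈ setB c κ) : w + δ ∈ setB c κ := by
  obtain ⟨M, ⟨h1, j, δ', hδ', h2⟩, h3⟩ := h
  have key : ∀ (j : ℕ) (δ' : A), (2:ℤ)^j • δ' = 0 →
      kap c (i + j) (δ + δ') w = kap c i δ w + kap c j δ' (w + δ) := by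
    intro j δ' hδ'
    rw [← kap_le (Nat.le_add_right i j) hδ, ← kap_le (Nat.le_add_left j i) hδ']
    unfold kap
    rw [add_assoc]; ring
  refine ⟨M - kap c i δ w, ⟨fun l δ'' hl => ?_, i + j, δ' - δ, ?_, ?_⟩, ?_⟩
  · have a1 := key l δ'' hl
    have a2 := h1 (i + l) (δ + δ'') (by
      rw [smul_add, pow_le_zero (Nat.le_add_right i l) hδ, pow_le_zero (Nat.le_add_left l i) hl,
        add_zero])
    omega
  · rw [smul_sub, pow_le_zero (Nat.le_add_right i j) hδ, pow_le_zero (Nat.le_add_left j i) hδ',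
      sub_zero]
  · have a0 : (2:ℤ)^(i+j) • (δ' - δ) = 0 := by
      rw [smul_sub, pow_le_zero (Nat.le_add_right i j) hδ, pow_le_zero (Nat.le_add_left j i) hδ',
        sub_zero]
    have a1 := key (i + j) (δ' - δ) a0
    rw [add_sub_cancel, kap_le (show j ≤ i + (i + j) by omega) hδ'] at a1
    omega
  · push_cast
    rw [cast_kap hδ, ← h3]; ring

end Pool.Agent.H466Z.MT
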