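import Pool.Agent.H466Z.MTDefs

/-! The LCL: distance to a local violation of mass transport, modulo 9. -/

namespace Pool.Agent.H466Z.MT

open SimpleGraph

noncomputable def dg {V : Type} (G : SimpleGraph V) (x : V) : ℕ∞ := (G.neighborSet x).encard

def Rel {V : Type} (G : SimpleGraph V) (x y : V) : Prop :=
  dg G x = 3 ∧ dg G y = 3 ∧ ∃ v, (∃ u, G.Adj x u ∧ dg G u = 2 ∧ G.Adj u v) ∧ dg G v = 4 ∧ G.Adj v y

def Gd {V : Type} (G : SimpleGraph V) (x : V) : Prop :=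
  {y | Rel G x y}.encard < {y | Rel G y x}.encard

def Pred {V : Type} (G : SimpleGraph V) (c : V → ZMod 9) (x : V) : Prop :=
  (∀ y, Rel G x y → c y = c x - 1 ∨ c y = c x ∨ c y = c x + 1) ∧
    (Gd G x → ∃ y, (Rel G x y ∨ Rel G y x) ∧ c y = c x - 1)

def theLCL (Δ : ℕ) : LCL Δ where
  Λ := ZMod 9
  finite := inferInstance
  r := 4
  P := {B | Pred B.graph B.label B.root ∧ (∀ b, B.graph.edist B.root b ≤ (4:ℕ)) ∧
    ∀ b, (B.graph.neighborSet b).encard ≤ Δ}
  radius_le := fun _ h => h.2.1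
  degree_le := fun _ h => h.2.2

section transfer

variable {V W : Type} {G : SimpleGraph V} {H : SimpleGraph W} {f : W → V} {In : ℕ → W → Prop}
  {ρ : W}

structure Emb (G : SimpleGraph V) (H : SimpleGraph W) (f : W → V) (In : ℕ → W → Prop) (ρ : W) :
    Prop where
  inj : Function.Injective f
  adj : ∀ a b, G.Adj (f a) (f b) ↔ H.Adj a b
  zero : In 0 ρ
  ext : ∀ k < 4, ∀ b, In k b → ∀ y, G.Adj (f b) y → ∃ b', f b' = y ∧ In (k+1) b'

namespace Emb

variable (e : Emb G H f In ρ)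
include e

lemma nxt {k : ℕ} (hk : k < 4) {a b : W} (ha : In k a) (h : H.Adj a b) : In (k+1) b := by
  obtain ⟨b', h1, h2⟩ := e.ext k hk a ha (f b) ((e.adj a b).2 h)
  rwa [← e.inj h1]

lemma dg_eq {k : ℕ} (hk : k < 4) {b : W} (hb : In k b) : dg G (f b) = dg H b := by
  have : G.neighborSet (f b) = f '' H.neighborSet b := by
    ext y
    simp only [mem_neighborSet, Set.mem_image]
    constructor
    · intro h
      obtain ⟨b', rfl, -⟩ := e.ext k hk b hb y h
      exact ⟨b', (e.adj _ _).1 h, rfl⟩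
    · rintro ⟨b', h, rfl⟩
      exact (e.adj _ _).2 h
  unfold dg
  rw [this, e.inj.encard_image]

lemma rel_out (y : V) : Rel G (f ρ) y ↔ ∃ b, f b = y ∧ Rel H ρ b := by
  constructor
  · rintro ⟨h1, h2, v, ⟨u, h3, h4, h5⟩, h6, h7⟩
    obtain ⟨u, rfl, hu⟩ := e.ext 0 (by norm_num) ρ e.zero u h3
    obtain ⟨v, rfl, hv⟩ := e.ext 1 (by norm_num) u hu v h5
    obtain ⟨y, rfl, hy⟩ := e.ext 2 (by norm_num) v hv y h7
    rw [e.dg_eq (by norm_num) e.zero] at h1
    rw [e.dg_eq (by norm_num) hy] at h2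
    rw [e.dg_eq (by norm_num) hu] at h4
    rw [e.dg_eq (by norm_num) hv] at h6
    exact ⟨y, rfl, h1, h2, v, ⟨u, (e.adj _ _).1 h3, h4, (e.adj _ _).1 h5⟩, h6, (e.adj _ _).1 h7⟩
  · rintro ⟨y, rfl, h1, h2, v, ⟨u, h3, h4, h5⟩, h6, h7⟩
    have hu := e.nxt (by norm_num) e.zero h3
    have hv := e.nxt (by norm_num) hu h5
    have hy := e.nxt (by norm_num) hv h7
    rw [← e.dg_eq (by norm_num) e.zero] at h1
    rw [← e.dg_eq (by norm_num) hy] at h2
    rw [← e.dg_eq (by norm_num) hu] at h4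
    rw [← e.dg_eq (by norm_num) hv] at h6
    exact ⟨h1, h2, f v, ⟨f u, (e.adj _ _).2 h3, h4, (e.adj _ _).2 h5⟩, h6, (e.adj _ _).2 h7⟩

lemma rel_in (y : V) : Rel G y (f ρ) ↔ ∃ b, f b = y ∧ Rel H b ρ := by
  constructor
  · rintro ⟨h1, h2, v, ⟨u, h3, h4, h5⟩, h6, h7⟩
    obtain ⟨v, rfl, hv⟩ := e.ext 0 (by norm_num) ρ e.zero v h7.symm
    obtain ⟨u, rfl, hu⟩ := e.ext 1 (by norm_num) v hv u h5.symm
    obtain ⟨y, rfl, hy⟩ := e.ext 2 (by norm_num) u hu y h3.symm
    rw [e.dg_eq (by norm_num) e.zero] at h2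
    rw [e.dg_eq (by norm_num) hy] at h1
    rw [e.dg_eq (by norm_num) hu] at h4
    rw [e.dg_eq (by norm_num) hv] at h6
    exact ⟨y, rfl, h1, h2, v, ⟨u, (e.adj _ _).1 h3, h4, (e.adj _ _).1 h5⟩, h6, (e.adj _ _).1 h7⟩
  · rintro ⟨y, rfl, h1, h2, v, ⟨u, h3, h4, h5⟩, h6, h7⟩
    have hv := e.nxt (by norm_num) e.zero h7.symm
    have hu := e.nxt (by norm_num) hv h5.symm
    have hy := e.nxt (by norm_num) hu h3.symm
    rw [← e.dg_eq (by norm_num) e.zero] at h2
    rw [← e.dg_eq (by norm_num) hy] at h1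
    rw [← e.dg_eq (by norm_num) hu] at h4
    rw [← e.dg_eq (by norm_num) hv] at h6
    exact ⟨h1, h2, f v, ⟨f u, (e.adj _ _).2 h3, h4, (e.adj _ _).2 h5⟩, h6, (e.adj _ _).2 h7⟩

lemma gd_iff : Gd G (f ρ) ↔ Gd H ρ := by
  have h1 : {y | Rel G (f ρ) y} = f '' {b | Rel H ρ b} := by
    ext y; simp only [Set.mem_ofPred_eq, Set.mem_image, e.rel_out]; tauto
  have h2 : {y | Rel G y (f ρ)} = f '' {b | Rel H b ρ} := by
    ext y; simp only [Set.mem_ofPred_eq, Set.mem_image, e.rel_in]; tauto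
  unfold Gd
  rw [h1, h2, e.inj.encard_image, e.inj.encard_image]

lemma pred_iff (c : V → ZMod 9) : Pred G c (f ρ) ↔ Pred H (fun b => c (f b)) ρ := by
  unfold Pred
  rw [e.gd_iff]
  simp only [e.rel_out, e.rel_in]
  constructor
  · rintro ⟨h1, h2⟩
    refine ⟨fun b hb => h1 _ ⟨b, rfl, hb⟩, fun h => ?_⟩
    obtain ⟨y, ⟨b, rfl, hb⟩ | ⟨b, rfl, hb⟩, h3⟩ := h2 h
    · exact ⟨b, Or.inl hb, h3⟩
    · exact ⟨b, Or.inr hb, h3⟩
  · rintro ⟨h1, h2⟩
    refine ⟨?_, fun h => ?_⟩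
    · rintro y ⟨b, rfl, hb⟩
      exact h1 b hb
    · obtain ⟨b, hb | hb, h3⟩ := h2 h
      · exact ⟨f b, Or.inl ⟨b, rfl, hb⟩, h3⟩
      · exact ⟨f b, Or.inr ⟨b, rfl, hb⟩, h3⟩

end Emb

end transfer

lemma edist_succ {V : Type} {G : SimpleGraph V} {v a b : V} {k : ℕ} (h : G.edist v a ≤ k)
    (hab : G.Adj a b) : G.edist v b ≤ (k + 1 : ℕ) := by
  calc G.edist v b ≤ G.edist v a + G.edist a b := SimpleGraph.edist_triangle
    _ ≤ k + 1 := add_le_add h (SimpleGraph.edist_eq_one_iff_adj.2 hab).le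
    _ = _ := by push_cast; rfl

lemma edist_pred {V : Type} {G : SimpleGraph V} {v b : V} {k : ℕ}
    (h : G.edist v b ≤ (k + 1 : ℕ)) : b = v ∨ ∃ a, G.edist v a ≤ k ∧ G.Adj a b := by
  have hne : G.edist b v ≠ ⊤ := by
    rw [SimpleGraph.edist_comm]; exact ne_top_of_le_ne_top (ENat.natCast_ne_top _) h
  obtain ⟨p, hp⟩ := SimpleGraph.exists_walk_of_edist_ne_top hne
  rw [SimpleGraph.edist_comm] at hp
  cases p with
  | nil => exact Or.inl rfl
  | cons hadj q =>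
    refine Or.inr ⟨_, ?_, hadj.symm⟩
    rw [SimpleGraph.edist_comm]
    refine (SimpleGraph.edist_le q).trans ?_
    rw [← hp, SimpleGraph.Walk.length_cons] at h
    have : q.length + 1 ≤ k + 1 := by exact_mod_cast h
    exact_mod_cast (by omega : q.length ≤ k)

lemma emb_of_iso {V W : Type} {G : SimpleGraph V} {H : SimpleGraph W} {v : V} {ρ : W}
    (φ : H ≃g G.induce {y | G.edist v y ≤ (4:ℕ)}) (hρ : (φ ρ : V) = v) :
    Emb G H (fun b => (φ b : V)) (fun k b => G.edist v (φ b) ≤ k) ρ where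
  inj := fun a b h => φ.injective (Subtype.ext h)
  adj := fun a b => φ.map_adj_iff
  zero := by simp [hρ]
  ext := by
    intro k hk b hb y hy
    have h1 := edist_succ hb hy
    have h2 : G.edist v y ≤ (4:ℕ) := h1.trans (by exact_mod_cast hk)
    exact ⟨φ.symm ⟨y, h2⟩, by simp, by simpa using h1⟩

lemma pred_of_sat {Δ : ℕ} {V : Type} {G : SimpleGraph V} {c : V → ZMod 9} {v : V}
    (h : (theLCL Δ).SatAt G c v) : Pred G c v := by
  obtain ⟨B, hB, φ, h1, h2⟩ := h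
  have e := emb_of_iso φ h1
  have h3 : B.label = fun b => c (φ b : V) := funext h2
  have h4 : Pred B.graph B.label B.root := hB.1
  rw [h3] at h4
  rw [← h1]
  exact (e.pred_iff c).2 h4

lemma ball_finite {Δ : ℕ} {V : Type} {G : SimpleGraph V}
    (hG : ∀ x, (G.neighborSet x).encard ≤ Δ) (v : V) (k : ℕ) :
    {y | G.edist v y ≤ k}.Finite := by
  induction k with
  | zero =>
    refine (Set.finite_singleton v).subset fun y hy => ?_
    simp only [Set.mem_ofPred_eq, Nat.cast_zero, nonpos_iff_eq_zero,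
      SimpleGraph.edist_eq_zero_iff] at hy
    exact hy.symm
  | succ k ih =>
    refine ((Set.finite_singleton v).union (ih.biUnion fun a _ =>
      Set.finite_of_encard_le_coe (hG a))).subset fun y hy => ?_
    rcases edist_pred hy with h | ⟨a, h1, h2⟩
    · exact Or.inl h
    · exact Or.inr (Set.mem_biUnion h1 h2)

lemma sat_of_pred {Δ : ℕ} {V : Type} {G : SimpleGraph V}
    (hG : ∀ x, (G.neighborSet x).encard ≤ Δ) {c : V → ZMod 9} {v : V}
    (h : Pred G c v) : (theLCL Δ).SatAt G c v := by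
  have : Finite {y | G.edist v y ≤ (4:ℕ)} := ball_finite hG v 4
  let e := (Finite.equivFin {y | G.edist v y ≤ (4:ℕ)}).symm
  let φ := SimpleGraph.Iso.comap e (G.induce {y | G.edist v y ≤ (4:ℕ)})
  let ρ := φ.symm ⟨v, by simp⟩
  have hρ : (φ ρ : V) = v := congrArg Subtype.val (φ.apply_symm_apply _)
  have em := emb_of_iso φ hρ
  refine ⟨⟨_, _, ρ, fun b => c (φ b)⟩, ⟨?_, ?_, ?_⟩, φ, hρ, fun _ => rfl⟩
  · exact (em.pred_iff c).1 (by rwa [hρ])
  · have key : ∀ k : ℕ, k ≤ 4 → ∀ b, G.edist v (φ b) ≤ k →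
        ((G.induce {y | G.edist v y ≤ (4:ℕ)}).comap e.toEmbedding).edist ρ b ≤ k := by
      intro k
      induction k with
      | zero =>
        intro _ b hb
        simp only [Nat.cast_zero, nonpos_iff_eq_zero, SimpleGraph.edist_eq_zero_iff] at hb ⊢
        exact em.inj (hρ.trans hb)
      | succ k ih =>
        intro hk b hb
        rcases edist_pred hb with h1 | ⟨a, h1, h2⟩
        · have : b = ρ := em.inj (h1.trans hρ.symm)
          simp [this]
        · have h3 : G.edist v a ≤ (4:ℕ) := h1.trans (by exact_mod_cast (by omega : k ≤ 4))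
          have h4 : (φ (φ.symm ⟨a, h3⟩) : V) = a := congrArg Subtype.val (φ.apply_symm_apply _)
          refine edist_succ (ih (by omega) (φ.symm ⟨a, h3⟩) (by rw [h4]; exact h1)) ?_
          exact (em.adj _ _).1 (by rw [h4]; exact h2)
    exact fun b => key 4 le_rfl b (φ b).2
  · intro b
    refine le_trans ?_ (hG (φ b))
    rw [← em.inj.encard_image]
    apply Set.encard_le_encard
    rintro y ⟨b', hb', rfl⟩
    exact (em.adj _ _).2 hb'

end Pool.Agent.H466Z.MT
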