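import Pool.Agent.H466Z.MTCore

/-! Descending rays and the two rigidity arguments. -/

namespace Pool.Agent.H466Z.MT

variable {A : Type*} [AddCommGroup A]

structure Ray (θ : A) (c : A → ZMod 9) (Ω : Set A) where
  x : ℕ → A
  h : ℕ → ℤ
  mem : ∀ n, x n ∈ Ω
  lab : ∀ n, c (x (n+1)) = c (x n) - 1
  step : ∀ n, ∃ ε : ℤ, (ε = 0 ∨ ε = 1) ∧
    ((x (n+1) = up θ ε (x n) ∧ h (n+1) = h n + 1) ∨ (x n = up θ ε (x (n+1)) ∧ h (n+1) = h n - 1))

def kap (c : A → ZMod 9) (i : ℕ) (δ w : A) : ℤ := rho c i w - rho c i (w + δ)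

def IsMaxA (θ : A) (c : A → ZMod 9) (w : A) (M : ℤ) : Prop :=
  (∀ k, eta θ c k w ≤ M) ∧ ∃ k, eta θ c k w = M

def IsMaxB (c : A → ZMod 9) (w : A) (M : ℤ) : Prop :=
  (∀ (i : ℕ) (δ : A), (2:ℤ)^i • δ = 0 → kap c i δ w ≤ M) ∧
    ∃ (i : ℕ) (δ : A), (2:ℤ)^i • δ = 0 ∧ kap c i δ w = M

variable {θ : A} {c : A → ZMod 9} {Ω : Set A}

lemma Ray.inc_fwd (R : Ray θ c Ω) (n : ℕ) : inc c (R.x n) (R.x (n+1)) = -1 := by
  unfold inc
  rw [R.lab, sub_sub_cancel_left]; decide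

lemma Ray.inc_bwd (R : Ray θ c Ω) (n : ℕ) : inc c (R.x (n+1)) (R.x n) = 1 := by
  unfold inc
  rw [R.lab, sub_sub_cancel]; decide

lemma kap_succ {i : ℕ} {δ : A} (hδ : (2:ℤ)^i • δ = 0) (w : A) :
    kap c (i+1) δ w = kap c i δ w := by
  unfold kap
  rw [rho_succ', rho_succ']
  have h1 : (2:ℤ)^i • (w + δ) = (2:ℤ)^i • w := by rw [smul_add, hδ, add_zero]
  have h2 : (2:ℤ)^(i+1) • (w + δ) = (2:ℤ)^(i+1) • w := by
    have : (2:ℤ)^(i+1) • δ = (2:ℤ) • (2:ℤ)^i • δ := by module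
    rw [smul_add, this, hδ, smul_zero, add_zero]
  rw [h1, h2]; ring

lemma pow_succ_zero {i : ℕ} {δ : A} (hδ : (2:ℤ)^i • δ = 0) : (2:ℤ)^(i+1) • δ = 0 := by
  have : (2:ℤ)^(i+1) • δ = (2:ℤ) • (2:ℤ)^i • δ := by module
  rw [this, hδ, smul_zero]

lemma pow_le_zero {i j : ℕ} (hij : i ≤ j) {δ : A} (hδ : (2:ℤ)^i • δ = 0) : (2:ℤ)^j • δ = 0 := by
  induction hij with
  | refl => exact hδ
  | step _ ih => exact pow_succ_zero ih

lemma kap_le {i j : ℕ} (hij : i ≤ j) {δ : A} (hδ : (2:ℤ)^i • δ = 0) (w : A) :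
    kap c j δ w = kap c i δ w := by
  induction hij with
  | refl => rfl
  | step h ih => rw [kap_succ (pow_le_zero h hδ), ih]

lemma cast_kap {i : ℕ} {δ : A} (hδ : (2:ℤ)^i • δ = 0) (w : A) :
    ((kap c i δ w : ℤ) : ZMod 9) = c (w + δ) - c w := by
  unfold kap
  push_cast
  rw [cast_rho, cast_rho, smul_add, hδ, add_zero]; ring

lemma rho_add (i j : ℕ) (y : A) : rho c (i + j) y = rho c i y + rho c j ((2:ℤ)^i • y) := by
  induction j with
  | zero => simp [rho]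
  | succ j ih =>
    rw [← add_assoc, rho_succ', rho_succ', ih]
    have h1 : (2:ℤ)^j • (2:ℤ)^i • y = (2:ℤ)^(i+j) • y := by module
    have h2 : (2:ℤ)^(j+1) • (2:ℤ)^i • y = (2:ℤ)^(i+j+1) • y := by module
    rw [h1, h2]; ring

namespace Good

variable (g : Good θ c Ω)
include g

lemma tors_mem {i : ℕ} {δ y : A} (hδ : (2:ℤ)^i • δ = 0) (hy : y ∈ Ω) : y + δ ∈ Ω := by
  rw [← g.pow_mem i, smul_add, hδ, add_zero, g.pow_mem]; exact hy

lemma kap_up {e : ℕ} {δ y : A} (hδ : (2:ℤ)^(e+1) • δ = 0) (hy : y ∈ Ω) {ε : ℤ}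
    (hε : ε = 0 ∨ ε = 1) :
    kap c (e+1) δ y = inc c y (up θ ε y) - inc c (y + δ) (up θ ε (y + δ))
      + kap c e ((2:ℤ) • δ) (up θ ε y) := by
  have h1 := g.rho_up e hy hε
  have h2 := g.rho_up e (g.tors_mem hδ hy) hε
  have e1 : (2:ℤ)^(e+1) • (y + δ) = (2:ℤ)^(e+1) • y := by rw [smul_add, hδ, add_zero]
  have e2 : up θ ε y + (2:ℤ) • δ = up θ ε (y + δ) := by unfold up; module
  rw [e1] at h2
  unfold kap
  rw [e2]
  omega

lemma ray_up (R : Ray θ c Ω) (m : ℕ) : ∀ (a e : ℕ) (δ : A), R.h a + e ≤ R.h (a + m) →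
    (2:ℤ)^e • δ = 0 → kap c e δ (R.x a) ≤ 0 := by
  induction m with
  | zero =>
    intro a e δ h _
    have : e = 0 := by simp at h; omega
    subst this; simp [kap, rho]
  | succ m ih =>
    intro a e δ h hδ
    have ea : a + (m+1) = a + 1 + m := by ring
    rw [ea] at h
    obtain ⟨ε, hε, ⟨hx, hh⟩ | ⟨hx, hh⟩⟩ := R.step a
    · rcases e with _ | e
      · simp [kap, rho]
      · have h1 := g.kap_up hδ (R.mem a) hε
        have h2 := ih (a+1) e ((2:ℤ) • δ) (by push_cast at h; omega) (by rw [← hδ]; module)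
        have h3 := g.lip _ (g.tors_mem hδ (R.mem a)) ε hε
        have h4 := R.inc_fwd a
        rw [← hx] at h1
        rw [abs_le] at h3
        omega
    · obtain ⟨δ', rfl⟩ := g.div δ
      have hδ' : (2:ℤ)^(e+1) • δ' = 0 := by rw [← hδ]; module
      have h1 := g.kap_up hδ' (R.mem (a+1)) hε
      have h2 := ih (a+1) (e+1) δ' (by push_cast; omega) hδ'
      have h3 := g.lip _ (g.tors_mem hδ' (R.mem (a+1))) ε hε
      have h4 := R.inc_bwd a
      rw [← hx] at h1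
      rw [abs_le] at h3
      omega

lemma ray_inv (R : Ray θ c Ω) (a : ℕ) (hle : ∀ n, R.h (a + n) ≤ R.h a) (N : ℕ) (n : ℕ)
    (hN : ∀ j ≤ n, R.h a - R.h (a + j) ≤ N) :
    ∃ (d : ℕ) (p : ℤ), (d : ℤ) = R.h a - R.h (a + n) ∧
      (2:ℤ)^d • R.x (a + n) = R.x a + p • θ ∧
      eta θ c p (R.x a) - rho c d (R.x (a + n)) = -n ∧
      2 * |p| ≤ 2 * 2^d + (n - d) * 2^N := by
  induction n with
  | zero => exact ⟨0, 0, by simp, by simp, by simp [eta_zero, rho], by simp⟩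
  | succ n ih =>
    obtain ⟨d, p, hd, hp, he, hb⟩ := ih (fun j hj => hN j (by omega))
    have hdN : d ≤ N := by have := hN n (by omega); omega
    rw [← add_assoc]
    obtain ⟨ε, hε, ⟨hx, hh⟩ | ⟨hx, hh⟩⟩ := R.step (a + n)
    · have h0 := hle (n+1)
      rw [← add_assoc] at h0
      obtain ⟨d', rfl⟩ : ∃ d', d = d' + 1 := ⟨d - 1, by omega⟩
      refine ⟨d', p + 2^d' * ε, by push_cast at hd; omega, ?_, ?_, ?_⟩
      · rw [hx, add_smul, ← add_assoc, ← hp]; unfold up; module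
      · have h1 := g.rho_up d' (R.mem (a + n)) hε
        have h4 := R.inc_fwd (a + n)
        rw [← hx, hp] at h1
        rw [eta_add]
        push_cast
        omega
      · have h1 : (2:ℤ)^(d'+1) ≤ 2^N := pow_le_pow_right₀ (by norm_num) hdN
        have h2 : |p + 2^d' * ε| ≤ |p| + 2^d' := by
          refine (abs_add_le _ _).trans ?_
          rcases hε with rfl | rfl <;> simp
        rw [pow_succ] at h1 hb
        push_cast at hb ⊢
        nlinarith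
    · refine ⟨d + 1, p - 2^d * ε, by push_cast; omega, ?_, ?_, ?_⟩
      · rw [sub_smul, ← add_sub_assoc, ← hp, hx]; unfold up; module
      · have h1 := g.rho_up d (R.mem (a + n + 1)) hε
        have h4 := R.inc_bwd (a + n)
        have h5 : (2:ℤ)^(d+1) • R.x (a + n + 1) = R.x a + (p - 2^d * ε) • θ := by
          rw [sub_smul, ← add_sub_assoc, ← hp, hx]; unfold up; module
        have h6 := eta_add (θ := θ) (c := c) (p - 2^d * ε) (2^d * ε) (R.x a)
        rw [sub_add_cancel] at h6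
        rw [← hx, h5] at h1
        push_cast
        omega
      · have h2 : |p - 2^d * ε| ≤ |p| + 2^d := by
          refine (abs_sub _ _).trans ?_
          rcases hε with rfl | rfl <;> simp
        rw [pow_succ]
        push_cast
        nlinarith

lemma route {x y : A} (hy : y ∈ Ω) {d N : ℕ} (hdN : d ≤ N) {p : ℤ}
    (hp : (2:ℤ)^d • y = x + p • θ) (k : ℤ) :
    ∃ q : ℤ, |q| * 2^N ≤ |k| + |p| + 2^N ∧
      eta θ c k x ≤ eta θ c p x - rho c d y + (N - d) + N + 2 * |q| := by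
  obtain ⟨i, rfl⟩ : ∃ i, N = i + d := ⟨N - d, by omega⟩
  obtain ⟨z, rfl⟩ := g.div_pow i y
  have hz := (g.pow_mem i).1 hy
  have hpos : (0:ℤ) < 2^(i+d) := by positivity
  set q := (k - p) / 2^(i+d) with hq
  set r := (k - p) % 2^(i+d) with hr
  have hr0 : 0 ≤ r := Int.emod_nonneg _ hpos.ne'
  have hr1 : r < 2^(i+d) := Int.emod_lt_of_pos _ hpos
  have hk : k = p + (2^(i+d) * q + r) := by
    have := Int.mul_ediv_add_emod (k - p) (2^(i+d))
    rw [← hq, ← hr] at this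
    omega
  refine ⟨q, ?_, ?_⟩
  · have h1 : q * 2^(i+d) = k - p - r := by rw [hk]; ring
    have h2 : |q| * 2^(i+d) = |q * 2^(i+d)| := by rw [abs_mul, abs_of_pos hpos]
    rw [h2, h1]
    have h3 := abs_sub (k - p) r
    have h4 := abs_sub k p
    rw [abs_of_nonneg hr0] at h3
    omega
  · have h1 := g.comm_d (i+d) q hz
    have h2 := g.cone (i+d) (g.add_mem q hz) hr0 hr1
    have h3 := g.cone i hz (le_refl 0) (by positivity)
    have h4 := g.eta_abs q hz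
    have h5 := rho_add (c := c) i d z
    have e1 : x + p • θ = (2:ℤ)^(i+d) • z := by rw [← hp]; module
    have e2 : (2:ℤ)^(i+d) • z + (2^(i+d) * q) • θ = (2:ℤ)^(i+d) • (z + q • θ) := by module
    rw [eta_zero] at h3
    have h6 : eta θ c k x = eta θ c p x + (eta θ c (2^(i+d) * q) ((2:ℤ)^(i+d) • z)
        + eta θ c r ((2:ℤ)^(i+d) • (z + q • θ))) := by
      conv_lhs => rw [hk]
      rw [eta_add, eta_add, e1, e2]
    rw [abs_le] at h2 h3 h4
    push_cast at h2 ⊢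
    omega

lemma ray_down (R : Ray θ c Ω) (a : ℕ) (hle : ∀ n, R.h (a + n) ≤ R.h a) (k : ℤ) :
    eta θ c k (R.x a) ≤ 6 := by
  classical
  by_cases hb : ∃ n, (k.natAbs : ℤ) ≤ R.h a - R.h (a + n)
  · set N := k.natAbs with hNdef
    have hN : ∀ j ≤ Nat.find hb, R.h a - R.h (a + j) ≤ N := by
      intro j hj
      rcases j with _ | j
      · simp
      · have h1 := Nat.find_min hb (show j < Nat.find hb by omega)
        obtain ⟨ε, -, ⟨-, hh⟩ | ⟨-, hh⟩⟩ := R.step (a + j)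
        · rw [← add_assoc]; omega
        · rw [← add_assoc]; omega
    obtain ⟨d, p, hd, hp, he, hbd⟩ := g.ray_inv R a hle N _ hN
    have h1 := Nat.find_spec hb
    have h2 := hN _ le_rfl
    have hdN : d = N := by omega
    obtain ⟨q, hq1, hq2⟩ := g.route (R.mem _) hdN.le hp k
    rw [hdN] at hbd hq2 he
    have h3 : |k| ≤ 2^N := by
      rw [Int.abs_eq_natAbs]
      exact_mod_cast (Nat.lt_two_pow_self).le
    have hpos : (0:ℤ) < 2^N := by positivity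
    have h4 : 2 * |q| ≤ 6 + (Nat.find hb - N) := by
      by_contra hc
      push Not at hc
      nlinarith
    omega
  · exfalso
    push Not at hb
    set N := k.natAbs with hNdef
    obtain ⟨d, p, hd, hp, he, hbd⟩ := g.ray_inv R a hle N (4 * N + 12) (fun j _ => (hb j).le)
    have hdN : d ≤ N := by have := hb (4 * N + 12); omega
    obtain ⟨q, hq1, hq2⟩ := g.route (R.mem _) (show d ≤ N + 1 by omega) hp 0
    have h1 : (2:ℤ)^d ≤ 2^N := pow_le_pow_right₀ (by norm_num) hdN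
    have hpos : (0:ℤ) < 2^N := by positivity
    rw [pow_succ] at hq1
    rw [eta_zero] at hq2
    have h4 : 4 * |q| ≤ 6 + (4 * N + 12 - d) := by
      by_contra hc
      push Not at hc
      simp only [abs_zero] at hq1
      push_cast at hbd
      nlinarith
    push_cast at hq2 he
    omega

lemma stepA {y : A} (hy : y ∈ Ω) {ε : ℤ} (hε : ε = 0 ∨ ε = 1) {M M' : ℤ}
    (h1 : IsMaxA θ c y M) (h2 : IsMaxA θ c (up θ ε y) M')
    (h3 : c y + M = c (up θ ε y) + M') : M = inc c y (up θ ε y) + M' := by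
  have key : ∀ k ε' : ℤ, (ε' = 0 ∨ ε' = 1) →
      inc c y (up θ ε y) + eta θ c (2 * k + ε' - ε) (up θ ε y)
        = eta θ c k y + inc c (y + k • θ) (up θ ε' (y + k • θ)) := by
    intro k ε' hε'
    have a1 := g.comm k hy
    have a2 := g.diag hy hε
    have a3 := g.diag (g.add_mem k hy) hε'
    have a4 := eta_add (θ := θ) (c := c) ε (2 * k + ε' - ε) ((2:ℤ) • y)
    have a5 := eta_add (θ := θ) (c := c) (2 * k) ε' ((2:ℤ) • y)
    have e1 : ε + (2 * k + ε' - ε) = 2 * k + ε' := by ring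
    have e2 : (2:ℤ) • y + (2 * k) • θ = (2:ℤ) • (y + k • θ) := by module
    rw [e1] at a4
    rw [e2] at a5
    have e3 : (2:ℤ) • y + ε • θ = up θ ε y := rfl
    rw [e3] at a4
    omega
  apply lift9
  · push_cast; rw [cast_inc]; linear_combination h3
  · obtain ⟨k, hk⟩ := h1.2
    obtain ⟨l, hl⟩ := h2.2
    have b1 := key k 0 (Or.inl rfl)
    have b2 := g.lip _ (g.add_mem k hy) 0 (Or.inl rfl)
    have b3 := h2.1 (2 * k + 0 - ε)
    have hε' : (l + ε) % 2 = 0 ∨ (l + ε) % 2 = 1 := by omega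
    have b4 := key ((l + ε) / 2) ((l + ε) % 2) hε'
    have b5 := g.lip _ (g.add_mem ((l + ε) / 2) hy) _ hε'
    have b6 := h1.1 ((l + ε) / 2)
    have e : 2 * ((l + ε) / 2) + (l + ε) % 2 - ε = l := by omega
    rw [e] at b4
    rw [abs_le] at b2 b5
    rw [abs_lt]
    omega

lemma stepB {y : A} (hy : y ∈ Ω) {ε : ℤ} (hε : ε = 0 ∨ ε = 1) {M M' : ℤ}
    (h1 : IsMaxB c y M) (h2 : IsMaxB c (up θ ε y) M')
    (h3 : c y + M = c (up θ ε y) + M') : M = inc c y (up θ ε y) + M' := by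
  apply lift9
  · push_cast; rw [cast_inc]; linear_combination h3
  · obtain ⟨i, δ, hδ, hk⟩ := h1.2
    obtain ⟨j, δ', hδ', hl⟩ := h2.2
    obtain ⟨δ'', rfl⟩ := g.div δ'
    have hδ1 := pow_succ_zero hδ
    have hδ2 : (2:ℤ)^(j+1) • δ'' = 0 := by rw [← hδ']; module
    have b1 := g.kap_up hδ1 hy hε
    have b2 := g.lip _ (g.tors_mem hδ1 hy) ε hε
    have b3 := h2.1 i ((2:ℤ) • δ) (by rw [← hδ1]; module)
    have b4 := g.kap_up hδ2 hy hε
    have b5 := g.lip _ (g.tors_mem hδ2 hy) ε hε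
    have b6 := h1.1 (j+1) δ'' hδ2
    rw [kap_succ hδ] at b1
    rw [abs_le] at b2 b5
    rw [abs_lt]
    omega

lemma exists_ray (hne : Ω.Nonempty) : Nonempty (Ray θ c Ω) := by
  have h : ∀ z : Ω × ℤ, ∃ z' : Ω × ℤ, c z'.1 = c z.1 - 1 ∧ ∃ ε : ℤ, (ε = 0 ∨ ε = 1) ∧
      (((z'.1 : A) = up θ ε z.1 ∧ z'.2 = z.2 + 1) ∨ ((z.1 : A) = up θ ε z'.1 ∧ z'.2 = z.2 - 1)) := by
    rintro ⟨⟨x, hx⟩, l⟩
    obtain ⟨x', h1, ε, hε, h2 | h2⟩ := g.ptr x hx
    · exact ⟨(⟨x', by rw [h2, g.upm x ε hε]; exact hx⟩, l + 1), h1, ε, hε, Or.inl ⟨h2, rfl⟩⟩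
    · exact ⟨(⟨x', by rw [← g.upm x' ε hε, ← h2]; exact hx⟩, l - 1), h1, ε, hε, Or.inr ⟨h2, rfl⟩⟩
  choose f hf1 hf2 using h
  obtain ⟨x0, hx0⟩ := hne
  refine ⟨⟨fun n => (f^[n] (⟨x0, hx0⟩, 0)).1, fun n => (f^[n] (⟨x0, hx0⟩, 0)).2,
    fun n => (f^[n] (⟨x0, hx0⟩, 0)).1.2, fun n => ?_, fun n => ?_⟩⟩
  · rw [Function.iterate_succ_apply']; exact hf1 _
  · rw [Function.iterate_succ_apply']; exact hf2 _

theorem core (hne : Ω.Nonempty)
    (hA : (∀ w ∈ Ω, ¬ ∃ M, IsMaxA θ c w M) ∨ ∃ κ, ∀ w ∈ Ω, ∃ M, IsMaxA θ c w M ∧ c w + M = κ)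
    (hB : (∀ w ∈ Ω, ¬ ∃ M, IsMaxB c w M) ∨ ∃ κ, ∀ w ∈ Ω, ∃ M, IsMaxB c w M ∧ c w + M = κ) :
    False := by
  obtain ⟨R⟩ := g.exists_ray hne
  by_cases hup : ∀ a e : ℕ, ∃ m, R.h a + e ≤ R.h (a + m)
  · have hb : ∀ a i δ, (2:ℤ)^i • δ = 0 → kap c i δ (R.x a) ≤ 0 := by
      intro a i δ hδ
      obtain ⟨m, hm⟩ := hup a i
      exact g.ray_up R m a i δ hm hδ
    rcases hB with hB | ⟨κ, hB⟩
    · apply hB _ (R.mem 0)
      obtain ⟨M, ⟨i, δ, h1, h2⟩, h3⟩ := Int.exists_greatest_of_bdd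
        (P := fun M => ∃ (i : ℕ) (δ : A), (2:ℤ)^i • δ = 0 ∧ kap c i δ (R.x 0) = M)
        ⟨0, by rintro z ⟨i, δ, h1, rfl⟩; exact hb 0 i δ h1⟩ ⟨_, 0, 0, by simp, rfl⟩
      exact ⟨M, fun i δ h => h3 _ ⟨i, δ, h, rfl⟩, i, δ, h1, h2⟩
    · obtain ⟨M, h1, h2⟩ := hB _ (R.mem 0)
      obtain ⟨M', h3, h4⟩ := hB _ (R.mem 1)
      have h5 : 0 ≤ M := by simpa [kap] using h1.1 0 0 (by simp)
      have h6 : M' ≤ 0 := by
        obtain ⟨i, δ, a1, a2⟩ := h3.2
        rw [← a2]; exact hb 1 i δ a1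
      obtain ⟨ε, hε, ⟨hx, -⟩ | ⟨hx, -⟩⟩ := R.step 0
      · have a1 := R.inc_fwd 0
        rw [zero_add] at hx a1
        rw [hx] at h3 h4 a1
        have := g.stepB (R.mem 0) hε h1 h3 (h2.trans h4.symm)
        omega
      · have a1 := R.inc_bwd 0
        rw [zero_add] at hx a1
        rw [hx] at h1 h2 a1
        have := g.stepB (R.mem 1) hε h3 h1 (h4.trans h2.symm)
        omega
  · push Not at hup
    obtain ⟨a0, e, hae⟩ := hup
    obtain ⟨a, ha7, hle⟩ : ∃ a, 7 ≤ a ∧ ∀ n, R.h (a + n) ≤ R.h a := by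
      obtain ⟨M, ⟨m, hm⟩, h3⟩ := Int.exists_greatest_of_bdd
        (P := fun M => ∃ m : ℕ, R.h (a0 + 7 + m) = M)
        ⟨R.h a0 + e, by rintro z ⟨m, rfl⟩; rw [add_assoc]; exact (hae _).le⟩ ⟨_, 0, rfl⟩
      refine ⟨a0 + 7 + m, by omega, fun n => ?_⟩
      rw [hm]; exact h3 _ ⟨m + n, by rw [add_assoc (a0 + 7)]⟩
    have hb := g.ray_down R a hle
    rcases hA with hA | ⟨κ, hA⟩
    · apply hA _ (R.mem a)
      obtain ⟨M, ⟨k, h2⟩, h3⟩ := Int.exists_greatest_of_bdd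
        (P := fun M => ∃ k : ℤ, eta θ c k (R.x a) = M)
        ⟨6, by rintro z ⟨k, rfl⟩; exact hb k⟩ ⟨_, 0, rfl⟩
      exact ⟨M, fun k => h3 _ ⟨k, rfl⟩, k, h2⟩
    · choose M hM1 hM2 using fun n => hA _ (R.mem n)
      have hn : ∀ n : ℕ, (n : ℤ) ≤ M n := by
        intro n
        induction n with
        | zero => simpa [eta_zero] using (hM1 0).1 0
        | succ n ih =>
          push_cast
          obtain ⟨ε, hε, ⟨hx, -⟩ | ⟨hx, -⟩⟩ := R.step n
          · have a1 := R.inc_fwd n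
            have h3 := hM1 (n+1)
            have h4 := hM2 (n+1)
            rw [hx] at h3 h4 a1
            have := g.stepA (R.mem n) hε (hM1 n) h3 ((hM2 n).trans h4.symm)
            omega
          · have a1 := R.inc_bwd n
            have h3 := hM1 n
            have h4 := hM2 n
            rw [hx] at h3 h4 a1
            have := g.stepA (R.mem (n+1)) hε (hM1 (n+1)) h3 ((hM2 (n+1)).trans h4.symm)
            omega
      obtain ⟨k, hk⟩ := (hM1 a).2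
      have := hb k
      have := hn a
      omega

end Good

end Pool.Agent.H466Z.MT
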