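import Mathlib

/-!
Covering the unit square by translates of rectangles of total area at least three.
-/

set_option autoImplicit false

namespace Pool.Agent.H466Z.Moser

open Finset

universe u

variable {ι : Type u}

/-- lining up countably many intervals -/
theorem line_up [Countable ι] (c : ι → ℝ) (hc : ∀ i, 0 ≤ c i) :
    ∃ s : ι → ℝ, ∀ x : ℝ, 0 ≤ x → (∃ F : Finset ι, x < ∑ i ∈ F, c i) →
      ∃ i, s i ≤ x ∧ x < s i + c i := by
  classical
  obtain ⟨e, he⟩ := exists_injective_nat ι
  let d : ℕ → ℝ := Function.extend e c 0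
  have hd : ∀ i, d (e i) = c i := fun i => he.extend_apply c 0 i
  have hd0 : ∀ n, (¬ ∃ i, e i = n) → d n = 0 := fun n hn => Function.extend_apply' c (0 : ℕ → ℝ) n hn
  have hdn : ∀ n, 0 ≤ d n := by
    intro n
    by_cases h : ∃ i, e i = n
    · obtain ⟨i, rfl⟩ := h; rw [hd]; exact hc i
    · rw [hd0 n h]
  refine ⟨fun i => ∑ k ∈ range (e i), d k, fun x hx ⟨F, hF⟩ => ?_⟩
  have hex : ∃ n, x < ∑ k ∈ range n, d k := by
    refine ⟨(F.image e).sup id + 1, hF.trans_le ?_⟩
    have h1 : ∑ i ∈ F, c i = ∑ k ∈ F.image e, d k := by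
      rw [sum_image (fun i _ j _ h => he h)]
      exact sum_congr rfl fun i _ => (hd i).symm
    rw [h1]
    refine sum_le_sum_of_subset_of_nonneg (fun k hk => ?_) fun k _ _ => hdn k
    exact mem_range.2 (Nat.lt_succ_of_le (le_sup (f := id) hk))
  have h0 : Nat.find hex ≠ 0 := by
    intro h
    have := Nat.find_spec hex
    rw [h, sum_range_zero] at this
    linarith
  obtain ⟨n, hn⟩ := Nat.exists_eq_succ_of_ne_zero h0
  have h1 : x < ∑ k ∈ range (n + 1), d k := by
    have := Nat.find_spec hex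
    rwa [hn] at this
  have h2 : ∑ k ∈ range n, d k ≤ x := not_lt.1 (Nat.find_min hex (by omega))
  rw [sum_range_succ] at h1
  by_cases h : ∃ i, e i = n
  · obtain ⟨i, rfl⟩ := h
    exact ⟨i, h2, by rw [← hd]; exact h1⟩
  · rw [hd0 n h] at h1; linarith

/-- the top row of the greedy procedure -/
theorem top_row [DecidableEq ι] (a b : ι → ℝ) (F : Finset ι) (hF : 1 < ∑ i ∈ F, a i) :
    ∃ S ⊆ F, ∃ j ∈ F, j ∉ S ∧ ∑ i ∈ S, a i ≤ 1 ∧ 1 < ∑ i ∈ S, a i + a j ∧
      (∀ i ∈ S, b j ≤ b i) ∧ ∀ i ∈ F, i ∉ S → b i ≤ b j := by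
  induction h : F.card generalizing F with
  | zero =>
    rw [card_eq_zero] at h
    subst h
    norm_num at hF
  | succ n ih =>
    have hne : F.Nonempty := card_pos.1 (by omega)
    obtain ⟨j, hj, hmin⟩ := exists_min_image F b hne
    by_cases h1 : ∑ i ∈ F.erase j, a i ≤ 1
    · refine ⟨F.erase j, erase_subset _ _, j, hj, notMem_erase _ _, h1, ?_,
        fun i hi => hmin i (mem_of_mem_erase hi), fun i hi hi' => ?_⟩
      · rwa [sum_erase_add _ _ hj]
      · have : i = j := by
          by_contra hne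
          exact hi' (mem_erase.2 ⟨hne, hi⟩)
        rw [this]
    · obtain ⟨S, hS, k, hk, hkS, h2, h3, h4, h5⟩ := ih (F.erase j) (not_le.1 h1)
        (by rw [card_erase_of_mem hj]; omega)
      refine ⟨S, hS.trans (erase_subset _ _), k, mem_of_mem_erase hk, hkS, h2, h3, h4,
        fun i hi hi' => ?_⟩
      by_cases hij : i = j
      · rw [hij]; exact hmin k (mem_of_mem_erase hk)
      · exact h5 i (mem_erase.2 ⟨hij, hi⟩) hi'

/-- the finite greedy procedure -/
theorem finite_cover [Countable ι] (a b : ι → ℝ) (ha : ∀ i, 0 ≤ a i) (ha1 : ∀ i, a i ≤ 1)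
    (hb : ∀ i, 0 ≤ b i) (F : Finset ι) (c H : ℝ) (hH : 0 ≤ H)
    (hc : ∀ S ⊆ F, ∑ i ∈ S, a i ≤ 1 → ∑ i ∈ S, a i * b i ≤ c)
    (hA : c + 2 * H < ∑ i ∈ F, a i * b i) :
    ∃ v : ι → ℝ × ℝ, ∀ x y : ℝ, 0 ≤ x → x ≤ 1 → 0 ≤ y → y ≤ H →
      ∃ i ∈ F, (v i).1 ≤ x ∧ x ≤ (v i).1 + a i ∧ (v i).2 ≤ y ∧ y ≤ (v i).2 + b i := by
  classical
  induction h : F.card using Nat.strong_induction_on generalizing F c H with
  | _ n ih =>
    have hF : 1 < ∑ i ∈ F, a i := by
      by_contra hcon
      have := hc F subset_rfl (not_lt.1 hcon)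
      linarith
    obtain ⟨S, hS, j, hj, hjS, h1, h2, h3, h4⟩ := top_row a b F hF
    obtain ⟨s, hs⟩ := line_up (fun i => if i ∈ insert j S then a i else 0)
      (fun i => by split_ifs; exacts [ha i, le_rfl])
    have hrow : ∀ x : ℝ, 0 ≤ x → x ≤ 1 → ∃ i ∈ insert j S, s i ≤ x ∧ x ≤ s i + a i := by
      intro x hx hx1
      obtain ⟨i, hi1, hi2⟩ := hs x hx ⟨insert j S, by
        rw [sum_congr rfl (fun i hi => if_pos hi), sum_insert hjS]; linarith⟩
      by_cases hi : i ∈ insert j S
      · rw [if_pos hi] at hi2; exact ⟨i, hi, hi1, hi2.le⟩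
      · rw [if_neg hi] at hi2; linarith
    have hsub : insert j S ⊆ F := insert_subset hj hS
    have hbj : ∀ i ∈ insert j S, b j ≤ b i := by
      intro i hi
      rcases mem_insert.1 hi with rfl | hi
      · exact le_rfl
      · exact h3 i hi
    by_cases hHb : H ≤ b j
    · refine ⟨fun i => (s i, 0), fun x y hx hx1 hy hyH => ?_⟩
      obtain ⟨i, hi, hi1, hi2⟩ := hrow x hx hx1
      exact ⟨i, hsub hi, hi1, hi2, hy, by have := hbj i hi; simp only; linarith⟩
    · have hsum : ∑ i ∈ F \ insert j S, a i * b i + ∑ i ∈ insert j S, a i * b i =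
          ∑ i ∈ F, a i * b i := sum_sdiff hsub
      rw [sum_insert hjS] at hsum
      have h5 := hc S hS h1
      have h6 : a j * b j ≤ b j := by nlinarith [ha1 j, hb j]
      obtain ⟨v, hv⟩ := ih (F \ insert j S).card (by
          rw [← h]
          exact card_lt_card (sdiff_ssubset hsub (insert_nonempty _ _))) (F \ insert j S) (b j)
        (H - b j) (by linarith) (by
          intro T hT hT1
          calc ∑ i ∈ T, a i * b i ≤ ∑ i ∈ T, a i * b j := by
                refine sum_le_sum fun i hi => mul_le_mul_of_nonneg_left ?_ (ha i)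
                have := mem_sdiff.1 (hT hi)
                exact h4 i this.1 fun h' => this.2 (mem_insert_of_mem h')
            _ = (∑ i ∈ T, a i) * b j := by rw [sum_mul]
            _ ≤ b j := by nlinarith [hb j]) (by linarith) rfl
      refine ⟨fun i => if i ∈ insert j S then (s i, 0) else ((v i).1, (v i).2 + b j),
        fun x y hx hx1 hy hyH => ?_⟩
      by_cases hyb : y ≤ b j
      · obtain ⟨i, hi, hi1, hi2⟩ := hrow x hx hx1
        refine ⟨i, hsub hi, ?_⟩
        simp only [if_pos hi]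
        exact ⟨hi1, hi2, hy, by have := hbj i hi; linarith⟩
      · obtain ⟨i, hi, hi1, hi2, hi3, hi4⟩ := hv x (y - b j) hx hx1 (by linarith) (by linarith)
        refine ⟨i, (mem_sdiff.1 hi).1, ?_⟩
        simp only [if_neg (mem_sdiff.1 hi).2]
        exact ⟨hi1, hi2, by linarith, by linarith⟩

theorem exists_finset_lt {f : ι → ℝ} {T x : ℝ} (h : HasSum f T) (hx : x < T) :
    ∃ F : Finset ι, x < ∑ i ∈ F, f i :=
  ((tendsto_order.1 h).1 x hx).exists

theorem cover [Countable ι] (a b : ι → ℝ) (ha : ∀ i, 0 ≤ a i) (ha1 : ∀ i, a i ≤ 1)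
    (hb : ∀ i, 0 ≤ b i) (hb1 : ∀ i, b i ≤ 1) (T : ℝ) (hT : 3 ≤ T)
    (hsum : HasSum (fun i => a i * b i) T) :
    ∃ v : ι → ℝ × ℝ, ∀ x y : ℝ, 0 ≤ x → x ≤ 1 → 0 ≤ y → y ≤ 1 →
      ∃ i, (v i).1 ≤ x ∧ x ≤ (v i).1 + a i ∧ (v i).2 ≤ y ∧ y ≤ (v i).2 + b i := by
  classical
  have hab : ∀ i, 0 ≤ a i * b i := fun i => mul_nonneg (ha i) (hb i)
  let f : ι → ℝ := fun i => if b i = 1 then a i else 0
  have hf0 : ∀ i, 0 ≤ f i := fun i => by simp only [f]; split_ifs; exacts [ha i, le_rfl]
  have hf1 : ∀ i, f i ≤ a i * b i := fun i => by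
    simp only [f]; split_ifs with h
    · rw [h, mul_one]
    · exact hab i
  have hfs : Summable f := Summable.of_nonneg_of_le hf0 hf1 hsum.summable
  obtain ⟨w, hw⟩ := hfs
  by_cases hw1 : w < 1
  · have hε : 0 < (1 - w) / 4 := by linarith
    obtain ⟨F₀, hF₀⟩ := (summable_iff_vanishing_norm.1 hsum.summable) _ hε
    have hex : ∀ G : Finset ι, ∃ t : ℝ, t < 1 ∧ 1 / 2 ≤ t ∧ ∀ i ∈ G, b i ≠ 1 → b i ≤ t := by
      intro G
      induction G using Finset.induction_on with
      | empty => exact ⟨1 / 2, by norm_num, le_rfl, by simp⟩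
      | insert k G _ ihG =>
        obtain ⟨t, h1, h2, h3⟩ := ihG
        by_cases hk : b k = 1
        · refine ⟨t, h1, h2, fun i hi hi1 => ?_⟩
          rcases mem_insert.1 hi with rfl | hi
          · exact absurd hk hi1
          · exact h3 i hi hi1
        · refine ⟨max t (b k), max_lt h1 (lt_of_le_of_ne (hb1 k) hk), le_max_of_le_left h2,
            fun i hi hi1 => ?_⟩
          rcases mem_insert.1 hi with rfl | hi
          · exact le_max_right _ _
          · exact le_max_of_le_left (h3 i hi hi1)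
    obtain ⟨t, ht1, ht2, ht⟩ := hex F₀
    have hw0 : 0 ≤ w := hw.nonneg hf0
    set c := t + (1 + w) / 2 * (1 - t) with hc
    have hc1 : c < 1 := by rw [hc]; nlinarith
    obtain ⟨F, hF⟩ := exists_finset_lt hsum (x := c + 2 * 1) (by linarith)
    obtain ⟨v, hv⟩ := finite_cover a b ha ha1 hb F c 1 zero_le_one (by
      intro S _ hS
      have h1 : ∑ i ∈ S.filter (fun i => t < b i), a i ≤ (1 + w) / 2 := by
        rw [← sum_filter_add_sum_filter_not (S.filter fun i => t < b i) (fun i => i ∈ F₀)]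
        have h2 : ∑ i ∈ (S.filter fun i => t < b i).filter (fun i => i ∈ F₀), a i ≤ w := by
          refine le_trans (le_of_eq ?_) (sum_le_hasSum
            ((S.filter fun i => t < b i).filter (fun i => i ∈ F₀)) (fun i _ => hf0 i) hw)
          refine sum_congr rfl fun i hi => ?_
          have hi1 := mem_filter.1 hi
          have hi2 := (mem_filter.1 hi1.1).2
          have : b i = 1 := by
            by_contra hne
            exact absurd (ht i hi1.2 hne) (not_le.2 hi2)
          simp only [f, if_pos this]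
        have h3 := hF₀ ((S.filter fun i => t < b i).filter (fun i => i ∉ F₀))
          (disjoint_left.2 fun i hi => (mem_filter.1 hi).2)
        have h4 : ∑ i ∈ (S.filter fun i => t < b i).filter (fun i => i ∉ F₀), a i ≤
            2 * ∑ i ∈ (S.filter fun i => t < b i).filter (fun i => i ∉ F₀), a i * b i := by
          rw [mul_sum]
          refine sum_le_sum fun i hi => ?_
          have hi2 := (mem_filter.1 (mem_filter.1 hi).1).2
          nlinarith [ha i]
        have h5 := (abs_lt.1 h3).2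
        linarith
      have h6 : ∑ i ∈ S, a i * b i ≤
          ∑ i ∈ S, (t * a i + if t < b i then (1 - t) * a i else 0) := by
        refine sum_le_sum fun i _ => ?_
        split_ifs with h
        · nlinarith [ha i, hb1 i]
        · nlinarith [ha i, not_lt.1 h]
      rw [sum_add_distrib, ← mul_sum, ← sum_filter, ← mul_sum] at h6
      rw [hc]
      nlinarith) hF
    exact ⟨v, fun x y hx hx1 hy hy1 => by
      obtain ⟨i, -, hi⟩ := hv x y hx hx1 hy hy1
      exact ⟨i, hi⟩⟩
  · let g : ι → ℝ := fun i => if b i = 1 then 0 else b i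
    have hg0 : ∀ i, 0 ≤ g i := fun i => by simp only [g]; split_ifs; exacts [le_rfl, hb i]
    obtain ⟨s, hs⟩ := line_up f hf0
    obtain ⟨r, hr⟩ := line_up g hg0
    refine ⟨fun i => if b i = 1 then (s i, 0) else (1, r i), fun x y hx hx1 hy hy1 => ?_⟩
    by_cases hxw : x < w
    · obtain ⟨i, hi1, hi2⟩ := hs x hx (exists_finset_lt hw hxw)
      by_cases hi : b i = 1
      · simp only [f, if_pos hi] at hi2
        refine ⟨i, ?_⟩
        simp only [if_pos hi]
        exact ⟨hi1, hi2.le, hy, by rw [hi]; linarith⟩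
      · simp only [f, if_neg hi] at hi2; linarith
    · have hx' : x = 1 := by linarith [not_lt.1 hw1, not_lt.1 hxw]
      have hw' : w = 1 := by linarith [not_lt.1 hw1, not_lt.1 hxw]
      obtain ⟨F, hF⟩ := exists_finset_lt (hsum.sub hw) (x := y) (by linarith)
      obtain ⟨i, hi1, hi2⟩ := hr y hy ⟨F, hF.trans_le (sum_le_sum fun i _ => by
        simp only [f, g]
        split_ifs with h
        · rw [h]; linarith
        · nlinarith [ha1 i, hb i])⟩
      by_cases hi : b i = 1
      · simp only [g, if_pos hi] at hi2; linarith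
      · simp only [g, if_neg hi] at hi2
        refine ⟨i, ?_⟩
        simp only [if_neg hi]
        exact ⟨hx'.ge, by linarith [ha i], hi1, hi2.le⟩

end Pool.Agent.H466Z.Moser
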