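import Mathlib

/-!
One-dimensional lattice-gas models: interactions, ground states, Sturmian measures.
-/

set_option autoImplicit false

namespace Pool.Agent.H466Z.Sturm

open MeasureTheory

/-- Configurations `{0,1}^ℤ`. -/
abbrev Conf : Type := ℤ → Fin 2

/-- The shift `(T_a X)_i = X_{i-a}`. -/
def shift (a : ℤ) (X : Conf) : Conf := fun i => X (i - a)

/-- `Φ_Λ` depends only on the coordinates in `Λ`; the family is translation invariant and
summable. -/
structure IsInteraction (Φ : Finset ℤ → Conf → ℝ) : Prop where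
  loc : ∀ (Λ : Finset ℤ) (X Y : Conf), (∀ i ∈ Λ, X i = Y i) → Φ Λ X = Φ Λ Y
  inv : ∀ (Λ : Finset ℤ) (a : ℤ) (X : Conf), Φ (Λ.image fun i => i + a) (shift a X) = Φ Λ X
  summ : Summable fun Λ : {Λ : Finset ℤ // 0 ∈ Λ} => ⨆ X : Conf, |Φ Λ.1 X|

/-- `Φ_Λ = 0` as soon as the diameter of `Λ` exceeds some `r`. -/
def FiniteRange (Φ : Finset ℤ → Conf → ℝ) : Prop :=
  ∃ r : ℕ, ∀ Λ : Finset ℤ, (∃ i ∈ Λ, ∃ j ∈ Λ, (r : ℤ) < j - i) → ∀ X : Conf, Φ Λ X = 0

/-- The relative energy `H(Y|X)`. -/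
noncomputable def relEnergy (Φ : Finset ℤ → Conf → ℝ) (Y X : Conf) : ℝ :=
  ∑' Λ : Finset ℤ, (Φ Λ Y - Φ Λ X)

/-- Ground-state configurations. -/
def IsGroundConf (Φ : Finset ℤ → Conf → ℝ) (X : Conf) : Prop :=
  ∀ Y : Conf, {i | Y i ≠ X i}.Finite → 0 ≤ relEnergy Φ Y X

/-- Translation-invariant probability measures. -/
def IsInvProb (μ : Measure Conf) : Prop :=
  IsProbabilityMeasure μ ∧ ∀ a : ℤ, μ.map (shift a) = μ

/-- Ground states: invariant probability measures carried by ground-state configurations. -/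
def IsGroundState (Φ : Finset ℤ → Conf → ℝ) (μ : Measure Conf) : Prop :=
  IsInvProb μ ∧ ∀ᵐ X ∂μ, IsGroundConf Φ X

/-- The Sturmian sequence generated by `φ`. -/
noncomputable def sturm (φ : ℝ) : Conf := fun n => if Int.fract ((n : ℝ) * φ) < φ then 0 else 1

/-- The closure of the shift orbit of the Sturmian sequence. -/
def GSt (φ : ℝ) : Set Conf := closure (Set.range fun a : ℤ => shift a (sturm φ))

/-- Invariant probability measures carried by `GSt φ`. -/
def IsSturmianMeasure (φ : ℝ) (μ : Measure Conf) : Prop :=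
  IsInvProb μ ∧ ∀ᵐ X ∂μ, X ∈ GSt φ

end Pool.Agent.H466Z.Sturm
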