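import Mathlib
import Pool.Agent.H466Z.SturmDefs

set_option autoImplicit false

namespace Pool.Agent.H466Z.Sturm

open Finset

/-! ### Summability of relative energies -/

noncomputable def nrm (Φ : Finset ℤ → Conf → ℝ) (Λ : Finset ℤ) : ℝ := ⨆ X : Conf, |Φ Λ X|

theorem nrm_nonneg (Φ : Finset ℤ → Conf → ℝ) (Λ : Finset ℤ) : 0 ≤ nrm Φ Λ :=
  Real.iSup_nonneg fun _ => abs_nonneg _

theorem local_finite {f : Conf → ℝ} (Λ : Finset ℤ)
    (h : ∀ X Y : Conf, (∀ i ∈ Λ, X i = Y i) → f X = f Y) : (Set.range f).Finite := by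
  classical
  let g : (Λ → Fin 2) → ℝ := fun W => f fun i => if hi : i ∈ Λ then W ⟨i, hi⟩ else 0
  refine (Set.finite_range g).subset ?_
  rintro _ ⟨X, rfl⟩
  refine ⟨fun i => X i, h _ _ fun i hi => ?_⟩
  simp [hi]

theorem le_nrm {Φ : Finset ℤ → Conf → ℝ} (hΦ : IsInteraction Φ) (Λ : Finset ℤ) (X : Conf) :
    |Φ Λ X| ≤ nrm Φ Λ := by
  refine le_ciSup (f := fun X : Conf => |Φ Λ X|) ?_ X
  exact (local_finite Λ fun X Y h => by rw [hΦ.loc Λ X Y h]).bddAbove

theorem shift_shift (a b : ℤ) (X : Conf) : shift a (shift b X) = shift (a + b) X := by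
  funext i; simp only [shift]; congr 1; ring

theorem shift_zero (X : Conf) : shift 0 X = X := by
  funext i; simp [shift]

theorem nrm_image {Φ : Finset ℤ → Conf → ℝ} (hΦ : IsInteraction Φ) (Λ : Finset ℤ) (a : ℤ) :
    nrm Φ (Λ.image fun i => i + a) = nrm Φ Λ := by
  have hs : Function.Surjective (shift a) := fun X =>
    ⟨shift (-a) X, by rw [shift_shift, add_neg_cancel, shift_zero]⟩
  unfold nrm
  rw [← hs.iSup_comp]
  simp only [hΦ.inv]

noncomputable def bp (Φ : Finset ℤ → Conf → ℝ) (p : ℤ) (Λ : Finset ℤ) : ℝ :=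
  if p ∈ Λ then nrm Φ Λ else 0

theorem bp_nonneg (Φ : Finset ℤ → Conf → ℝ) (p : ℤ) (Λ : Finset ℤ) : 0 ≤ bp Φ p Λ := by
  unfold bp; split_ifs
  · exact nrm_nonneg _ _
  · exact le_rfl

theorem bp_hasSum {Φ : Finset ℤ → Conf → ℝ} (hΦ : IsInteraction Φ) :
    ∃ K : ℝ, ∀ p, HasSum (bp Φ p) K := by
  have h0 : Summable (bp Φ 0) := by
    have := (summable_subtype_iff_indicator (f := nrm Φ) (s := {Λ : Finset ℤ | 0 ∈ Λ})).1 hΦ.summ
    convert this using 1
    funext Λ
    simp [bp, Set.indicator]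
  refine ⟨∑' Λ, bp Φ 0 Λ, fun p => ((Equiv.addRight p).finsetCongr.hasSum_iff).1 ?_⟩
  convert h0.hasSum using 1
  funext Λ
  have : (Equiv.addRight p).finsetCongr Λ = Λ.image fun i => i + p := by
    rw [Equiv.finsetCongr_apply, map_eq_image]; rfl
  simp only [Function.comp, this, bp, nrm_image hΦ]
  simp

theorem summable_rel {Φ : Finset ℤ → Conf → ℝ} (hΦ : IsInteraction Φ) {X Y : Conf}
    (h : {i | Y i ≠ X i}.Finite) : Summable fun Λ => Φ Λ Y - Φ Λ X := by
  obtain ⟨K, hK⟩ := bp_hasSum hΦ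
  have h1 : Summable fun Λ => ∑ p ∈ h.toFinset, 2 * bp Φ p Λ :=
    summable_sum fun p _ => (hK p).summable.mul_left 2
  refine Summable.of_norm_bounded h1 fun Λ => ?_
  by_cases h2 : ∃ p ∈ Λ, Y p ≠ X p
  · obtain ⟨p, hp, hp'⟩ := h2
    have h3 : 2 * bp Φ p Λ ≤ ∑ p ∈ h.toFinset, 2 * bp Φ p Λ :=
      single_le_sum (f := fun p => 2 * bp Φ p Λ)
        (fun q _ => mul_nonneg zero_le_two (bp_nonneg _ _ _)) (by simpa using hp')
    have h4 := le_nrm hΦ Λ X
    have h5 := le_nrm hΦ Λ Y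
    have h6 := abs_sub (Φ Λ Y) (Φ Λ X)
    simp only [bp, if_pos hp] at h3
    rw [Real.norm_eq_abs]
    simp only [bp]
    linarith
  · push Not at h2
    rw [hΦ.loc Λ Y X h2, sub_self, norm_zero]
    exact sum_nonneg fun q _ => mul_nonneg zero_le_two (bp_nonneg _ _ _)

/-! ### Rotation by `√2 - 1` -/

noncomputable def φ0 : ℝ := √2 - 1

theorem sq2 : 1.4 < √2 ∧ √2 < 1.5 := by
  constructor
  · apply Real.lt_sqrt_of_sq_lt; norm_num
  · rw [Real.sqrt_lt' (by norm_num)]; norm_num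

theorem φ0_pos : 0 < φ0 := by have := sq2.1; unfold φ0; linarith
theorem φ0_lt : φ0 < 1 := by have := sq2.2; unfold φ0; linarith
theorem φ0_irr : Irrational φ0 := by
  have := irrational_sqrt_two.sub_natCast 1
  simpa [φ0] using this

theorem dense0 (n : ℕ) (hn : 0 < n) (t : ℝ) :
    ∃ j m : ℤ, 0 ≤ j ∧ j < n ∧ t ≤ m - j * φ0 ∧ m - j * φ0 ≤ t + 6 / (n + 1) := by
  obtain ⟨q, hq1, hq2⟩ := Real.exists_rat_abs_sub_le_and_den_le (√2) hn
  have hd : (0 : ℝ) < q.den := by exact_mod_cast q.pos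
  have hd1 : (1 : ℝ) ≤ q.den := by exact_mod_cast q.pos
  have hn1 : (1 : ℝ) ≤ n := by exact_mod_cast hn
  have hqe : (q : ℝ) = q.num / q.den := by exact_mod_cast (Rat.num_div_den q).symm
  set e : ℝ := √2 * q.den - q.num with he
  have he1 : |e| ≤ 1 / (n + 1) := by
    have : e = (√2 - q) * q.den := by rw [hqe, he]; field_simp
    rw [this, abs_mul, abs_of_pos hd]
    calc |√2 - q| * q.den ≤ 1 / ((n + 1) * q.den) * q.den := by gcongr
      _ = 1 / (n + 1) := by field_simp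
  have he2 : (n + 1 : ℝ) ≤ 4 * q.den := by
    have h1 : (2 * (q.den : ℤ) ^ 2 - q.num ^ 2 : ℤ) ≠ 0 := by
      intro h
      have h2 : (2 * (q.den : ℝ) ^ 2 - q.num ^ 2) = 0 := by exact_mod_cast h
      have h3 : (q : ℝ) ^ 2 = 2 := by rw [hqe]; field_simp; linarith
      have h4 : √2 = |(q : ℝ)| := by rw [← h3, Real.sqrt_sq_eq_abs]
      exact irrational_sqrt_two ⟨|q|, by rw [h4]; simp⟩
    have h2 : (1 : ℝ) ≤ |2 * (q.den : ℝ) ^ 2 - q.num ^ 2| := by
      have := Int.one_le_abs h1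
      exact_mod_cast this
    have h3 : 2 * (q.den : ℝ) ^ 2 - q.num ^ 2 = e * (2 * √2 * q.den - e) := by
      have := Real.sq_sqrt (show (0 : ℝ) ≤ 2 by norm_num)
      rw [he]; linear_combination (-(q.den : ℝ) ^ 2) * this
    have h4 : |e| ≤ 1 := he1.trans (by rw [div_le_one (by linarith)]; linarith)
    have h5 : |2 * √2 * q.den - e| ≤ 4 * q.den := by
      have := sq2
      have := abs_le.1 h4
      rw [abs_le]; constructor <;> nlinarith
    rw [h3, abs_mul] at h2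
    have h6 : |e| * |2 * √2 * q.den - e| ≤ 1 / (n + 1) * (4 * q.den) := by gcongr
    have h7 := h2.trans h6
    rw [div_mul_eq_mul_div, one_mul, le_div_iff₀ (by linarith)] at h7
    linarith
  obtain ⟨u, v, huv⟩ : IsCoprime q.num (q.den : ℤ) := by
    rw [Int.isCoprime_iff_gcd_eq_one]
    exact q.reduced
  set k : ℤ := ⌈(t + 1 / (n + 1)) * q.den⌉ with hk
  have hk1 : (t + 1 / (n + 1)) * q.den ≤ k := Int.le_ceil _
  have hk2 : (k : ℝ) < (t + 1 / (n + 1)) * q.den + 1 := Int.ceil_lt_add_one _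
  have hdz : (0 : ℤ) < q.den := by exact_mod_cast q.pos
  set j : ℤ := (-k * u) % q.den with hj
  set c : ℤ := (-k * u) / q.den with hc
  have hj0 : 0 ≤ j := Int.emod_nonneg _ hdz.ne'
  have hj1 : j < q.den := Int.emod_lt_of_pos _ hdz
  have hjc : j + q.den * c = -k * u := Int.emod_add_mul_ediv _ _
  have hm : (k * v - q.num * c) * q.den - j * q.num = k := by
    have : j = -k * u - q.den * c := by linarith
    rw [this]; linear_combination k * huv
  have hmr : ((k * v - q.num * c : ℤ) : ℝ) * q.den - j * q.num = k := by exact_mod_cast hm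
  set m : ℤ := k * v - q.num * c
  have hj0r : (0 : ℝ) ≤ j := by exact_mod_cast hj0
  have hj1r : (j : ℝ) ≤ q.den := by exact_mod_cast hj1.le
  have hje : |j * e| ≤ q.den * (1 / (n + 1)) := by
    rw [abs_mul, abs_of_nonneg hj0r]; gcongr
  have hval : (m - j * √2) * q.den = k - j * e := by rw [he]; linarith
  have hje' := abs_le.1 hje
  refine ⟨j, m - j, hj0, by omega, ?_, ?_⟩
  · have : t * q.den ≤ (m - j * √2) * q.den := by rw [hval]; nlinarith
    have := le_of_mul_le_mul_right this hd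
    push_cast; unfold φ0; linarith
  · have h1 : (1 : ℝ) ≤ 4 / (n + 1) * q.den := by
      rw [div_mul_eq_mul_div, le_div_iff₀ (by linarith)]; linarith
    have h2 : (6 : ℝ) / (n + 1) = 1 / (n + 1) + 1 / (n + 1) + 4 / (n + 1) := by ring
    have : (m - j * √2) * q.den ≤ (t + 6 / (n + 1)) * q.den := by rw [hval, h2]; nlinarith
    have := le_of_mul_le_mul_right this hd
    push_cast; unfold φ0; linarith

end Pool.Agent.H466Z.Sturm
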