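import Mathlib
import Pool.Agent.H466Z.SturmA

set_option autoImplicit false

namespace Pool.Agent.H466Z.Sturm

open Finset

noncomputable def z (θ : ℝ) : Conf := fun n => if Int.fract (θ + (n : ℝ) * φ0) < φ0 then 0 else 1

def val (Y : Conf) (j : ℤ) : ℤ := ((Y j : ℕ) : ℤ)

theorem val_inj {X Y : Conf} {i j : ℤ} (h : val X i = val Y j) : X i = Y j := by
  unfold val at h
  exact Fin.ext (by exact_mod_cast h)

theorem val_nonneg (Y : Conf) (j : ℤ) : 0 ≤ val Y j := by unfold val; positivity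

theorem val_le (Y : Conf) (j : ℤ) : val Y j ≤ 1 := by
  unfold val; have := (Y j).2; omega

noncomputable def fl (θ : ℝ) (j : ℤ) : ℤ := ⌊θ + (j : ℝ) * φ0⌋

theorem fl_add (θ : ℝ) (m j : ℤ) : fl (θ + m) j = fl θ j + m := by
  unfold fl
  rw [add_right_comm, Int.floor_add_intCast]

theorem val_z (θ : ℝ) (j : ℤ) : fl θ j - fl θ (j - 1) = 1 - val (z θ) j := by
  unfold fl val z
  have h0 := φ0_pos
  have h1 := φ0_lt
  set x := θ + (j : ℝ) * φ0 with hx
  have e : θ + ((j - 1 : ℤ) : ℝ) * φ0 = x - φ0 := by rw [hx]; push_cast; ring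
  rw [e]
  have h2 := Int.floor_add_fract x
  have h3 := Int.fract_nonneg x
  have h4 := Int.fract_lt_one x
  split_ifs with h
  · have : ⌊x - φ0⌋ = ⌊x⌋ - 1 := by
      rw [Int.floor_eq_iff]; push_cast; constructor <;> linarith
    rw [this]; simp
  · have : ⌊x - φ0⌋ = ⌊x⌋ := by
      rw [Int.floor_eq_iff]; constructor <;> linarith
    rw [this]; simp

def Ht (Y : Conf) (h : ℤ → ℤ) : Prop := ∀ j, h j - h (j - 1) = 1 - val Y j

theorem ht_z (θ : ℝ) : Ht (z θ) (fl θ) := val_z θ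

theorem Ht.sum {Y : Conf} {h : ℤ → ℤ} (hh : Ht Y h) {a b : ℤ} (hab : a ≤ b) :
    h b - h a = ∑ i ∈ Ioc a b, (1 - val Y i) := by
  induction b, hab using Int.leInduction with
  | base => simp
  | succ b hb ih =>
    have e : Ioc a (b + 1) = insert (b + 1) (Ioc a b) := by
      ext x; simp only [mem_Ioc, mem_insert]; omega
    rw [e, sum_insert (by simp), ← ih]
    have := hh (b + 1)
    rw [add_sub_cancel_right] at this
    linarith

theorem exists_ht (Y : Conf) : ∃ h, Ht Y h := by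
  refine ⟨fun j => ∑ i ∈ Ioc 0 j, (1 - val Y i) - ∑ i ∈ Ioc j 0, (1 - val Y i), fun j => ?_⟩
  rcases le_or_gt j 0 with hj | hj
  · have e : Ioc (j - 1) 0 = insert j (Ioc j 0) := by
      ext x; simp only [mem_Ioc, mem_insert]; omega
    simp only
    rw [e, sum_insert (by simp), Ioc_eq_empty (by omega), Ioc_eq_empty (a := 0) (by omega)]
    simp only [sum_empty]; ring
  · have e : Ioc 0 j = insert j (Ioc 0 (j - 1)) := by
      ext x; simp only [mem_Ioc, mem_insert]; omega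
    simp only
    rw [e, sum_insert (by simp), Ioc_eq_empty (a := j) (by omega),
      Ioc_eq_empty (a := j - 1) (by omega)]
    simp only [sum_empty]; ring

theorem Ht.diff {X Y : Conf} {h k : ℤ → ℤ} (hh : Ht X h) (hk : Ht Y k) {a b : ℤ} (hab : a ≤ b)
    (e : ∀ j ∈ Ioc a b, X j = Y j) : h b - k b = h a - k a := by
  have h1 := hh.sum hab
  have h2 := hk.sum hab
  have h3 : ∑ i ∈ Ioc a b, (1 - val X i) = ∑ i ∈ Ioc a b, (1 - val Y i) :=
    sum_congr rfl fun i hi => by unfold val; rw [e i hi]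
  linarith

def LH (h : ℤ → ℤ) (θ : ℝ) (a b : ℤ) : Prop := ∀ j, a ≤ j → j ≤ b → h j = fl θ j

def Legal (Y : Conf) (Λ : Finset ℤ) : Prop := ∃ θ : ℝ, ∀ j ∈ Λ, Y j = z θ j

theorem lh_of_eq {Y : Conf} {h : ℤ → ℤ} (hh : Ht Y h) {θ : ℝ} {a b : ℤ}
    (e : ∀ j ∈ Ioc a b, Y j = z θ j) : LH h (θ + (h a - fl θ a : ℤ)) a b := by
  intro j h1 h2
  rw [fl_add]
  have := hh.diff (ht_z θ) h1 fun i hi => e i (Ioc_subset_Ioc_right h2 hi)
  linarith

theorem eq_of_lh {Y : Conf} {h : ℤ → ℤ} (hh : Ht Y h) {θ : ℝ} {a b : ℤ} (e : LH h θ a b) :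
    ∀ j ∈ Ioc a b, Y j = z θ j := by
  intro j hj
  rw [mem_Ioc] at hj
  apply val_inj
  have h1 := hh j
  have h2 := val_z θ j
  rw [e j hj.1.le hj.2, e (j - 1) (by omega) (by omega)] at h1
  linarith

theorem gap1 {θ θ' : ℝ} {a : ℤ} {n : ℕ} (hn : 0 < n)
    (e : ∀ j, a ≤ j → j < a + n → fl θ j = fl θ' j) : θ' - θ ≤ 6 / (n + 1) := by
  by_contra hc
  push Not at hc
  obtain ⟨j, m, h0, h1, h2, h3⟩ := dense0 n hn (θ' - 6 / (n + 1) + a * φ0)
  have h4 := e (a + j) (by omega) (by omega)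
  have h5 : fl θ (a + j) < m := by
    unfold fl; rw [Int.floor_lt]; push_cast; linarith
  have h6 : m ≤ fl θ' (a + j) := by
    unfold fl; rw [Int.le_floor]; push_cast; linarith
  omega

theorem gap {h : ℤ → ℤ} {θ θ' : ℝ} {a b a' b' c : ℤ} {n : ℕ} (hn : 0 < n) (e : LH h θ a b)
    (e' : LH h θ' a' b') (h1 : a ≤ c) (h2 : a' ≤ c) (h3 : c + n ≤ b + 1) (h4 : c + n ≤ b' + 1) :
    |θ' - θ| ≤ 6 / (n + 1) := by
  have k : ∀ j, c ≤ j → j < c + n → fl θ j = fl θ' j := fun j j1 j2 => by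
    rw [← e j (by omega) (by omega), ← e' j (by omega) (by omega)]
  have k1 := gap1 hn k
  have k2 := gap1 hn fun j j1 j2 => (k j j1 j2).symm
  rw [abs_le]; constructor <;> linarith

theorem exists_rad (h : ℤ → ℤ) (N : ℕ) : ∃ (r : ℤ → ℕ) (θ : ℤ → ℝ), ∀ x, r x ≤ N ∧
    LH h (θ x) (x - r x) (x + r x) ∧
      ∀ (s : ℕ) (θ' : ℝ), s ≤ N → LH h θ' (x - s) (x + s) → s ≤ r x := by
  classical
  have h0 : ∀ x : ℤ, ∃ θ' : ℝ, LH h θ' (x - (0 : ℕ)) (x + (0 : ℕ)) := fun x =>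
    ⟨h x - x * φ0, fun j h1 h2 => by
      have : j = x := by omega
      subst this
      simp [fl]⟩
  let P : ℤ → ℕ → Prop := fun x s => ∃ θ' : ℝ, LH h θ' (x - s) (x + s)
  have h1 : ∀ x, P x (Nat.findGreatest (P x) N) := fun x =>
    Nat.findGreatest_spec (Nat.zero_le N) (h0 x)
  choose θ hθ using h1
  exact ⟨fun x => Nat.findGreatest (P x) N, θ, fun x => ⟨Nat.findGreatest_le N, hθ x,
    fun s θ' hs e => Nat.le_findGreatest hs ⟨θ', e⟩⟩⟩

section chain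

variable {Y : Conf} {h : ℤ → ℤ} {N : ℕ} {r : ℤ → ℕ} {θ : ℤ → ℝ}

theorem rad_lip (H : ∀ x, r x ≤ N ∧ LH h (θ x) (x - r x) (x + r x) ∧
      ∀ (s : ℕ) (θ' : ℝ), s ≤ N → LH h θ' (x - s) (x + s) → s ≤ r x) (x y : ℤ) (t : ℕ)
      (h1 : x - t ≤ y) (h2 : y ≤ x + t) : r x ≤ r y + t := by
  by_cases h3 : r x ≤ t
  · omega
  have := (H y).2.2 (r x - t) (θ x) (by have := (H x).1; omega) fun j j1 j2 =>
    (H x).2.1 j (by omega) (by omega)
  omega

noncomputable def cst (r : ℤ → ℕ) (y : ℤ) : ℝ := 1 / ((r y : ℝ) + 1) ^ 2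

theorem cst_nonneg (r : ℤ → ℕ) (y : ℤ) : 0 ≤ cst r y := by unfold cst; positivity

theorem step (hh : Ht Y h) (H : ∀ x, r x ≤ N ∧ LH h (θ x) (x - r x) (x + r x) ∧
      ∀ (s : ℕ) (θ' : ℝ), s ≤ N → LH h θ' (x - s) (x + s) → s ≤ r x) (x : ℤ) :
    |θ (x + (r x / 2 + 1 : ℕ)) - θ x| ≤ 144 * ∑ y ∈ Ico x (x + (r x / 2 + 1 : ℕ)), cst r y := by
  set s : ℕ := r x / 2 + 1 with hs
  have hR : (0 : ℝ) < (r x : ℝ) + 1 := by positivity
  have h1 : ∀ y ∈ Ico x (x + s), 1 / (4 * ((r x : ℝ) + 1) ^ 2) ≤ cst r y := by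
    intro y hy
    rw [mem_Ico] at hy
    have h2 := rad_lip H y x (r x / 2) (by omega) (by omega)
    have h3 : (r y : ℝ) + 1 ≤ 2 * ((r x : ℝ) + 1) := by
      have : r y + 1 ≤ 2 * (r x + 1) := by omega
      exact_mod_cast this
    unfold cst
    apply one_div_le_one_div_of_le (by positivity)
    nlinarith [(Nat.cast_nonneg (r y) : (0 : ℝ) ≤ r y)]
  have h2 := card_nsmul_le_sum _ _ _ h1
  rw [Int.card_Ico, nsmul_eq_mul] at h2
  have h3 : (x + s - x).toNat = s := by simp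
  rw [h3] at h2
  have h4 : (r x : ℝ) + 1 ≤ 2 * s := by
    have : r x + 1 ≤ 2 * s := by omega
    exact_mod_cast this
  have h5 : 18 / ((r x : ℝ) + 1) ≤ 144 * ∑ y ∈ Ico x (x + s), cst r y := by
    refine le_trans ?_ (mul_le_mul_of_nonneg_left h2 (by norm_num))
    rw [div_le_iff₀ hR]
    have : 144 * (s * (1 / (4 * ((r x : ℝ) + 1) ^ 2))) * ((r x : ℝ) + 1)
        = 36 * s / ((r x : ℝ) + 1) := by field_simp; ring
    rw [this, le_div_iff₀ hR]
    linarith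
  refine le_trans ?_ h5
  rcases Nat.eq_zero_or_pos (r x) with h0 | h0
  · have hs1 : s = 1 := by omega
    have e1 := (H x).2.1 x (by omega) (by omega)
    have e2 := (H (x + s)).2.1 (x + s) (by omega) (by omega)
    have e3 := hh (x + s)
    have e4 := val_nonneg Y (x + s)
    have e5 := val_le Y (x + s)
    rw [hs1] at e2 e3 e4 e5 ⊢
    simp only [Nat.cast_one, add_sub_cancel_right] at e2 e3 e4 e5 ⊢
    unfold fl at e1 e2
    have f1 := Int.floor_le (θ x + x * φ0)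
    have f2 := Int.lt_floor_add_one (θ x + x * φ0)
    have f3 := Int.floor_le (θ (x + 1) + ((x + 1 : ℤ) : ℝ) * φ0)
    have f4 := Int.lt_floor_add_one (θ (x + 1) + ((x + 1 : ℤ) : ℝ) * φ0)
    rw [← e1] at f1 f2
    rw [← e2] at f3 f4
    have f5 : (h x : ℝ) ≤ h (x + 1) := by exact_mod_cast (by omega : h x ≤ h (x + 1))
    have f6 : (h (x + 1) : ℝ) ≤ h x + 1 := by exact_mod_cast (by omega : h (x + 1) ≤ h x + 1)
    have := φ0_pos
    have := φ0_lt
    rw [h0]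
    push_cast at f3 f4
    rw [abs_le]; constructor <;> norm_num <;> linarith
  · have h6 := rad_lip H x (x + s) s (by omega) (by omega)
    have h7 := gap (n := 2 * (r x - s) + 1) (c := x + s - (r x - s : ℕ)) (by omega) (H x).2.1
      (H (x + s)).2.1 (by omega) (by omega) (by omega) (by omega)
    refine h7.trans ?_
    rw [div_le_div_iff₀ (by positivity) hR]
    have : r x + 1 ≤ 3 * (2 * (r x - s) + 1 + 1) := by omega
    have h8 : (r x : ℝ) + 1 ≤ 3 * (((2 * (r x - s) + 1 : ℕ) : ℝ) + 1) := by exact_mod_cast this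
    linarith

theorem chain (hh : Ht Y h) (H : ∀ x, r x ≤ N ∧ LH h (θ x) (x - r x) (x + r x) ∧
      ∀ (s : ℕ) (θ' : ℝ), s ≤ N → LH h θ' (x - s) (x + s) → s ≤ r x) (x : ℤ) (n : ℕ) :
    ∃ x' : ℤ, x + n ≤ x' ∧ x' ≤ x + n + N ∧ |θ x' - θ x| ≤ 144 * ∑ y ∈ Ico x x', cst r y := by
  induction n with
  | zero => exact ⟨x, by omega, by omega, by simp⟩
  | succ n ih =>
    obtain ⟨x', h1, h2, h3⟩ := ih
    by_cases h4 : x + n + 1 ≤ x'
    · exact ⟨x', by omega, by omega, h3⟩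
    have h5 := step hh H x'
    have h6 := (H x').1
    refine ⟨x' + (r x' / 2 + 1 : ℕ), by omega, by omega, ?_⟩
    have h7 : Ico x (x' + (r x' / 2 + 1 : ℕ)) = Ico x x' ∪ Ico x' (x' + (r x' / 2 + 1 : ℕ)) :=
      (Ico_union_Ico_eq_Ico (by omega) (by omega)).symm
    rw [h7, sum_union (Ico_disjoint_Ico_consecutive _ _ _)]
    have := abs_add_le (θ (x' + (r x' / 2 + 1 : ℕ)) - θ x') (θ x' - θ x)
    rw [sub_add_sub_cancel] at this
    linarith

end chain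

end Pool.Agent.H466Z.Sturm
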