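import Mathlib
import Pool.Agent.H466Z.SturmB

set_option autoImplicit false

namespace Pool.Agent.H466Z.Sturm

open Finset Filter Topology

theorem shift_z (a : ℤ) (θ : ℝ) : shift a (z θ) = z (θ - a * φ0) := by
  funext i
  simp only [shift, z]
  have : θ + ((i - a : ℤ) : ℝ) * φ0 = θ - a * φ0 + i * φ0 := by push_cast; ring
  rw [this]

theorem z_add_int (θ : ℝ) (m : ℤ) : z (θ + m) = z θ := by
  funext i
  simp only [z]
  rw [add_right_comm, Int.fract_add_intCast]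

theorem sturm_eq : sturm φ0 = z 0 := by
  funext i; simp [sturm, z]

theorem legal_congr {X Y : Conf} {Λ : Finset ℤ} (h : ∀ i ∈ Λ, X i = Y i) :
    Legal X Λ ↔ Legal Y Λ :=
  exists_congr fun _ => forall₂_congr fun j hj => by rw [h j hj]

theorem Legal.mono {X : Conf} {Λ Λ' : Finset ℤ} (h : Legal X Λ) (h' : Λ' ⊆ Λ) : Legal X Λ' := by
  obtain ⟨θ, hθ⟩ := h
  exact ⟨θ, fun j hj => hθ j (h' hj)⟩

theorem legal_shift (X : Conf) (Λ : Finset ℤ) (a : ℤ) :
    Legal (shift a X) (Λ.image fun i => i + a) ↔ Legal X Λ := by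
  constructor
  · rintro ⟨θ, h⟩
    refine ⟨θ + a * φ0, fun j hj => ?_⟩
    have h1 := h (j + a) (mem_image_of_mem _ hj)
    have h2 := congrFun (shift_z a (θ + a * φ0)) (j + a)
    simp only [shift, add_sub_cancel_right] at h1 h2
    rw [h1, h2]
  · rintro ⟨θ, h⟩
    refine ⟨θ - a * φ0, fun j hj => ?_⟩
    obtain ⟨i, hi, rfl⟩ := mem_image.1 hj
    rw [← shift_z]
    simp only [shift, add_sub_cancel_right]
    exact h i hi

theorem mem_GSt {Y : Conf} : Y ∈ GSt φ0 ↔ ∀ Λ, Legal Y Λ := by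
  unfold GSt
  rw [mem_closure_iff]
  constructor
  · intro h Λ
    have ho : IsOpen (⋂ j ∈ Λ, (fun X : Conf => X j) ⁻¹' {Y j}) :=
      isOpen_biInter_finset fun j _ => (isOpen_discrete _).preimage (continuous_apply j)
    obtain ⟨X, h1, a, rfl⟩ := h _ ho (by simp)
    simp only [Set.mem_iInter, Set.mem_preimage, Set.mem_singleton_iff] at h1
    refine ⟨0 - a * φ0, fun j hj => ?_⟩
    rw [← h1 j hj, sturm_eq, shift_z]
  · intro h U hU hY
    obtain ⟨I, u, h1, h2⟩ := isOpen_pi_iff.1 hU Y hY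
    obtain ⟨θ, hθ⟩ := h I
    have h3 : ∀ j : ℤ, ∀ᶠ δ in 𝓝 (0 : ℝ), θ + j * φ0 + δ < fl θ j + 1 := fun j => by
      have : Continuous fun δ : ℝ => θ + j * φ0 + δ := by fun_prop
      refine (this.tendsto 0).eventually (gt_mem_nhds ?_)
      simp [fl]
    have h4 : ∀ᶠ δ in 𝓝 (0 : ℝ), ∀ j ∈ I, θ + j * φ0 + δ < fl θ j + 1 ∧
        θ + ((j - 1 : ℤ) : ℝ) * φ0 + δ < fl θ (j - 1) + 1 :=
      (eventually_all_finset I).2 fun j _ => (h3 j).and (h3 (j - 1))
    obtain ⟨δ, h5, h6⟩ :=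
      ((h4.filter_mono nhdsWithin_le_nhds).and (self_mem_nhdsWithin (s := Set.Ioi (0 : ℝ)))).exists
    obtain ⟨n, hn⟩ := exists_nat_one_div_lt (show 0 < δ / 6 from div_pos h6 (by norm_num))
    obtain ⟨j, m, -, -, h7, h8⟩ := dense0 (n + 1) (by omega) θ
    have h9 : (6 : ℝ) / ((n + 1 : ℕ) + 1) ≤ δ := by
      have : (1 : ℝ) / ((n + 1 : ℕ) + 1) ≤ 1 / (n + 1) :=
        one_div_le_one_div_of_le (by positivity) (by push_cast; linarith)
      have e : (6 : ℝ) / ((n + 1 : ℕ) + 1) = 6 * (1 / ((n + 1 : ℕ) + 1)) := by ring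
      rw [e]; linarith
    have h10 : ∀ i : ℤ, θ + i * φ0 + δ < fl θ i + 1 → fl (m - j * φ0) i = fl θ i := fun i hi => by
      have := Int.floor_le (θ + i * φ0)
      unfold fl at hi ⊢
      rw [Int.floor_eq_iff]; constructor <;> linarith
    refine ⟨shift j (sturm φ0), h2 fun i hi => ?_, j, rfl⟩
    have e : shift j (sturm φ0) = z (m - j * φ0) := by
      rw [sturm_eq, shift_z, ← z_add_int _ m]; congr 1; ring
    have e2 : z (m - j * φ0) i = z θ i := by
      apply val_inj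
      have a1 := val_z (m - j * φ0) i
      have a2 := val_z θ i
      rw [h10 i (h5 i hi).1, h10 _ (h5 i hi).2] at a1
      linarith
    rw [e, e2, ← hθ i hi]
    exact (h1 i hi).2

open Classical in
noncomputable def H0 (Λ : Finset ℤ) (Y : Conf) : ℝ :=
  if (∃ a b : ℤ, Λ = Ioc a b) ∧ ¬ Legal Y Λ then 1 / (Λ.card : ℝ) ^ 3 else 0

theorem H0_nonneg (Λ : Finset ℤ) (Y : Conf) : 0 ≤ H0 Λ Y := by
  unfold H0; split_ifs
  · positivity
  · exact le_rfl

theorem H0_legal {Λ : Finset ℤ} {Y : Conf} (h : Legal Y Λ) : H0 Λ Y = 0 := by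
  unfold H0; rw [if_neg fun e => e.2 h]

theorem H0_illegal {a b : ℤ} {Y : Conf} (h : ¬ Legal Y (Ioc a b)) :
    H0 (Ioc a b) Y = 1 / (((b - a).toNat : ℕ) : ℝ) ^ 3 := by
  unfold H0; rw [if_pos ⟨⟨a, b, rfl⟩, h⟩, Int.card_Ioc]

theorem image_Ioc (a b c : ℤ) : ((Ioc a b).image fun i => i + c) = Ioc (a + c) (b + c) := by
  ext x
  simp only [mem_image, mem_Ioc]
  exact ⟨by rintro ⟨y, h, rfl⟩; omega, fun h => ⟨x - c, by omega, by omega⟩⟩

theorem H0_inv (Λ : Finset ℤ) (a : ℤ) (X : Conf) :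
    H0 (Λ.image fun i => i + a) (shift a X) = H0 Λ X := by
  have h1 : (∃ b c : ℤ, (Λ.image fun i => i + a) = Ioc b c) ↔ ∃ b c : ℤ, Λ = Ioc b c := by
    constructor
    · rintro ⟨b, c, h⟩
      refine ⟨b + -a, c + -a, ?_⟩
      rw [← image_Ioc, ← h, image_image]
      simp
    · rintro ⟨b, c, rfl⟩
      exact ⟨_, _, image_Ioc _ _ _⟩
  classical
  unfold H0
  rw [card_image_of_injective _ (add_left_injective a)]
  exact if_congr (and_congr h1 (not_congr (legal_shift X Λ a))) rfl rfl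

theorem H0_summ : Summable fun Λ : {Λ : Finset ℤ // 0 ∈ Λ} => ⨆ X : Conf, |H0 Λ.1 X| := by
  classical
  let e : ℕ × ℕ → {Λ : Finset ℤ // 0 ∈ Λ} := fun p =>
    ⟨Ioc (-(p.1 : ℤ) - 1) p.2, by simp only [mem_Ioc]; omega⟩
  have he : Function.Injective e := by
    rintro ⟨a, b⟩ ⟨c, d⟩ h
    have h1 : Ioc (-(a : ℤ) - 1) b = Ioc (-(c : ℤ) - 1) d := congrArg Subtype.val h
    have h2 := (Finset.ext_iff.1 h1 b).1 (by simp only [mem_Ioc]; omega)
    have h3 := (Finset.ext_iff.1 h1 d).2 (by simp only [mem_Ioc]; omega)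
    have h4 := (Finset.ext_iff.1 h1 (-a)).1 (by simp only [mem_Ioc]; omega)
    have h5 := (Finset.ext_iff.1 h1 (-c)).2 (by simp only [mem_Ioc]; omega)
    simp only [mem_Ioc] at h2 h3 h4 h5
    ext <;> simp only <;> omega
  refine (he.summable_iff fun Λ hΛ => ?_).1 ?_
  · have : ∀ X, H0 Λ.1 X = 0 := fun X => by
      unfold H0
      rw [if_neg]
      rintro ⟨⟨a, b, h⟩, -⟩
      apply hΛ
      have h0 := Λ.2
      rw [h, mem_Ioc] at h0
      refine ⟨((-a - 1).toNat, b.toNat), Subtype.ext ?_⟩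
      simp only [e, h]
      congr 1 <;> omega
    simp [this]
  · have hs : Summable fun n : ℕ => 1 / ((n : ℝ) + 1) ^ (3 / 2 : ℝ) := by
      have := (summable_nat_add_iff 1).2 (Real.summable_one_div_nat_rpow.2
        (show (1 : ℝ) < 3 / 2 by norm_num))
      simpa using this
    have hp := hs.mul_of_nonneg hs (fun n => by positivity) (fun n => by positivity)
    refine Summable.of_nonneg_of_le (fun p => Real.iSup_nonneg fun _ => abs_nonneg _)
      (fun p => ciSup_le fun X => ?_) hp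
    rw [abs_of_nonneg (H0_nonneg _ _)]
    have h1 : H0 (e p).1 X ≤ 1 / ((p.1 : ℝ) + p.2 + 1) ^ 3 := by
      by_cases h : Legal X (e p).1
      · rw [H0_legal h]; positivity
      · simp only [e] at h ⊢
        rw [H0_illegal h]
        have : ((p.2 : ℤ) - (-(p.1 : ℤ) - 1)).toNat = p.1 + p.2 + 1 := by omega
        rw [this]; push_cast; exact le_rfl
    refine h1.trans ?_
    rw [one_div_mul_one_div]
    apply one_div_le_one_div_of_le (by positivity)
    have h2 : ((p.1 : ℝ) + p.2 + 1) ^ 3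
        = ((p.1 : ℝ) + p.2 + 1) ^ (3 / 2 : ℝ) * ((p.1 : ℝ) + p.2 + 1) ^ (3 / 2 : ℝ) := by
      rw [← Real.rpow_add (by positivity)]
      norm_num
    rw [h2]
    have h3 : (0 : ℝ) ≤ p.1 := by positivity
    have h4 : (0 : ℝ) ≤ p.2 := by positivity
    gcongr <;> linarith

theorem H0_int : IsInteraction H0 where
  loc := fun Λ X Y h => by
    classical
    unfold H0
    exact if_congr (and_congr Iff.rfl (not_congr (legal_congr h))) rfl rfl
  inv := H0_inv
  summ := H0_summ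

theorem sum_le_E {Y : Conf} (hs : Summable fun Λ => H0 Λ Y) {ι : Type} (s : Finset ι)
    (f : ι → Finset ℤ) (hf : Set.InjOn f s) : ∑ i ∈ s, H0 (f i) Y ≤ ∑' Λ, H0 Λ Y := by
  rw [← sum_image (f := fun Λ => H0 Λ Y) hf]
  exact hs.sum_le_tsum _ fun _ _ => H0_nonneg _ _

theorem Ioc_inj {a b c d : ℤ} (h : Ioc a b = Ioc c d) (hab : a < b) (hcd : c < d) :
    a = c ∧ b = d := by
  have h2 := (Finset.ext_iff.1 h b).1 (by simp only [mem_Ioc]; omega)
  have h3 := (Finset.ext_iff.1 h d).2 (by simp only [mem_Ioc]; omega)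
  have h4 := (Finset.ext_iff.1 h (a + 1)).1 (by simp only [mem_Ioc]; omega)
  have h5 := (Finset.ext_iff.1 h (c + 1)).2 (by simp only [mem_Ioc]; omega)
  simp only [mem_Ioc] at h2 h3 h4 h5
  omega

theorem D_bound {X Y : Conf} (hX : ∀ Λ, Legal X Λ) (M : ℕ)
    (hM : ∀ i, i ∉ Ioc (-(M : ℤ)) M → Y i = X i) (hs : Summable fun Λ => H0 Λ Y) :
    |((∑ i ∈ Ioc (-(M : ℤ)) M, (val Y i - val X i) : ℤ) : ℝ)| ≤ 9216 * ∑' Λ, H0 Λ Y := by
  obtain ⟨h, hh⟩ := exists_ht Y
  obtain ⟨k, hk⟩ := exists_ht X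
  set E := ∑' Λ, H0 Λ Y
  set D : ℤ := ∑ i ∈ Ioc (-(M : ℤ)) M, (val Y i - val X i) with hD
  have hD1 : D = (h (-M) - k (-M)) - (h M - k M) := by
    have h1 := hh.sum (show -(M : ℤ) ≤ M by omega)
    have h2 := hk.sum (show -(M : ℤ) ≤ M by omega)
    have h3 : D = ∑ i ∈ Ioc (-(M : ℤ)) M, (1 - val X i) - ∑ i ∈ Ioc (-(M : ℤ)) M, (1 - val Y i) := by
      rw [hD, ← sum_sub_distrib]
      exact sum_congr rfl fun i _ => by ring
    linarith
  have key : ∀ N : ℕ, |(D : ℝ)| ≤ 9216 * E + (144 * (2 * M + 4) + 6) * (1 / ((N : ℝ) + 1)) := by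
    intro N
    obtain ⟨r, θ, H⟩ := exists_rad h N
    obtain ⟨x', h1, h2, h3⟩ := chain hh H (-M - N) (2 * M + 2 * N)
    obtain ⟨t, ht⟩ := hX (Ioc (-(M : ℤ) - 2 * N) (M + 3 * N))
    have ht1 := lh_of_eq hk ht
    set τ : ℝ := t + ((k (-M - 2 * N) - fl t (-M - 2 * N) : ℤ) : ℝ)
    have hL : LH h (τ + (h (-M) - k (-M) : ℤ)) (-M - 2 * N) (-M) := fun j j1 j2 => by
      rw [fl_add, ← ht1 j j1 (by omega)]
      have := hh.diff hk j2 fun i hi => hM i (by simp only [mem_Ioc] at hi ⊢; omega)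
      linarith
    have hR : LH h (τ + (h M - k M : ℤ)) M (M + 3 * N) := fun j j1 j2 => by
      rw [fl_add, ← ht1 j (by omega) j2]
      have := hh.diff hk j1 fun i hi => hM i (by simp only [mem_Ioc] at hi ⊢; omega)
      linarith
    have r1 : N ≤ r (-M - N) := (H _).2.2 N _ le_rfl fun j j1 j2 => hL j (by omega) (by omega)
    have r2 : N ≤ r x' := (H _).2.2 N _ le_rfl fun j j1 j2 => hR j (by omega) (by omega)
    have g1 := gap (n := 2 * N + 1) (c := -M - 2 * N) (by omega) (H (-M - N)).2.1 hL (by omega)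
      (by omega) (by omega) (by omega)
    have g2 := gap (n := 2 * N + 1) (c := x' - N) (by omega) (H x').2.1 hR (by omega)
      (by omega) (by omega) (by omega)
    have hN : (0 : ℝ) < (N : ℝ) + 1 := by positivity
    have g3 : (6 : ℝ) / (((2 * N + 1 : ℕ) : ℝ) + 1) = 3 * (1 / ((N : ℝ) + 1)) := by
      push_cast; field_simp; ring
    rw [g3] at g1 g2
    have c1 : ∀ y, cst r y ≤ 1 / ((N : ℝ) + 1) ^ 2 +
        64 * ∑ s ∈ Icc 1 (2 * N), H0 (Ioc (y - s) (y + s)) Y := by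
      intro y
      have n1 : 0 ≤ ∑ s ∈ Icc 1 (2 * N), H0 (Ioc (y - s) (y + s)) Y :=
        sum_nonneg fun _ _ => H0_nonneg _ _
      rcases (H y).1.eq_or_lt with e | e
      · unfold cst; rw [e]; linarith
      have hR : (0 : ℝ) < (r y : ℝ) + 1 := by positivity
      have n2 : ∀ s ∈ Icc (r y + 1) (2 * r y + 1),
          1 / (4 * ((r y : ℝ) + 1)) ^ 3 ≤ H0 (Ioc (y - s) (y + s)) Y := by
        intro s hs
        rw [mem_Icc] at hs
        rw [H0_illegal]
        · have : (y + s - (y - s)).toNat = 2 * s := by omega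
          rw [this]
          have p1 : (0 : ℝ) < ((2 * s : ℕ) : ℝ) := by exact_mod_cast (by omega : 0 < 2 * s)
          have p2 : ((2 * s : ℕ) : ℝ) ≤ 4 * ((r y : ℝ) + 1) := by
            exact_mod_cast (by omega : 2 * s ≤ 4 * (r y + 1))
          gcongr
        · rintro ⟨θ', hθ'⟩
          have q1 := lh_of_eq hh hθ'
          have := (H y).2.2 (r y + 1) _ e fun j j1 j2 => q1 j (by omega) (by omega)
          omega
      have n3 := card_nsmul_le_sum _ _ _ n2
      rw [Nat.card_Icc, nsmul_eq_mul] at n3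
      have n4 : 2 * r y + 1 + 1 - (r y + 1) = r y + 1 := by omega
      rw [n4] at n3
      have n5 : ∑ s ∈ Icc (r y + 1) (2 * r y + 1), H0 (Ioc (y - s) (y + s)) Y ≤
          ∑ s ∈ Icc 1 (2 * N), H0 (Ioc (y - s) (y + s)) Y :=
        sum_le_sum_of_subset_of_nonneg (Icc_subset_Icc (by omega) (by omega))
          fun _ _ _ => H0_nonneg _ _
      have n6 : cst r y = 64 * (((r y + 1 : ℕ) : ℝ) * (1 / (4 * ((r y : ℝ) + 1)) ^ 3)) := by
        unfold cst; push_cast; field_simp; norm_num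
      have n7 : (0 : ℝ) ≤ 1 / ((N : ℝ) + 1) ^ 2 := by positivity
      linarith
    have c2 := sum_le_sum (s := Ico (-(M : ℤ) - N) x') fun y _ => c1 y
    rw [sum_add_distrib, ← mul_sum, ← sum_product', sum_const, Int.card_Ico, nsmul_eq_mul] at c2
    have c3 := sum_le_E hs (Ico (-(M : ℤ) - N) x' ×ˢ Icc 1 (2 * N))
      (fun p => Ioc (p.1 - p.2) (p.1 + p.2)) (by
        rintro ⟨a, b⟩ hab ⟨c, d⟩ hcd e
        simp only [coe_product, Set.mem_prod, mem_coe, mem_Icc] at hab hcd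
        have := Ioc_inj e (by omega) (by omega)
        ext <;> simp only <;> omega)
    have c4 : (((x' - (-M - N)).toNat : ℕ) : ℝ) * (1 / ((N : ℝ) + 1) ^ 2) ≤
        (2 * M + 4) * (1 / ((N : ℝ) + 1)) := by
      have p1 : (x' - (-M - N)).toNat ≤ (2 * M + 4) * (N + 1) := by
        have : (x' - (-M - N)).toNat ≤ 2 * M + 4 * N := by omega
        nlinarith
      have p2 : (((x' - (-M - N)).toNat : ℕ) : ℝ) ≤ (2 * M + 4) * (N + 1) := by exact_mod_cast p1
      calc _ ≤ (2 * M + 4) * (N + 1) * (1 / ((N : ℝ) + 1) ^ 2) := by gcongr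
        _ = _ := by field_simp
    have d1 : (D : ℝ) = ((h (-M) - k (-M) : ℤ) : ℝ) - ((h M - k M : ℤ) : ℝ) := by
      rw [hD1]; push_cast; ring
    have g4 := abs_le.1 g1
    have g5 := abs_le.1 g2
    have g6 := abs_le.1 h3
    rw [d1, abs_le]
    constructor <;> linarith
  have lim : Tendsto (fun N : ℕ => 9216 * E + (144 * (2 * (M : ℝ) + 4) + 6) * (1 / ((N : ℝ) + 1)))
      atTop (𝓝 (9216 * E + (144 * (2 * (M : ℝ) + 4) + 6) * 0)) :=
    (tendsto_one_div_add_atTop_nhds_zero_nat.const_mul _).const_add _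
  simpa using ge_of_tendsto' lim key

/-! ### Local functions are affine on Sturmian words -/

def Aff (a b : ℤ) (F : ℝ → ℝ) : Prop :=
  ∃ (c : ℝ) (α : ℤ → ℝ), ∀ θ, F θ = c + ∑ j ∈ Ioc a b, α j * (val (z θ) j : ℝ)

theorem Aff.sum {a b : ℤ} {ι : Type} (s : Finset ι) (F : ι → ℝ → ℝ) (w : ι → ℝ)
    (h : ∀ i, Aff a b (F i)) : Aff a b fun θ => ∑ i ∈ s, w i * F i θ := by
  choose c α h using h
  refine ⟨∑ i ∈ s, w i * c i, fun j => ∑ i ∈ s, w i * α i j, fun θ => ?_⟩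
  simp only [h, mul_add, sum_add_distrib, mul_sum, sum_mul]
  rw [sum_comm]
  simp only [mul_assoc]

theorem aff_fl {a b i l : ℤ} (hi : i ∈ Icc a b) (hl : l ∈ Icc a b) (c : ℝ) :
    Aff a b fun θ => (fl θ i : ℝ) - fl θ l + c := by
  rw [mem_Icc] at hi hl
  have key : ∀ θ, ∀ i, a ≤ i → i ≤ b → (fl θ i : ℝ) = fl θ a + (i - a) -
      ∑ j ∈ Ioc a b, (if j ≤ i then 1 else 0) * (val (z θ) j : ℝ) := by
    intro θ i h1 h2
    have h3 := (ht_z θ).sum h1
    have h4 : Ioc a i = (Ioc a b).filter fun j => j ≤ i := by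
      ext x; simp only [mem_Ioc, mem_filter]; omega
    rw [sum_sub_distrib, sum_const, Int.card_Ioc, nsmul_eq_mul, mul_one,
      Int.toNat_of_nonneg (by omega), h4, sum_filter] at h3
    have h5 := congrArg (Int.cast : ℤ → ℝ) h3
    push_cast at h5
    simp only [ite_mul, one_mul, zero_mul]
    linarith
  refine ⟨i - l + c, fun j => (if j ≤ l then 1 else 0) - (if j ≤ i then 1 else 0), fun θ => ?_⟩
  simp only [sub_mul, sum_sub_distrib]
  rw [key θ i hi.1 hi.2, key θ l hl.1 hl.2]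
  ring

open Classical in
theorem aff_ind {a b : ℤ} (hab : a ≤ b) (Y : Conf) :
    Aff a b fun θ => if ∀ j ∈ Ioc a b, z θ j = Y j then 1 else 0 := by
  by_cases hY : Legal Y (Ioc a b)
  swap
  · refine ⟨0, 0, fun θ => ?_⟩
    simp only
    rw [if_neg fun h => hY ⟨θ, fun j hj => (h j hj).symm⟩]
    simp
  obtain ⟨t, ht⟩ := hY
  have hne : (Icc a b).Nonempty := ⟨a, by simp [hab]⟩
  obtain ⟨i, hi, hi'⟩ := exists_max_image (Icc a b) (fun j : ℤ => (fl t j : ℝ) - j * φ0) hne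
  obtain ⟨l, hl, hl'⟩ := exists_min_image (Icc a b) (fun j : ℤ => (fl t j : ℝ) - j * φ0) hne
  obtain ⟨c, α, h⟩ := aff_fl hi hl (fl t l - fl t i + 1)
  refine ⟨c, α, fun θ => ?_⟩
  rw [← h θ]
  have hil := hi' l hl
  have t1 : (fl t i : ℝ) ≤ t + i * φ0 := Int.floor_le _
  have t2 : t + l * φ0 < fl t l + 1 := Int.lt_floor_add_one _
  have s1 : (fl θ i : ℝ) ≤ θ + i * φ0 := Int.floor_le _
  have s2 : θ + i * φ0 < fl θ i + 1 := Int.lt_floor_add_one _
  simp only at hil ⊢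
  split_ifs with e
  · have e1 := lh_of_eq (ht_z θ) (θ := t) fun j hj => (e j hj).trans (ht j hj)
    rw [mem_Icc] at hi hl
    have e2 := e1 i hi.1 hi.2
    have e3 := e1 l hl.1 hl.2
    rw [fl_add] at e2 e3
    rw [e2, e3]; push_cast; ring
  · have e1 : fl θ l = fl t l + (fl θ i - fl t i) + 1 := by
      unfold fl at *
      rw [Int.floor_eq_iff]
      push_cast
      refine ⟨?_, by linarith⟩
      by_contra e2
      push Not at e2
      apply e
      have e3 : LH (fl θ) (t + (fl θ i - fl t i : ℤ)) a b := fun j j1 j2 => by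
        rw [fl_add]
        have u1 := hi' j (mem_Icc.2 ⟨j1, j2⟩)
        have u2 := hl' j (mem_Icc.2 ⟨j1, j2⟩)
        unfold fl at *
        rw [Int.floor_eq_iff]
        push_cast
        constructor <;> linarith
      intro j hj
      rw [eq_of_lh (ht_z θ) e3 j hj, z_add_int, ht j hj]
    rw [e1]; push_cast; ring

theorem aff_local {a b : ℤ} (hab : a ≤ b) {f : Conf → ℝ}
    (hf : ∀ X Y : Conf, (∀ i ∈ Ioc a b, X i = Y i) → f X = f Y) :
    ∃ (c : ℝ) (α : ℤ → ℝ), ∀ Y, Legal Y (Ioc a b) →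
      f Y = c + ∑ j ∈ Ioc a b, α j * (val Y j : ℝ) := by
  classical
  let ex : (Ioc a b → Fin 2) → Conf := fun W i => if hi : i ∈ Ioc a b then W ⟨i, hi⟩ else 0
  obtain ⟨c, α, h⟩ := Aff.sum univ _ (fun W => f (ex W)) fun W => aff_ind hab (ex W)
  refine ⟨c, α, ?_⟩
  rintro Y ⟨θ, hθ⟩
  have h1 : ∑ j ∈ Ioc a b, α j * (val Y j : ℝ) = ∑ j ∈ Ioc a b, α j * (val (z θ) j : ℝ) :=
    sum_congr rfl fun j hj => by unfold val; rw [hθ j hj]
  rw [h1, ← h θ]
  simp only
  rw [sum_eq_single fun i : Ioc a b => Y i]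
  · rw [if_pos, mul_one]
    · exact hf _ _ fun i hi => by simp only [ex, dif_pos hi]
    · intro i hi
      simp only [ex, dif_pos hi, hθ i hi]
  · intro W _ hW
    rw [if_neg, mul_zero]
    intro e
    apply hW
    funext i
    have := e i i.2
    simp only [ex, dif_pos i.2] at this
    rw [hθ i i.2, this]
  · simp

end Pool.Agent.H466Z.Sturm
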