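import Mathlib
import Pool.Agent.H466Z.SturmC

set_option autoImplicit false

namespace Pool.Agent.H466Z.Sturm

open Finset Filter Topology MeasureTheory

theorem exists_M {X Y : Conf} (h : {i | Y i ≠ X i}.Finite) :
    ∃ M : ℕ, ∀ i, i ∉ Ioc (-(M : ℤ)) M → Y i = X i := by
  obtain ⟨M, hM⟩ := (h.image fun i => i.natAbs).bddAbove
  refine ⟨M + 1, fun i hi => ?_⟩
  by_contra e
  have := hM (Set.mem_image_of_mem _ e)
  simp only [mem_Ioc] at hi this
  omega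

theorem rel_H0 {X Y : Conf} (hX : ∀ Λ, Legal X Λ) : relEnergy H0 Y X = ∑' Λ, H0 Λ Y := by
  unfold relEnergy
  simp only [H0_legal (hX _), sub_zero]

theorem summ_H0 {X Y : Conf} (hX : ∀ Λ, Legal X Λ) (h : {i | Y i ≠ X i}.Finite) :
    Summable fun Λ => H0 Λ Y := by
  simpa only [H0_legal (hX _), sub_zero] using summable_rel H0_int h

theorem inv' {Φ : Finset ℤ → Conf → ℝ} (hΦ : IsInteraction Φ) (Λ : Finset ℤ) (x : ℤ) (Y : Conf) :
    Φ (Λ.image fun i => i + x) Y = Φ Λ (shift (-x) Y) := by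
  rw [← hΦ.inv Λ x, shift_shift, add_neg_cancel, shift_zero]

noncomputable def shapes (r : ℕ) : Finset (Finset ℤ) := (Ioc (-1 : ℤ) r).powerset.filter fun Λ => 0 ∈ Λ

theorem rel_finite {Φ : Finset ℤ → Conf → ℝ} (hΦ : IsInteraction Φ) {r : ℕ}
    (hr : ∀ Λ : Finset ℤ, (∃ i ∈ Λ, ∃ j ∈ Λ, (r : ℤ) < j - i) → ∀ X : Conf, Φ Λ X = 0)
    {X Y : Conf} {M : ℕ} (hM : ∀ i, i ∉ Ioc (-(M : ℤ)) M → Y i = X i) :
    relEnergy Φ Y X = ∑ x ∈ Icc (-(M : ℤ) - r) M,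
      (∑ Λ ∈ shapes r, Φ Λ (shift (-x) Y) - ∑ Λ ∈ shapes r, Φ Λ (shift (-x) X)) := by
  unfold relEnergy
  rw [tsum_eq_sum (s := (Icc (-(M : ℤ) - r) M ×ˢ shapes r).image
    fun p => p.2.image fun i => i + p.1), sum_image, sum_product]
  · simp only [inv' hΦ, sum_sub_distrib]
  · rintro ⟨x, A⟩ hA ⟨y, B⟩ hB e
    simp only [coe_product, Set.mem_prod, mem_coe, shapes, mem_filter, mem_powerset] at hA hB e
    have h1 : x ∈ B.image fun i => i + y := by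
      rw [← e]; exact mem_image.2 ⟨0, hA.2.2, zero_add _⟩
    have h2 : y ∈ A.image fun i => i + x := by
      rw [e]; exact mem_image.2 ⟨0, hB.2.2, zero_add _⟩
    obtain ⟨i, hi, h1⟩ := mem_image.1 h1
    obtain ⟨j, hj, h2⟩ := mem_image.1 h2
    have h3 := mem_Ioc.1 (hB.2.1 hi)
    have h4 := mem_Ioc.1 (hA.2.1 hj)
    have h5 : x = y := by omega
    subst h5
    rw [image_injective (add_left_injective x) e]
  · intro Λ hΛ
    by_cases h1 : ∀ i ∈ Λ, Y i = X i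
    · rw [hΦ.loc Λ Y X h1, sub_self]
    by_cases h2 : ∃ i ∈ Λ, ∃ j ∈ Λ, (r : ℤ) < j - i
    · rw [hr Λ h2, hr Λ h2, sub_self]
    exfalso
    push Not at h1 h2
    obtain ⟨i, hi, hi'⟩ := h1
    have h3 : i ∈ Ioc (-(M : ℤ)) M := by
      by_contra e; exact hi' (hM i e)
    have hne : Λ.Nonempty := ⟨i, hi⟩
    have h4 := Λ.min'_mem hne
    have h5 := fun j hj => Λ.min'_le j hj
    set x := Λ.min' hne
    apply hΛ
    refine mem_image.2 ⟨(x, Λ.image fun i => i - x), ?_, ?_⟩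
    · simp only [mem_product, mem_Icc, shapes, mem_filter, mem_powerset]
      have h6 := h2 x h4 i hi
      have h7 : x ≤ i := h5 i hi
      rw [mem_Ioc] at h3
      refine ⟨⟨by omega, by omega⟩, fun y hy => ?_, mem_image.2 ⟨x, h4, sub_self _⟩⟩
      obtain ⟨j, hj, rfl⟩ := mem_image.1 hy
      have h8 := h2 x h4 j hj
      have h9 : x ≤ j := h5 j hj
      rw [mem_Ioc]; omega
    · simp [image_image, Function.comp_def]

theorem pert_bound {Φ : Finset ℤ → Conf → ℝ} (hΦ : IsInteraction Φ) (hf : FiniteRange Φ) :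
    ∃ C : ℝ, 0 < C ∧ ∀ X Y : Conf, (∀ Λ, Legal X Λ) → {i | Y i ≠ X i}.Finite →
      |relEnergy Φ Y X| ≤ C * ∑' Λ, H0 Λ Y := by
  obtain ⟨r, hr⟩ := hf
  let f : Conf → ℝ := fun Y => ∑ Λ ∈ shapes r, Φ Λ Y
  have hf : ∀ X Y : Conf, (∀ i ∈ Ioc (-1 : ℤ) r, X i = Y i) → f X = f Y := fun X Y h =>
    sum_congr rfl fun Λ hΛ => hΦ.loc Λ X Y fun i hi =>
      h i (mem_powerset.1 (mem_filter.1 hΛ).1 hi)
  obtain ⟨c, α, hα⟩ := aff_local (show (-1 : ℤ) ≤ r by omega) hf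
  let e : Conf → ℝ := fun Y => f Y - (c + ∑ j ∈ Ioc (-1 : ℤ) r, α j * (val Y j : ℝ))
  obtain ⟨B, hB⟩ : ∃ B : ℝ, ∀ Y, |e Y| ≤ B := by
    have : (Set.range fun Y => |e Y|).Finite := local_finite (Ioc (-1 : ℤ) r) fun X Y h => by
      have : ∑ j ∈ Ioc (-1 : ℤ) r, α j * (val X j : ℝ) = ∑ j ∈ Ioc (-1 : ℤ) r, α j * val Y j :=
        sum_congr rfl fun j hj => by unfold val; rw [h j hj]
      simp only [e, hf X Y h, this]
    obtain ⟨B, hB⟩ := this.bddAbove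
    exact ⟨B, fun Y => hB ⟨Y, rfl⟩⟩
  have hB0 : 0 ≤ B := (abs_nonneg _).trans (hB 0)
  have he : ∀ Y, |e Y| ≤ B * ((r : ℝ) + 1) ^ 3 * H0 (Ioc (-1 : ℤ) r) Y := fun Y => by
    by_cases h : Legal Y (Ioc (-1 : ℤ) r)
    · simp only [e, hα Y h, H0_legal h]; simp
    · rw [H0_illegal h]
      have : ((r : ℤ) - -1).toNat = r + 1 := by omega
      rw [this]; push_cast
      rw [mul_assoc, mul_one_div_cancel (by positivity), mul_one]
      exact hB Y
  refine ⟨|∑ j ∈ Ioc (-1 : ℤ) r, α j| * 9216 + B * ((r : ℝ) + 1) ^ 3 + 1, by positivity,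
    fun X Y hX hY => ?_⟩
  obtain ⟨M, hM⟩ := exists_M hY
  have hs := summ_H0 hX hY
  have hD := D_bound hX M hM hs
  have hE : 0 ≤ ∑' Λ, H0 Λ Y := tsum_nonneg fun _ => H0_nonneg _ _
  set D : ℤ := ∑ i ∈ Ioc (-(M : ℤ)) M, (val Y i - val X i) with hD'
  have h1 : ∀ j ∈ Ioc (-1 : ℤ) r, ∑ x ∈ Icc (-(M : ℤ) - r) M,
      ((val (shift (-x) Y) j : ℝ) - val (shift (-x) X) j) = D := by
    intro j hj
    rw [mem_Ioc] at hj
    have h2 : ∑ i ∈ (Icc (-(M : ℤ) - r) M).image (fun x => j + x), (val Y i - val X i) = D := by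
      symm
      refine sum_subset (fun i hi => ?_) fun i _ hi => ?_
      · rw [mem_Ioc] at hi
        exact mem_image.2 ⟨i - j, by rw [mem_Icc]; omega, by ring⟩
      · unfold val; rw [hM i hi, sub_self]
    rw [sum_image fun a _ b _ h => add_left_cancel h] at h2
    rw [← h2]
    push_cast
    simp [val, shift]
  have h2 : relEnergy Φ Y X = (∑ j ∈ Ioc (-1 : ℤ) r, α j) * D +
      ∑ x ∈ Icc (-(M : ℤ) - r) M, e (shift (-x) Y) := by
    rw [rel_finite hΦ hr hM, sum_mul]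
    have h3 : ∑ j ∈ Ioc (-1 : ℤ) r, α j * D = ∑ j ∈ Ioc (-1 : ℤ) r, ∑ x ∈ Icc (-(M : ℤ) - r) M,
        α j * ((val (shift (-x) Y) j : ℝ) - val (shift (-x) X) j) :=
      sum_congr rfl fun j hj => by rw [← mul_sum, h1 j hj]
    rw [h3, sum_comm, ← sum_add_distrib]
    refine sum_congr rfl fun x _ => ?_
    have h4 : Legal (shift (-x) X) (Ioc (-1 : ℤ) r) := by
      rw [← legal_shift _ _ x, shift_shift, add_neg_cancel, shift_zero]; exact hX _
    have h5 := hα _ h4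
    simp only [e, f, mul_sub, sum_sub_distrib] at h5 ⊢
    linarith
  have h3 : |∑ x ∈ Icc (-(M : ℤ) - r) M, e (shift (-x) Y)| ≤
      B * ((r : ℝ) + 1) ^ 3 * ∑' Λ, H0 Λ Y := by
    refine (abs_sum_le_sum_abs _ _).trans ((sum_le_sum fun x _ => he _).trans ?_)
    rw [← mul_sum]
    refine mul_le_mul_of_nonneg_left ?_ (by positivity)
    simp only [← inv' H0_int, image_Ioc]
    refine sum_le_E hs _ (fun x => Ioc (-1 + x) (r + x)) fun a _ b _ h => ?_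
    have := Ioc_inj h (by omega) (by omega)
    omega
  rw [h2]
  refine (abs_add_le _ _).trans ?_
  rw [abs_mul]
  have h4 := mul_le_mul_of_nonneg_left hD (abs_nonneg (∑ j ∈ Ioc (-1 : ℤ) r, α j))
  nlinarith

theorem stable_conf {Φ : Finset ℤ → Conf → ℝ} (hΦ : IsInteraction Φ) (hf : FiniteRange Φ) :
    ∃ ε0 : ℝ, 0 < ε0 ∧ ∀ ε, 0 < ε → ε < ε0 → ∀ X, (∀ Λ, Legal X Λ) →
      IsGroundConf (fun Λ Y => H0 Λ Y + ε * Φ Λ Y) X := by
  obtain ⟨C, hC, h⟩ := pert_bound hΦ hf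
  refine ⟨1 / C, by positivity, fun ε h0 h1 X hX Y hY => ?_⟩
  have e : relEnergy (fun Λ Y => H0 Λ Y + ε * Φ Λ Y) Y X
      = relEnergy H0 Y X + ε * relEnergy Φ Y X := by
    unfold relEnergy
    rw [← tsum_mul_left, ← (summable_rel H0_int hY).tsum_add ((summable_rel hΦ hY).mul_left ε)]
    exact tsum_congr fun Λ => by ring
  rw [e, rel_H0 hX]
  have h2 := (abs_le.1 (h X Y hX hY)).1
  have hE : 0 ≤ ∑' Λ, H0 Λ Y := tsum_nonneg fun _ => H0_nonneg _ _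
  rw [lt_div_iff₀ hC] at h1
  nlinarith

theorem ground_of_legal {X : Conf} (hX : ∀ Λ, Legal X Λ) : IsGroundConf H0 X := fun Y _ => by
  rw [rel_H0 hX]
  exact tsum_nonneg fun _ => H0_nonneg _ _

theorem ground_bound : ∃ K : ℝ, ∀ X, IsGroundConf H0 X → ∀ a b : ℤ, a < b → ∀ L : ℕ,
    ∑ x ∈ range L, H0 (Ioc a b) (shift (-x) X) ≤ K := by
  classical
  obtain ⟨K, hK⟩ := bp_hasSum H0_int
  refine ⟨K + K, fun X hX a b hab L => ?_⟩
  let Y : Conf := fun i => if i ∈ Ioc a (b + L) then z 0 i else X i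
  have hY : {i | Y i ≠ X i}.Finite := (Ioc a (b + L)).finite_toSet.subset fun i hi => by
    by_contra e
    exact hi (if_neg e)
  let S : Finset (Finset ℤ) := (range L).image fun x : ℕ => Ioc (a + x) (b + x)
  let g : Finset ℤ → ℝ := fun Λ => if Λ ∈ S then H0 Λ X else 0
  have hg : HasSum g (∑ Λ ∈ S, H0 Λ X) := by
    have : HasSum g (∑ Λ ∈ S, g Λ) := hasSum_sum_of_ne_finset_zero fun Λ h => if_neg h
    rwa [sum_congr rfl fun Λ h => if_pos h] at this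
  have h1 : ∀ Λ, H0 Λ Y - H0 Λ X ≤ bp H0 (a + 1) Λ + bp H0 (b + L) Λ - g Λ := by
    intro Λ
    have p1 := bp_nonneg H0 (a + 1) Λ
    have p2 := bp_nonneg H0 (b + L) Λ
    have p3 := H0_nonneg Λ X
    have p4 : g Λ ≤ H0 Λ X := by simp only [g]; split_ifs <;> linarith
    have p5 : H0 Λ Y ≤ nrm H0 Λ := (le_abs_self _).trans (le_nrm H0_int Λ Y)
    by_cases q1 : a + 1 ∈ Λ
    · simp only [bp, if_pos q1] at p2 ⊢; linarith
    by_cases q2 : b + L ∈ Λ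
    · simp only [bp, if_pos q2] at p1 ⊢; linarith
    by_cases q3 : Λ ⊆ Ioc a (b + L)
    · rw [H0_legal (Y := Y) ⟨0, fun j hj => if_pos (q3 hj)⟩]; linarith
    have q4 : g Λ = 0 := if_neg fun h => by
      obtain ⟨x, hx, rfl⟩ := mem_image.1 h
      rw [mem_range] at hx
      exact q3 (Ioc_subset_Ioc (by omega) (by omega))
    by_cases q5 : ∃ c d : ℤ, Λ = Ioc c d
    · obtain ⟨c, d, rfl⟩ := q5
      rw [H0_int.loc _ Y X fun i hi => if_neg fun e => q3 fun j hj => by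
        simp only [mem_Ioc] at *; omega]
      linarith
    · have : H0 Λ Y = 0 := if_neg fun h => q5 h.1
      linarith
  have h2 := hasSum_le h1 (summable_rel H0_int hY).hasSum (((hK _).add (hK _)).sub hg)
  have h3 : 0 ≤ ∑' Λ, (H0 Λ Y - H0 Λ X) := hX Y hY
  have h4 : ∑ Λ ∈ S, H0 Λ X = ∑ x ∈ range L, H0 (Ioc a b) (shift (-x) X) := by
    rw [sum_image]
    · simp only [← inv' H0_int, image_Ioc]
    · intro x _ y _ h
      have := Ioc_inj h (by omega) (by omega)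
      omega
  linarith

end Pool.Agent.H466Z.Sturm
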