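import Mathlib
import Pool.Agent.H466Z.SturmD

set_option autoImplicit false

namespace Pool.Agent.H466Z.Sturm

open Finset Filter Topology MeasureTheory

theorem meas_shift (a : ℤ) : Measurable (shift a) :=
  measurable_pi_lambda _ fun _ => measurable_pi_apply _

theorem meas_local {f : Conf → ℝ} (Λ : Finset ℤ)
    (h : ∀ X Y : Conf, (∀ i ∈ Λ, X i = Y i) → f X = f Y) : Measurable f := by
  classical
  let g : (Λ → Fin 2) → ℝ := fun W => f fun i => if hi : i ∈ Λ then W ⟨i, hi⟩ else 0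
  have : f = g ∘ fun X (i : Λ) => X i := by
    funext X
    exact h _ _ fun i hi => by simp [hi]
  rw [this]
  exact (measurable_of_finite g).comp (measurable_pi_lambda _ fun _ => measurable_pi_apply _)

theorem int_local {f : Conf → ℝ} (Λ : Finset ℤ)
    (h : ∀ X Y : Conf, (∀ i ∈ Λ, X i = Y i) → f X = f Y) (μ : Measure Conf)
    [IsProbabilityMeasure μ] (a : ℤ) : Integrable (fun X => f (shift a X)) μ := by
  obtain ⟨B, hB⟩ := (local_finite (f := fun X => |f X|) Λ fun X Y e => by rw [h X Y e]).bddAbove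
  exact Integrable.of_bound ((meas_local Λ h).comp (meas_shift a)).aestronglyMeasurable B
    (Eventually.of_forall fun X => hB ⟨_, rfl⟩)

theorem avg_le {f : Conf → ℝ} (Λ : Finset ℤ)
    (h : ∀ X Y : Conf, (∀ i ∈ Λ, X i = Y i) → f X = f Y) {μ : Measure Conf} (hμ : IsInvProb μ)
    (c K : ℝ) (hK : ∀ L : ℕ, ∀ᵐ X ∂μ, ∑ x ∈ range L, f (shift (-x) X) ≤ L * c + K) :
    ∫ X, f X ∂μ ≤ c := by
  have := hμ.1
  have h1 : ∀ a, ∫ X, f (shift a X) ∂μ = ∫ X, f X ∂μ := fun a => by
    conv_rhs => rw [← hμ.2 a]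
    rw [integral_map (meas_shift a).aemeasurable (meas_local Λ h).aestronglyMeasurable]
  have h2 : ∀ L : ℕ, L * ∫ X, f X ∂μ ≤ L * c + K := fun L => by
    have h3 := integral_mono_ae (integrable_finsetSum _ fun x _ => int_local Λ h μ (-(x : ℕ)))
      (integrable_const _) (hK L)
    rw [integral_finsetSum _ fun x _ => int_local Λ h μ (-(x : ℕ))] at h3
    simpa [h1] using h3
  by_contra h3
  push Not at h3
  obtain ⟨L, hL⟩ := exists_nat_gt (K / (∫ X, f X ∂μ - c))
  rw [div_lt_iff₀ (by linarith)] at hL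
  have := h2 L
  nlinarith

theorem int_local' {f : Conf → ℝ} (Λ : Finset ℤ)
    (h : ∀ X Y : Conf, (∀ i ∈ Λ, X i = Y i) → f X = f Y) (μ : Measure Conf)
    [IsProbabilityMeasure μ] : Integrable f μ := by
  simpa only [shift_zero] using int_local Λ h μ 0

theorem sub_Ioc (Λ : Finset ℤ) : ∃ n : ℕ, Λ ⊆ Ioc (-(n : ℤ) - 1) n := by
  obtain ⟨n, hn⟩ := (Λ.image fun i => i.natAbs).bddAbove
  refine ⟨n, fun i hi => ?_⟩
  have := hn (mem_coe.2 (mem_image_of_mem _ hi))
  simp only [mem_Ioc] at this ⊢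
  omega

theorem sturmian_of_ground {μ : Measure Conf} (hμ : IsGroundState H0 μ) :
    IsSturmianMeasure φ0 μ := by
  refine ⟨hμ.1, ?_⟩
  have := hμ.1.1
  obtain ⟨K, hK⟩ := ground_bound
  have h1 : ∀ n : ℕ, ∀ᵐ X ∂μ, Legal X (Ioc (-(n : ℤ) - 1) n) := by
    intro n
    have h2 := avg_le _ (H0_int.loc (Ioc (-(n : ℤ) - 1) n)) hμ.1 0 K fun L => by
      filter_upwards [hμ.2] with X hX
      simpa using hK X hX _ _ (by omega) L
    have h3 := (integral_eq_zero_iff_of_nonneg (fun X => H0_nonneg _ X)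
      (int_local' _ (H0_int.loc (Ioc (-(n : ℤ) - 1) n)) μ)).1
      (le_antisymm h2 (integral_nonneg fun X => H0_nonneg _ X))
    filter_upwards [h3] with X hX
    by_contra e
    rw [H0_illegal e] at hX
    have : ((n : ℤ) - (-(n : ℤ) - 1)).toNat = 2 * n + 1 := by omega
    rw [this] at hX
    exact absurd hX (by simp only [Pi.zero_apply]; positivity)
  filter_upwards [ae_all_iff.2 h1] with X hX
  refine mem_GSt.2 fun Λ => ?_
  obtain ⟨n, hn⟩ := sub_Ioc Λ
  exact (hX n).mono hn

theorem sum_val {X : Conf} (hX : ∀ Λ, Legal X Λ) (j : ℤ) (L : ℕ) :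
    |∑ x ∈ range L, (val (shift (-x) X) j : ℝ) - L * (1 - φ0)| ≤ 1 := by
  obtain ⟨θ, hθ⟩ := hX (Ioc (j - 1) (j - 1 + L))
  have h1 : ∀ n : ℕ, n ≤ L → ∑ x ∈ range n, (val (shift (-x) X) j : ℝ) =
      n - (fl θ (j - 1 + n) - fl θ (j - 1)) := by
    intro n
    induction n with
    | zero => simp
    | succ n ih =>
      intro hn
      rw [sum_range_succ, ih (by omega)]
      have e1 := val_z θ (j + n)
      have e2 : val (shift (-n) X) j = val (z θ) (j + n) := by
        unfold val shift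
        rw [sub_neg_eq_add, hθ _ (by rw [mem_Ioc]; omega)]
      have e3 : j - 1 + (n + 1 : ℕ) = j + n := by push_cast; ring
      have e4 : j - 1 + n = j + n - 1 := by ring
      rw [e2, e3, e4]
      have e5 := congrArg (Int.cast : ℤ → ℝ) e1
      push_cast at e5 ⊢
      linarith
  rw [h1 L le_rfl]
  have s1 : (fl θ (j - 1) : ℝ) ≤ θ + (j - 1 : ℤ) * φ0 := Int.floor_le _
  have s2 : θ + (j - 1 : ℤ) * φ0 < fl θ (j - 1) + 1 := Int.lt_floor_add_one _
  have s3 : (fl θ (j - 1 + L) : ℝ) ≤ θ + (j - 1 + L : ℤ) * φ0 := Int.floor_le _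
  have s4 : θ + (j - 1 + L : ℤ) * φ0 < fl θ (j - 1 + L) + 1 := Int.lt_floor_add_one _
  push_cast at s1 s2 s3 s4
  rw [abs_le]; constructor <;> linarith

theorem val_local (j : ℤ) (X Y : Conf) (h : ∀ i ∈ ({j} : Finset ℤ), X i = Y i) :
    (val X j : ℝ) = val Y j := by
  unfold val; rw [h j (mem_singleton_self _)]

theorem int_val {μ : Measure Conf} (hμ : IsSturmianMeasure φ0 μ) (j : ℤ) :
    ∫ X, (val X j : ℝ) ∂μ = 1 - φ0 := by
  apply le_antisymm
  · refine avg_le {j} (val_local j) hμ.1 _ 1 fun L => ?_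
    filter_upwards [hμ.2] with X hX
    have := abs_le.1 (sum_val (mem_GSt.1 hX) j L)
    linarith
  · have := avg_le (f := fun X => -(val X j : ℝ)) {j} (fun X Y h => by rw [val_local j X Y h])
      hμ.1 (-(1 - φ0)) 1 fun L => by
        filter_upwards [hμ.2] with X hX
        have := abs_le.1 (sum_val (mem_GSt.1 hX) j L)
        rw [sum_neg_distrib]
        linarith
    rw [integral_neg] at this
    linarith

theorem sturmian_unique {μ ν : Measure Conf} (hμ : IsSturmianMeasure φ0 μ)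
    (hν : IsSturmianMeasure φ0 ν) : μ = ν := by
  have := hμ.1.1
  have := hν.1.1
  refine ext_of_generate_finite _ generateFrom_measurableCylinders.symm
    isPiSystem_measurableCylinders (fun t ht => ?_) (by simp)
  have hm := MeasurableSet.of_mem_measurableCylinders ht
  obtain ⟨s, S, -, rfl⟩ := (mem_measurableCylinders t).1 ht
  obtain ⟨n, hn⟩ := sub_Ioc s
  obtain ⟨c, α, h⟩ := aff_local (f := (cylinder s S).indicator 1)
    (show -(n : ℤ) - 1 ≤ n by omega) fun X Y e => by
      have : s.restrict X = s.restrict Y := funext fun i => e i (hn i.2)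
      have h2 : X ∈ cylinder s S ↔ Y ∈ cylinder s S := by rw [mem_cylinder, mem_cylinder, this]
      by_cases h3 : X ∈ cylinder s S
      · rw [Set.indicator_of_mem h3, Set.indicator_of_mem (h2.1 h3)]; rfl
      · rw [Set.indicator_of_notMem h3, Set.indicator_of_notMem fun e => h3 (h2.2 e)]
  have key : ∀ μ : Measure Conf, IsSturmianMeasure φ0 μ →
      μ.real (cylinder s S) = c + ∑ j ∈ Ioc (-(n : ℤ) - 1) n, α j * (1 - φ0) := by
    intro μ hμ
    have := hμ.1.1
    have hi : ∀ j, Integrable (fun X => α j * (val X j : ℝ)) μ := fun j =>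
      (int_local' {j} (val_local j) μ).const_mul _
    rw [← integral_indicator_one hm, integral_congr_ae (g := fun X => c +
      ∑ j ∈ Ioc (-(n : ℤ) - 1) n, α j * (val X j : ℝ)), integral_add (integrable_const _)
      (integrable_finsetSum _ fun j _ => hi j), integral_finsetSum _ fun j _ => hi j]
    · simp only [integral_const_mul, int_val hμ]
      simp
    · filter_upwards [hμ.2] with X hX
      exact h X (mem_GSt.1 hX _)
  exact (ENNReal.toReal_eq_toReal_iff' (measure_ne_top _ _) (measure_ne_top _ _)).1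
    ((key μ hμ).trans (key ν hν).symm)

theorem exists_sturmian : ∃ ρ, IsSturmianMeasure φ0 ρ := by
  let ζ : UnitAddCircle → Conf := fun t i =>
    if (AddCircle.equivIco 1 0 (t + ((i * φ0 : ℝ) : UnitAddCircle)) : ℝ) < φ0 then 0 else 1
  have hζ : ∀ θ : ℝ, ζ θ = z θ := fun θ => by
    funext i
    simp only [ζ, z]
    rw [← AddCircle.coe_add, AddCircle.coe_equivIco_mk_apply]
    simp
  have hm : Measurable ζ := by
    refine measurable_pi_lambda _ fun i => Measurable.ite ?_ measurable_const measurable_const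
    refine measurableSet_lt (measurable_subtype_coe.comp ?_) measurable_const
    exact (AddCircle.measurableEquivIco 1 0).measurable.comp (measurable_add_const _)
  have : IsProbabilityMeasure (volume : Measure UnitAddCircle) := ⟨by simp⟩
  refine ⟨Measure.map ζ volume, ⟨Measure.isProbabilityMeasure_map hm.aemeasurable, fun a => ?_⟩, ?_⟩
  · rw [Measure.map_map (meas_shift a) hm]
    have e : shift a ∘ ζ = ζ ∘ fun t => t + ((-(a * φ0) : ℝ) : UnitAddCircle) := by
      funext t
      induction t using QuotientAddGroup.induction_on with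
      | H θ =>
        simp only [Function.comp]
        rw [← AddCircle.coe_add, hζ, hζ, shift_z, sub_eq_add_neg]
    rw [e, ← Measure.map_map hm (measurable_add_const _), map_add_right_eq_self]
  · refine (ae_map_iff hm.aemeasurable isClosed_closure.measurableSet).2
      (Eventually.of_forall fun t => ?_)
    induction t using QuotientAddGroup.induction_on with
    | H θ => exact mem_GSt.2 fun Λ => ⟨θ, fun j _ => by rw [hζ]⟩

theorem main : ∃ φ : ℝ, Irrational φ ∧ 0 < φ ∧ φ < 1 ∧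
    ∃ (H : Finset ℤ → Conf → ℝ) (ρ : Measure Conf), IsInteraction H ∧ IsSturmianMeasure φ ρ ∧
      (∀ μ, IsSturmianMeasure φ μ → μ = ρ) ∧ IsGroundState H ρ ∧
      (∀ μ, IsGroundState H μ → μ = ρ) ∧
      ∀ H' : Finset ℤ → Conf → ℝ, IsInteraction H' → FiniteRange H' →
        ∃ ε₀ : ℝ, 0 < ε₀ ∧ ∀ ε : ℝ, 0 < ε → ε < ε₀ →
          IsGroundState (fun Λ X => H Λ X + ε * H' Λ X) ρ := by
  obtain ⟨ρ, hρ⟩ := exists_sturmian
  refine ⟨φ0, φ0_irr, φ0_pos, φ0_lt, H0, ρ, H0_int, hρ, fun μ hμ => sturmian_unique hμ hρ,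
    ⟨hρ.1, ?_⟩, fun μ hμ => sturmian_unique (sturmian_of_ground hμ) hρ, fun H' h1 h2 => ?_⟩
  · filter_upwards [hρ.2] with X hX
    exact ground_of_legal (mem_GSt.1 hX)
  · obtain ⟨ε0, h3, h4⟩ := stable_conf h1 h2
    refine ⟨ε0, h3, fun ε h5 h6 => ⟨hρ.1, ?_⟩⟩
    filter_upwards [hρ.2] with X hX
    exact h4 ε h5 h6 X (mem_GSt.1 hX)

end Pool.Agent.H466Z.Sturm
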