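import Mathlib

/-!
The `k`-dimensional Weisfeiler-Leman method on finite simple graphs with coloured vertices.
-/

set_option autoImplicit false

namespace Pool.Agent.H466Z.WL

open Finset

/-- Colours of `k`-tuples after `t` rounds (`C` is the set of vertex colours). -/
def Col (k : ℕ) (C : Type) : ℕ → Type
  | 0 => (Fin k → Fin k → Prop) × (Fin k → Fin k → Prop) × (Fin k → C)
  | t + 1 => Col k C t × Multiset (Fin k → Col k C t)

/-- The colouring `WL^t_k` of `V^k` for the graph `G` with vertex colouring `c`. -/
def wl {V C : Type} [Fintype V] (k : ℕ) (G : SimpleGraph V) (c : V → C) :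
    (t : ℕ) → (Fin k → V) → Col k C t
  | 0 => fun S => (fun i j => S i = S j, fun i j => G.Adj (S i) (S j), fun i => c (S i))
  | t + 1 => fun S => (wl k G c t S,
      (univ : Finset V).val.map fun x => fun i => wl k G c t (Function.update S i x))

/-- Round `t + 1` does not split any colour class of round `t`. -/
def Stable {V C : Type} [Fintype V] (k : ℕ) (G : SimpleGraph V) (c : V → C) (t : ℕ) : Prop :=
  ∀ S T : Fin k → V, wl k G c t S = wl k G c t T → wl k G c (t + 1) S = wl k G c (t + 1) T

/-- The first round after which no colour class splits. -/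
noncomputable def stableRound {V C : Type} [Fintype V] (k : ℕ) (G : SimpleGraph V) (c : V → C) :
    ℕ :=
  sInf {t | Stable k G c t}

/-- A stable round always exists, so `stableRound` is the first stable round. -/
theorem stable_stableRound {V C : Type} [Fintype V] (k : ℕ) (G : SimpleGraph V) (c : V → C) :
    Stable k G c (stableRound k G c) := by
  classical
  refine Nat.sInf_mem (s := {t | Stable k G c t}) ?_
  by_contra h
  have h1 : ∀ t, ¬ Stable k G c t := fun t ht => h ⟨t, ht⟩
  let E : ℕ → Finset ((Fin k → V) × (Fin k → V)) := fun t =>
    univ.filter fun p => wl k G c t p.1 = wl k G c t p.2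
  have h2 : ∀ t, (E (t + 1)).card < (E t).card := by
    intro t
    apply card_lt_card
    obtain ⟨S, T, h3, h4⟩ : ∃ S T, wl k G c t S = wl k G c t T ∧
        wl k G c (t + 1) S ≠ wl k G c (t + 1) T := by
      have := h1 t
      unfold Stable at this
      push Not at this
      exact this
    refine ⟨fun p hp => ?_, fun hs => ?_⟩
    · simp only [E, mem_filter, mem_univ, true_and] at hp ⊢
      exact congrArg Prod.fst hp
    · have : (S, T) ∈ E (t + 1) := hs (by simpa [E] using h3)
      exact h4 (by simpa [E] using this)
  have h3 : ∀ t, (E t).card + t ≤ (E 0).card := by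
    intro t
    induction t with
    | zero => simp
    | succ t ih => have := h2 t; omega
  have := h3 ((E 0).card + 1)
  omega

/-- `j`-fold iterated multisets. -/
def DCol (X : Type) : ℕ → Type
  | 0 => X
  | j + 1 => Multiset (DCol X j)

/-- Downward colouring of `n`-tuples, `n + j = k`, from a colouring `f` of `k`-tuples. -/
def down {V X : Type} [Fintype V] {k : ℕ} (f : (Fin k → V) → X) :
    (j n : ℕ) → n + j = k → (Fin n → V) → DCol X j
  | 0, _, h => fun S => f fun i => S (Fin.cast h.symm i)
  | j + 1, n, h => fun S =>
      (univ : Finset V).val.map fun y =>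
        down f j (n + 1) (by omega) (Fin.snoc (α := fun _ => V) S y)

/-- The colour `WL_k(v)` of a vertex, for `k = j + 1`. -/
noncomputable def vertexColour {V C : Type} [Fintype V] (j : ℕ) (G : SimpleGraph V) (c : V → C)
    (v : V) : DCol (Col (j + 1) C (stableRound (j + 1) G c)) j :=
  down (wl (j + 1) G c (stableRound (j + 1) G c)) j 1 (by omega) fun _ => v

/-- `u` and `v` lie in the same orbit of the colour-preserving automorphism group. -/
def SameOrbit {V C : Type} (G : SimpleGraph V) (c : V → C) (u v : V) : Prop :=
  ∃ φ : G ≃g G, (∀ x, c (φ x) = c x) ∧ φ u = v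

/-- The `(j + 1)`-dimensional method refines the coloured graph `(G, c)` to its orbits. -/
def Refines {V C : Type} [Fintype V] (j : ℕ) (G : SimpleGraph V) (c : V → C) : Prop :=
  ∀ u v : V, vertexColour j G c u = vertexColour j G c v ↔ SameOrbit G c u v

open Classical in
/-- The colouring `c` with `v` recoloured by a new colour. -/
noncomputable def stabilise {V C : Type} (c : V → C) (v : V) : V → Option C :=
  fun x => if x = v then none else some (c x)

end Pool.Agent.H466Z.WL
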