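import Mathlib
import Pool.Agent.H466Z.WLDefs

set_option autoImplicit false

namespace Pool.Agent.H466Z.WL

open Finset

/-- A winning strategy in the bijective game. -/
structure Strat {V C : Type} (k : ℕ) (G : SimpleGraph V) (c : V → C) (P : Type) where
  dom : P → V → Prop
  φ : P → V → V
  inj : ∀ p x y, dom p x → dom p y → (x = y ↔ φ p x = φ p y)
  adj : ∀ p x y, dom p x → dom p y → (G.Adj x y ↔ G.Adj (φ p x) (φ p y))
  col : ∀ p x, dom p x → c (φ p x) = c x
  ext : ∀ p (n : ℕ) (S : Fin n → V), n ≤ k → (∀ i, dom p (S i)) → ∃ f : V ≃ V, ∀ x, ∃ p',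
    dom p' x ∧ φ p' x = f x ∧ ∀ i, dom p' (S i) ∧ φ p' (S i) = φ p (S i)

theorem map_equiv {V X : Type} [Fintype V] (f : V ≃ V) (g g' : V → X) (h : ∀ x, g x = g' (f x)) :
    (univ : Finset V).val.map g = (univ : Finset V).val.map g' := by
  have h1 : (univ : Finset V).val.map f = (univ : Finset V).val := by simp
  conv_rhs => rw [← h1, Multiset.map_map]
  exact Multiset.map_congr rfl fun x _ => h x

theorem wl_eq {V C P : Type} [Fintype V] {k : ℕ} {G : SimpleGraph V} {c : V → C}
    (σ : Strat k G c P) : ∀ (t : ℕ) (p : P) (S : Fin k → V), (∀ i, σ.dom p (S i)) →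
      wl k G c t S = wl k G c t (fun i => σ.φ p (S i)) := by
  intro t
  induction t with
  | zero =>
    intro p S hS
    refine Prod.ext ?_ (Prod.ext ?_ ?_)
    · funext i j; exact propext (σ.inj p _ _ (hS i) (hS j))
    · funext i j; exact propext (σ.adj p _ _ (hS i) (hS j))
    · funext i; exact (σ.col p _ (hS i)).symm
  | succ t ih =>
    intro p S hS
    refine Prod.ext (ih p S hS) ?_
    obtain ⟨f, hf⟩ := σ.ext p k S le_rfl hS
    refine map_equiv f _ _ fun x => ?_
    obtain ⟨p', h1, h2, h3⟩ := hf x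
    funext i
    rw [ih p' (Function.update S i x)]
    · congr 1
      funext l
      by_cases hl : l = i
      · subst hl; simp [h2]
      · simp [Function.update_of_ne hl, (h3 l).2]
    · intro l
      by_cases hl : l = i
      · subst hl; simpa using h1
      · simpa [Function.update_of_ne hl] using (h3 l).1

theorem down_eq {V C P : Type} [Fintype V] {k : ℕ} {G : SimpleGraph V} {c : V → C}
    (σ : Strat k G c P) (t : ℕ) : ∀ (j n : ℕ) (h : n + j = k) (p : P) (S : Fin n → V),
      (∀ i, σ.dom p (S i)) →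
      down (wl k G c t) j n h S = down (wl k G c t) j n h (fun i => σ.φ p (S i)) := by
  intro j
  induction j with
  | zero =>
    intro n h p S hS
    exact wl_eq σ t p _ fun i => hS _
  | succ j ih =>
    intro n h p S hS
    obtain ⟨f, hf⟩ := σ.ext p n S (by omega) hS
    refine map_equiv f _ _ fun x => ?_
    obtain ⟨p', h1, h2, h3⟩ := hf x
    rw [ih (n + 1) (by omega) p' (Fin.snoc (α := fun _ => V) S x)]
    · congr 1
      funext l
      refine Fin.lastCases ?_ (fun l => ?_) l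
      · simp [h2]
      · simp [(h3 l).2]
    · intro l
      refine Fin.lastCases ?_ (fun l => ?_) l
      · simpa using h1
      · simpa using (h3 l).1

theorem vc_eq {V C P : Type} [Fintype V] {j : ℕ} {G : SimpleGraph V} {c : V → C}
    (σ : Strat (j + 1) G c P) (p : P) (u : V) (hu : σ.dom p u) :
    vertexColour j G c u = vertexColour j G c (σ.φ p u) :=
  down_eq σ _ j 1 _ p _ fun _ => hu

theorem vc_of_orbit {V C : Type} [Fintype V] {j : ℕ} {G : SimpleGraph V} {c : V → C} {u v : V}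
    (h : SameOrbit G c u v) : vertexColour j G c u = vertexColour j G c v := by
  obtain ⟨ψ, h1, h2⟩ := h
  let σ : Strat (j + 1) G c Unit :=
    { dom := fun _ _ => True
      φ := fun _ => ψ
      inj := fun _ x y _ _ => ψ.injective.eq_iff.symm
      adj := fun _ x y _ _ => ψ.map_adj_iff.symm
      col := fun _ x _ => h1 x
      ext := fun _ _ _ _ _ => ⟨ψ.toEquiv, fun x => ⟨(), trivial, rfl, fun _ => ⟨trivial, rfl⟩⟩⟩ }
  rw [← h2]
  exact vc_eq σ () u trivial

/-! ### The graph -/

abbrev W (m : ℕ) : Type := ZMod 2 × ZMod (2 * m + 1)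

abbrev Vx (m : ℕ) : Type := {p : W m × (W m → ZMod 2) // p.2 p.1 = 0}

def Gr (m : ℕ) : SimpleGraph (Vx m) where
  Adj x y := x.1.1 ≠ y.1.1 ∧ x.1.2 y.1.1 = y.1.2 x.1.1 ∧
    (x.1.1.1 = y.1.1.1 → ∑ z, x.1.2 z = ∑ z, y.1.2 z)
  symm := ⟨fun _ _ h => ⟨h.1.symm, h.2.1.symm, fun e => (h.2.2 e.symm).symm⟩⟩
  loopless := ⟨fun _ h => h.1 rfl⟩

theorem two_self (a : ZMod 2) : a + a = 0 := by revert a; decide

theorem mul_self' (a : ZMod 2) : a * a = a := by revert a; decide

/-- Twisting by rows with zero diagonal. -/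
def tw {m : ℕ} (t : W m → W m → ZMod 2) (ht : ∀ w, t w w = 0) (x : Vx m) : Vx m :=
  ⟨(x.1.1, x.1.2 + t x.1.1), by simp [x.2, ht]⟩

theorem tw_tw {m : ℕ} (t : W m → W m → ZMod 2) (ht : ∀ w, t w w = 0) (x : Vx m) :
    tw t ht (tw t ht x) = x := by
  apply Subtype.ext
  refine Prod.ext rfl ?_
  funext z
  simp [tw, add_assoc, two_self]

def twE {m : ℕ} (t : W m → W m → ZMod 2) (ht : ∀ w, t w w = 0) : Vx m ≃ Vx m :=
  ⟨tw t ht, tw t ht, tw_tw t ht, tw_tw t ht⟩

theorem tw_adj {m : ℕ} (t : W m → W m → ZMod 2) (ht : ∀ w, t w w = 0)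
    (hs : ∀ w w', t w w' = t w' w) (x y : Vx m)
    (h : x.1.1.1 = y.1.1.1 → ∑ z, t x.1.1 z = ∑ z, t y.1.1 z) :
    (Gr m).Adj x y ↔ (Gr m).Adj (tw t ht x) (tw t ht y) := by
  simp only [Gr, tw, Pi.add_apply, sum_add_distrib]
  refine and_congr Iff.rfl (and_congr ?_ ?_)
  · rw [hs x.1.1 y.1.1]; simp
  · refine imp_congr_right fun e => ?_
    rw [h e]; simp

theorem card_W (m : ℕ) : Fintype.card (W m) = 2 * (2 * m + 1) := by
  simp [W, ZMod.card]

theorem sum_const_W (m : ℕ) (p : ZMod 2) : ∑ _z : W m, p = 0 := by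
  rw [sum_const, card_univ, card_W, mul_nsmul, nsmul_eq_mul, two_nsmul, two_self, mul_zero]

theorem sum_ite_ne {m : ℕ} (x : W m) (g : W m → ZMod 2) :
    ∑ y, (if x = y then 0 else g y) = ∑ y, g y + g x := by
  have : ∀ y, (if x = y then 0 else g y) = g y + (if x = y then g y else 0) := by
    intro y; split_ifs <;> simp [two_self]
  simp_rw [this, sum_add_distrib]
  simp

def base {m : ℕ} (w : W m) : Vx m := ⟨(w, 0), rfl⟩

theorem orbit_base {m : ℕ} (x : Vx m) : ∃ ψ : Gr m ≃g Gr m, ψ x = base x.1.1 := by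
  obtain ⟨⟨w, a⟩, ha⟩ := x
  simp only at ha
  set p : ZMod 2 := ∑ z, a z with hp
  let α : W m → ZMod 2 := fun y => if w = y then 1 else a y + p
  have hα : ∑ y, α y = 1 := by
    have : ∀ y, α y = (if w = y then 0 else a y + p) + (if w = y then 1 else 0) := by
      intro y; simp only [α]; split_ifs <;> simp
    simp_rw [this, sum_add_distrib]
    rw [sum_ite_ne, sum_add_distrib, sum_const_W, ← hp, ha]
    simp [two_self]
  let t : W m → W m → ZMod 2 := fun x y => if x = y then 0 else α x * α y + p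
  have ht : ∀ z, t z z = 0 := fun z => by simp [t]
  have hs : ∀ z z', t z z' = t z' z := fun z z' => by
    simp only [t]
    by_cases h : z = z'
    · simp [h]
    · rw [if_neg h, if_neg (Ne.symm h), mul_comm]
  have hr : ∀ z, ∑ y, t z y = p := fun z => by
    simp only [t]
    rw [sum_ite_ne, sum_add_distrib, sum_const_W, ← mul_sum, hα, mul_self', mul_one, add_zero,
      ← add_assoc, two_self, zero_add]
  refine ⟨⟨twE t ht, fun {x y} => (tw_adj t ht hs x y fun _ => by rw [hr, hr]).symm⟩, ?_⟩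
  apply Subtype.ext
  refine Prod.ext rfl ?_
  funext z
  change a z + t w z = 0
  simp only [t, α]
  by_cases h : w = z
  · subst h; simp [ha]
  · simp [h, add_assoc, two_self]

def shift {m : ℕ} (d : W m) (x : Vx m) : Vx m :=
  ⟨(x.1.1 + d, fun y => x.1.2 (y - d)), by simp [x.2]⟩

def shiftE {m : ℕ} (d : W m) : Vx m ≃ Vx m :=
  ⟨shift d, shift (-d), fun x => by simp [shift], fun x => by simp [shift]⟩

theorem orbit_shift {m : ℕ} (w w' : W m) : ∃ ψ : Gr m ≃g Gr m, ψ (base w) = base w' := by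
  refine ⟨⟨shiftE (w' - w), fun {x y} => ?_⟩, ?_⟩
  · have : ∀ a : W m → ZMod 2, ∑ z, a (z - (w' - w)) = ∑ z, a z := fun a =>
      Equiv.sum_comp (Equiv.subRight (w' - w)) a
    simp [Gr, shiftE, shift, this]
  · apply Subtype.ext
    refine Prod.ext ?_ rfl
    change w + (w' - w) = w'
    simp

theorem transitive {m : ℕ} (x y : Vx m) : ∃ ψ : Gr m ≃g Gr m, ψ x = y := by
  obtain ⟨a, ha⟩ := orbit_base x
  obtain ⟨b, hb⟩ := orbit_base y
  obtain ⟨e, he⟩ := orbit_shift x.1.1 y.1.1
  refine ⟨(a.trans e).trans b.symm, ?_⟩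
  change b.symm (e (a x)) = y
  rw [ha, he, ← hb]
  simp

/-- Positions of the strategy. -/
structure Pos (m : ℕ) where
  t : W m → W m → ZMod 2
  r : W m
  diag : ∀ w, t w w = 0
  symm : ∀ w w', t w w' = t w' w
  row0 : ∀ w, t 0 w = 0
  r0 : r ≠ 0
  rows : ∀ w, w ≠ r → ∑ z, t w z = w.1
  rowr : ∑ z, t r z = r.1 + 1

def Pos.move {m : ℕ} (p : Pos m) (s : W m) (h0 : s ≠ 0) (hr : s ≠ p.r) : Pos m where
  t := fun x y => p.t x y + (if x = p.r ∧ y = s then 1 else 0) + (if x = s ∧ y = p.r then 1 else 0)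
  r := s
  diag := fun w => by
    have h1 : ¬ (w = p.r ∧ w = s) := fun h => hr (h.2.symm.trans h.1)
    have h2 : ¬ (w = s ∧ w = p.r) := fun h => hr (h.1.symm.trans h.2)
    simp [h1, h2, p.diag]
  symm := fun w w' => by
    rw [p.symm w w', add_right_comm]
    simp only [and_comm]
  row0 := fun w => by
    have h1 : ¬ ((0 : W m) = p.r ∧ w = s) := fun h => p.r0 h.1.symm
    have h2 : ¬ ((0 : W m) = s ∧ w = p.r) := fun h => h0 h.1.symm
    simp [h1, h2, p.row0]
  r0 := h0
  rows := fun w hw => by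
    simp only [sum_add_distrib]
    by_cases h : w = p.r
    · subst h
      simp [p.rowr, hw, add_assoc, two_self]
    · simp [p.rows w h, h, hw]
  rowr := by
    simp only [sum_add_distrib]
    simp [p.rows s hr, hr]

theorem Pos.move_row {m : ℕ} (p : Pos m) (s : W m) (h0 : s ≠ 0) (hr : s ≠ p.r) (w : W m)
    (h1 : w ≠ p.r) (h2 : w ≠ s) : (p.move s h0 hr).t w = p.t w := by
  funext z
  simp [Pos.move, h1, h2]

theorem tw_congr {m : ℕ} {t t' : W m → W m → ZMod 2} (ht : ∀ w, t w w = 0) (ht' : ∀ w, t' w w = 0)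
    (x : Vx m) (h : t x.1.1 = t' x.1.1) : tw t ht x = tw t' ht' x := by
  simp [tw, h]

theorem exists_free {m n : ℕ} (hn : n ≤ m) (hm : 1 ≤ m) (S : Fin n → W m) (r : W m) :
    ∃ s : W m, s ≠ 0 ∧ s ≠ r ∧ ∀ i, S i ≠ s := by
  by_contra h
  push Not at h
  have h1 : (univ : Finset (W m)) ⊆ insert 0 (insert r (univ.image S)) := by
    intro s _
    by_cases h0 : s = 0
    · simp [h0]
    by_cases hr : s = r
    · simp [hr]
    obtain ⟨i, hi⟩ := h s h0 hr
    simp only [mem_insert, mem_image, mem_univ, true_and]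
    exact Or.inr (Or.inr ⟨i, hi⟩)
  have h2 := card_le_card h1
  have h3 := card_insert_le (0 : W m) (insert r (univ.image S))
  have h4 := card_insert_le r (univ.image S)
  have h5 : (univ.image S).card ≤ n := card_image_le.trans (by simp)
  rw [card_univ, card_W] at h2
  omega

/-- The colouring of the stabilised graph. -/
noncomputable abbrev cv (m : ℕ) : Vx m → Option Unit := stabilise (fun _ => ()) (base 0)

noncomputable def strat (m : ℕ) (hm : 1 ≤ m) : Strat m (Gr m) (cv m) (Pos m) where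
  dom := fun p x => x.1.1 ≠ p.r
  φ := fun p => tw p.t p.diag
  inj := fun p x y _ _ => (twE p.t p.diag).injective.eq_iff.symm
  adj := fun p x y hx hy => tw_adj p.t p.diag p.symm x y fun e => by
    rw [p.rows _ hx, p.rows _ hy, e]
  col := fun p x _ => by
    have h0 : tw p.t p.diag (base 0) = base 0 := by
      apply Subtype.ext
      refine Prod.ext rfl ?_
      funext z
      change 0 + p.t 0 z = 0
      simp [p.row0]
    have h1 : tw p.t p.diag x = base 0 ↔ x = base 0 := by
      conv_lhs => rw [← h0]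
      exact (twE p.t p.diag).injective.eq_iff
    by_cases h : x = base 0
    · rw [h, h0]
    · simp [stabilise, h, h1]
  ext := fun p n S hn hS => by
    obtain ⟨s, h0, hr, hs⟩ := exists_free hn hm (fun i => (S i).1.1) p.r
    let q := p.move s h0 hr
    let t : W m → W m → ZMod 2 := fun w => if w = p.r then q.t w else p.t w
    have ht : ∀ w, t w w = 0 := fun w => by
      simp only [t]; split_ifs
      · exact q.diag w
      · exact p.diag w
    refine ⟨twE t ht, fun x => ?_⟩
    by_cases hx : x.1.1 = p.r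
    · refine ⟨q, ?_, ?_, fun i => ⟨hs i, ?_⟩⟩
      · change x.1.1 ≠ s
        rw [hx]; exact hr.symm
      · exact tw_congr q.diag ht x (by simp only [t, if_pos hx])
      · exact tw_congr q.diag p.diag _ (p.move_row s h0 hr _ (hS i) (hs i))
    · refine ⟨p, hx, ?_, fun i => ⟨hS i, rfl⟩⟩
      exact tw_congr p.diag ht x (by simp only [t, if_neg hx])

theorem sum_half (m : ℕ) : ∑ z : W m, z.1 = 1 := by
  rw [Fintype.sum_prod_type]
  simp only [sum_const, card_univ, ZMod.card]
  have : ∀ a : ZMod 2, (2 * m + 1) • a = a := fun a => by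
    rw [add_nsmul, one_nsmul, mul_nsmul, two_nsmul, two_self, nsmul_zero, zero_add]
  simp only [this]
  decide

theorem one_ne (m : ℕ) (hm : 1 ≤ m) : (1 : ZMod (2 * m + 1)) ≠ 0 := by
  have : Fact (1 < 2 * m + 1) := ⟨by omega⟩
  exact one_ne_zero

def pos0 (m : ℕ) (hm : 1 ≤ m) : Pos m where
  t := fun x y => (if x = (0, 1) then y.1 else 0) + (if y = (0, 1) then x.1 else 0)
  r := (0, 1)
  diag := fun w => two_self _
  symm := fun w w' => add_comm _ _
  row0 := fun w => by
    have : (0 : W m) ≠ (0, 1) := fun h => one_ne m hm (congrArg Prod.snd h).symm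
    simp [this]
  r0 := fun h => one_ne m hm (congrArg Prod.snd h)
  rows := fun w hw => by simp [hw]
  rowr := by simp [sum_half]

theorem handshake {m : ℕ} (b : W m → W m → ZMod 2) (hd : ∀ w, b w w = 0)
    (hs : ∀ w w', b w w' = b w' w) : ∑ z, ∑ z', b z z' = 0 := by
  rw [← Fintype.sum_prod_type']
  refine sum_involution (fun p _ => p.swap) ?_ ?_ (fun _ _ => mem_univ _) (fun _ _ => rfl)
  · intro p _
    simp only [Prod.fst_swap, Prod.snd_swap]
    rw [hs p.2 p.1, two_self]
  · intro p _ h e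
    apply h
    have : p.2 = p.1 := congrArg Prod.fst e
    rw [this, hd]

theorem not_orbit (m : ℕ) (y : Vx m) (hy : y.1.1.1 = 1) (hy' : ∑ z, y.1.2 z = 1) (w : W m) :
    ¬ SameOrbit (Gr m) (cv m) (base w) y := by
  rintro ⟨ψ, h1, h2⟩
  have h0 : ψ (base 0) = base 0 := by
    have := h1 (base 0)
    by_contra h
    simp [stabilise, h] at this
  have hadj : ∀ a b : W m, a ≠ b → (Gr m).Adj (ψ (base a)) (ψ (base b)) := fun a b h =>
    ψ.map_adj_iff.2 ⟨h, rfl, fun _ => rfl⟩
  let σ : W m → W m := fun a => (ψ (base a)).1.1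
  have hσ : Function.Injective σ := fun a b h => by
    by_contra hab
    exact (hadj a b hab).1 h
  have hpar : ∀ a b : W m, (σ a).1 = (σ b).1 →
      ∑ z, (ψ (base a)).1.2 z = ∑ z, (ψ (base b)).1.2 z := fun a b h => by
    by_cases hab : a = b
    · rw [hab]
    · exact (hadj a b hab).2.2 h
  have hrow : ∀ a, ∑ z, (ψ (base a)).1.2 z = (σ a).1 := fun a => by
    have : ∀ e : ZMod 2, e = 0 ∨ e = 1 := by decide
    rcases this (σ a).1 with e | e
    · rw [hpar a 0 (by simp only [σ] at e ⊢; rw [e, h0]; rfl), h0, e]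
      simp [base]
    · rw [hpar a w (by simp only [σ] at e ⊢; rw [e, h2, hy]), h2, e, hy']
  let e : W m ≃ W m := Equiv.ofBijective σ (Finite.injective_iff_bijective.1 hσ)
  have hh := handshake (fun a b => (ψ (base a)).1.2 (σ b)) (fun a => (ψ (base a)).2) fun a b => by
    by_cases hab : a = b
    · rw [hab]
    · exact (hadj a b hab).2.1
  have h3 : ∀ a, ∑ b, (ψ (base a)).1.2 (σ b) = (σ a).1 := fun a => by
    rw [← hrow a]
    exact Equiv.sum_comp e _
  simp only [h3] at hh
  have h4 : ∑ a, (σ a).1 = ∑ a : W m, a.1 := Equiv.sum_comp e fun a => a.1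
  rw [h4, sum_half] at hh
  exact absurd hh (by decide)

theorem main (j : ℕ) : (∀ x y : Vx (j + 1), ∃ ψ : Gr (j + 1) ≃g Gr (j + 1), ψ x = y) ∧
    Refines j (Gr (j + 1)) (fun _ => ()) ∧ ¬ Refines j (Gr (j + 1)) (cv (j + 1)) := by
  refine ⟨transitive, fun u v => ?_, fun h => ?_⟩
  · have : SameOrbit (Gr (j + 1)) (fun _ => ()) u v := by
      obtain ⟨ψ, hψ⟩ := transitive u v
      exact ⟨ψ, fun _ => rfl, hψ⟩
    exact ⟨fun _ => this, fun _ => vc_of_orbit this⟩
  · have hm : 1 ≤ j + 1 := by omega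
    have hne : ((1, 0) : W (j + 1)) ≠ (pos0 (j + 1) hm).r := fun e =>
      absurd (congrArg Prod.fst e) (by change ¬ (1 : ZMod 2) = 0; decide)
    have h1 := vc_eq (strat (j + 1) hm) (pos0 (j + 1) hm) (base (1, 0)) hne
    refine not_orbit (j + 1) _ ?_ ?_ (1, 0) ((h _ _).1 h1)
    · rfl
    · change ∑ z, (0 + (pos0 (j + 1) hm).t (1, 0) z) = 1
      simp only [zero_add]
      exact (pos0 (j + 1) hm).rows _ hne

end Pool.Agent.H466Z.WL
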